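import Pool.Agent.W894.EIP.DM

/-!
Arithmetic in models of induction for bounded formulas: powers of two, overspill.
-/

set_option autoImplicit false
set_option linter.unusedSectionVars false

namespace Pool.Agent.W894.EIP

/-- induction for relations defined by bounded formulas with parameters -/
class IDel (M : Type) [CommSemiring M] [LinearOrder M] : Prop extends Disc M where
  ind : ∀ P : M → Prop, DP M P → P 0 → (∀ x, P x → P (x + 1)) → ∀ x, P x

section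

variable {M : Type} [CommSemiring M] [LinearOrder M] [IsStrictOrderedRing M]
  [CanonicallyOrderedAdd M] [IDel M] {α β γ δ : Type} [Cx M α] [Cx M β] [Cx M γ] [Cx M δ]

theorem zero_or_succ (x : M) : x = 0 ∨ ∃ y, x = y + 1 := by
  rcases eq_or_ne x 0 with h | h
  · exact Or.inl h
  · obtain ⟨c, hc⟩ := le_iff_exists_add.1 (Disc.out x (pos_iff_ne_zero.2 h))
    exact Or.inr ⟨c, by rw [hc, add_comm]⟩

theorem strong {P : M → Prop} (hP : DP M P) (h : ∀ x, (∀ y, y < x → P y) → P x) (x : M) : P x := by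
  have h1 : ∀ x, ∀ y, y < x → P y := by
    refine IDel.ind (fun x => ∀ y, y < x → P y) (DP.ball (by fun_prop) (hP.comp (by fun_prop))) ?_ ?_
    · intro y hy
      exact absurd hy (not_lt.2 (zero_le))
    · intro x hx y hy
      rw [lt_add_one_iff'] at hy
      rcases hy.lt_or_eq with h1 | rfl
      · exact hx y h1
      · exact h y hx
  exact h x (h1 x)

theorem least {P : M → Prop} (hP : DP M P) {a : M} (ha : P a) : ∃ x, x ≤ a ∧ P x ∧ ∀ y, y < x → ¬ P y := by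
  by_contra hcon
  push Not at hcon
  have h1 : ∀ x, x ≤ a → ¬ P x := by
    intro x
    refine strong (P := fun x => x ≤ a → ¬ P x)
      (DP.imp (DP.le (by fun_prop) (by fun_prop)) hP.not) ?_ x
    intro x hx hxa hPx
    obtain ⟨y, hy, hPy⟩ := hcon x hxa hPx
    exact hx y hy (hy.le.trans hxa) hPy
  exact h1 a le_rfl ha

theorem greatest {P : M → Prop} (hP : DP M P) {a b : M} (ha : P a) (hab : a ≤ b) :
    ∃ x, a ≤ x ∧ x ≤ b ∧ P x ∧ ∀ y, x < y → y ≤ b → ¬ P y := by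
  obtain ⟨x, hx1, ⟨hx2, hx3⟩, hx4⟩ := least (P := fun x => a ≤ x ∧ ∀ y, y ≤ b → x < y → ¬ P y)
    (DP.and (DP.le (by fun_prop) (by fun_prop)) (DP.balle (by fun_prop)
      (DP.imp (DP.lt (by fun_prop) (by fun_prop)) (hP.comp (f := fun p : M × M => p.2)
        (by fun_prop)).not))) (a := b)
    ⟨hab, fun y h1 h2 => absurd h1 (not_le.2 h2)⟩
  refine ⟨x, hx2, hx1, ?_, fun y h1 h2 => hx3 y h2 h1⟩
  rcases eq_or_lt_of_le hx2 with rfl | h
  · exact ha
  · rcases zero_or_succ x with rfl | ⟨z, rfl⟩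
    · exact absurd h (not_lt.2 zero_le)
    · have h5 := hx4 z (lt_add_one z)
      push Not at h5
      obtain ⟨y, hy1, hy2, hy3⟩ := h5 (lt_add_one_iff'.1 h)
      have h6 : z + 1 ≤ y := add_one_le_iff'.2 hy2
      rcases h6.lt_or_eq with h7 | h7
      · exact absurd hy3 (hx3 y hy1 h7)
      · rw [h7]; exact hy3

theorem division (a b : M) (hb : 0 < b) : ∃ q r, q ≤ a ∧ r < b ∧ a = b * q + r := by
  obtain ⟨q, -, hq1, hq2, hq3⟩ := greatest (P := fun q => b * q ≤ a)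
    (DP.le (by fun_prop) (by fun_prop)) (a := 0) (b := a) (by simp) (zero_le)
  obtain ⟨r, hr⟩ := le_iff_exists_add.1 hq2
  refine ⟨q, r, hq1, ?_, hr⟩
  by_contra hc
  rw [not_lt] at hc
  have h1 : b * (q + 1) ≤ a := by
    rw [hr, mul_add, mul_one]
    exact add_le_add le_rfl hc
  have h2 : q + 1 ≤ a := by
    have h3 : q + 1 ≤ b * (q + 1) := le_mul_of_one_le_left (zero_le) (Disc.out b hb)
    exact h3.trans h1
  exact hq3 (q + 1) (lt_add_one q) h2 h1

theorem natCast_le_iff {m n : ℕ} : (m : M) ≤ n ↔ m ≤ n := Nat.cast_le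

theorem eq_natCast_of_le {x : M} {n : ℕ} (h : x ≤ n) : ∃ k : ℕ, k ≤ n ∧ x = k := by
  induction n generalizing x with
  | zero =>
    refine ⟨0, le_rfl, ?_⟩
    rw [Nat.cast_zero] at h ⊢
    exact le_antisymm h (zero_le)
  | succ n ih =>
    rcases h.lt_or_eq with h1 | h1
    · rw [Nat.cast_succ, lt_add_one_iff'] at h1
      obtain ⟨k, hk, rfl⟩ := ih h1
      exact ⟨k, by omega, rfl⟩
    · exact ⟨n + 1, le_rfl, h1⟩

/-- nonstandard elements -/
def Inf (x : M) : Prop := ∀ k : ℕ, (k : M) < x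

theorem Inf.mono {x y : M} (h : Inf x) (hxy : x ≤ y) : Inf y := fun k => (h k).trans_le hxy

theorem Inf.of_le {x : M} (h : ∀ k : ℕ, (k : M) ≤ x) : Inf x := fun k =>
  lt_of_lt_of_le (by exact_mod_cast Nat.lt_succ_self k) (h (k + 1))

theorem not_inf {x : M} (h : ¬ Inf x) : ∃ k : ℕ, x = k := by
  unfold Inf at h
  push Not at h
  obtain ⟨n, hn⟩ := h
  obtain ⟨k, _, hk⟩ := eq_natCast_of_le hn
  exact ⟨k, hk⟩

/-- **Overspill** -/
theorem spill {P : M → Prop} (hP : DP M P) (h : ∀ n : ℕ, P (n : M)) {a : M} (ha : Inf a) :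
    ∃ c, Inf c ∧ c ≤ a ∧ ∀ x, x ≤ c → P x := by
  by_cases hall : ∀ x, x ≤ a → P x
  · exact ⟨a, ha, le_rfl, hall⟩
  · push Not at hall
    obtain ⟨x, hxa, hx⟩ := hall
    obtain ⟨y, hyx, hy, hmin⟩ := least hP.not hx
    have hyinf : Inf y := by
      by_contra hc
      obtain ⟨k, rfl⟩ := not_inf hc
      exact hy (h k)
    rcases zero_or_succ y with rfl | ⟨z, rfl⟩
    · exact absurd (hyinf 0) (by simp)
    · refine ⟨z, fun k => ?_, ?_, fun w hw => ?_⟩
      · have := hyinf (k + 1)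
        rw [Nat.cast_succ] at this
        exact lt_of_add_lt_add_right this
      · exact (le_self_add).trans (hyx.trans hxa)
      · have := hmin w (lt_add_one_iff'.2 hw)
        exact not_not.1 this

theorem dvd_iff_bdd {x y : M} : x ∣ y ↔ ∃ z, z ≤ y ∧ y = x * z := by
  constructor
  · rintro ⟨z, hz⟩
    rcases eq_or_ne x 0 with h | h
    · refine ⟨0, zero_le, ?_⟩
      rw [hz, h]; simp
    · refine ⟨z, ?_, hz⟩
      rw [hz]
      exact le_mul_of_one_le_left (zero_le) (Disc.out x (pos_iff_ne_zero.2 h))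
  · rintro ⟨z, _, hz⟩
    exact ⟨z, hz⟩

theorem DP.dvd {f g : α → M} (hf : DF M f) (hg : DF M g) : DP M (fun a => f a ∣ g a) :=
  (DP.bexle (Q := fun a z => g a = f a * z) hg (DP.eq (by fun_prop) (by fun_prop))).of_iff
    fun _ => dvd_iff_bdd

theorem le_of_dvd' {x y : M} (hy : 0 < y) (h : x ∣ y) : x ≤ y := by
  obtain ⟨z, hz⟩ := h
  have hz0 : z ≠ 0 := by
    rintro rfl
    rw [mul_zero] at hz
    exact hy.ne' hz
  rw [hz]
  exact le_mul_of_one_le_right (zero_le) (Disc.out z (pos_iff_ne_zero.2 hz0))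

/-- powers of two -/
def Pw (p : M) : Prop := 0 < p ∧ ∀ d, d ≤ p → d ∣ p → d = 1 ∨ 2 ∣ d

theorem DP.pw {f : α → M} (hf : DF M f) : DP M (fun a => Pw (f a)) := by
  have h : DP M (fun x : M => Pw x) :=
    DP.and (DP.lt (by fun_prop) (by fun_prop)) (DP.balle (by fun_prop)
      (DP.imp (DP.dvd (by fun_prop) (by fun_prop))
        (DP.or (DP.eq (by fun_prop) (by fun_prop)) (DP.dvd (by fun_prop) (by fun_prop)))))
  exact h.comp hf

theorem Pw.dv {p d : M} (h : Pw p) (hd : d ∣ p) : d = 1 ∨ 2 ∣ d :=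
  h.2 d (le_of_dvd' h.1 hd) hd

theorem Pw.mk {p : M} (h0 : 0 < p) (h : ∀ d, d ∣ p → ¬ 2 ∣ d → d = 1) : Pw p :=
  ⟨h0, fun d _ hd => by
    by_cases h2 : 2 ∣ d
    · exact Or.inr h2
    · exact Or.inl (h d hd h2)⟩

theorem even_or_odd' (x : M) : ∃ y, x = 2 * y ∨ x = 2 * y + 1 := by
  obtain ⟨q, r, _, hr, h⟩ := division x 2 (by exact two_pos)
  have h1 : r < 1 + 1 := by rwa [one_add_one_eq_two]
  rw [lt_add_one_iff'] at h1
  rcases h1.lt_or_eq with h2 | h2
  · have h3 : r = 0 := by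
      by_contra hc
      exact absurd (Disc.out r (pos_iff_ne_zero.2 hc)) (not_le.2 h2)
    exact ⟨q, Or.inl (by rw [h, h3, add_zero])⟩
  · exact ⟨q, Or.inr (by rw [h, h2])⟩

theorem odd_ne {x y : M} : 2 * x + 1 ≠ 2 * y := by
  intro h
  rcases le_or_gt y x with h1 | h1
  · have h2 : 2 * y ≤ 2 * x := mul_le_mul_right h1 2
    rw [← h] at h2
    exact absurd (lt_add_one (2 * x)) (not_lt.2 h2)
  · rw [← add_one_le_iff'] at h1
    have h2 : 2 * (x + 1) ≤ 2 * y := mul_le_mul_right h1 2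
    rw [← h, mul_add, mul_one] at h2
    have h3 : (2 : M) ≤ 1 := le_of_add_le_add_left h2
    exact absurd h3 (not_le.2 one_lt_two)

theorem not_two_dvd {x : M} : ¬ 2 ∣ 2 * x + 1 := by
  rintro ⟨y, hy⟩
  exact odd_ne hy

theorem odd_of_not {x : M} (h : ¬ 2 ∣ x) : ∃ y, x = 2 * y + 1 := by
  obtain ⟨y, hy | hy⟩ := even_or_odd' x
  · exact absurd ⟨y, hy⟩ h
  · exact ⟨y, hy⟩

theorem two_dvd_of_mul {d e : M} (hd : ¬ 2 ∣ d) (h : 2 ∣ d * e) : 2 ∣ e := by
  by_contra he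
  obtain ⟨a, rfl⟩ := odd_of_not hd
  obtain ⟨b, rfl⟩ := odd_of_not he
  have : (2 * a + 1) * (2 * b + 1) = 2 * (2 * a * b + a + b) + 1 := by ring
  rw [this] at h
  exact not_two_dvd h

theorem Pw.one : Pw (1 : M) := Pw.mk one_pos fun d hd _ => by
  have h1 := le_of_dvd' one_pos hd
  have h2 : d ≠ 0 := by
    rintro rfl
    rw [zero_dvd_iff] at hd
    exact one_ne_zero hd
  exact le_antisymm h1 (Disc.out d (pos_iff_ne_zero.2 h2))

theorem Pw.of_dvd {p q : M} (h : Pw p) (hq : q ∣ p) : Pw q := by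
  refine Pw.mk ?_ fun d hd h2 => (h.dv (hd.trans hq)).resolve_right h2
  rw [pos_iff_ne_zero]
  rintro rfl
  rw [zero_dvd_iff] at hq
  exact h.1.ne' hq

theorem Pw.double {p : M} (h : Pw p) : Pw (2 * p) := by
  refine Pw.mk (mul_pos two_pos h.1) fun d hd h2 => ?_
  obtain ⟨e, he⟩ := hd
  obtain ⟨e', rfl⟩ := two_dvd_of_mul h2 (e := e) ⟨p, he.symm⟩
  have h3 : p = d * e' := by
    have : 2 * p = 2 * (d * e') := by rw [he]; ring
    exact mul_left_cancel₀ two_ne_zero this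
  exact (h.dv ⟨e', h3⟩).resolve_right h2

theorem Pw.half {p : M} (h : Pw p) (h1 : p ≠ 1) : ∃ q, p = 2 * q ∧ Pw q ∧ q < p := by
  obtain ⟨q, hq⟩ := (h.dv dvd_rfl).resolve_left h1
  have hqP : Pw q := h.of_dvd ⟨2, by rw [hq, mul_comm]⟩
  refine ⟨q, hq, hqP, ?_⟩
  rw [hq]
  exact lt_mul_of_one_lt_left hqP.1 one_lt_two

theorem Pw.mul {p q : M} (hp : Pw p) (hq : Pw q) : Pw (p * q) := by
  refine strong (P := fun p => Pw p → Pw (p * q))
    (DP.imp (DP.pw (by fun_prop)) (DP.pw (by fun_prop))) ?_ p hp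
  intro p ih hp
  by_cases h1 : p = 1
  · rw [h1, one_mul]; exact hq
  · obtain ⟨r, hr, hr1, hr2⟩ := hp.half h1
    rw [hr, mul_assoc]
    exact (ih r hr2 hr1).double

theorem Pw.pow {p : M} (hp : Pw p) : ∀ k : ℕ, Pw (p ^ k)
  | 0 => by rw [pow_zero]; exact Pw.one
  | k + 1 => by rw [pow_succ]; exact (Pw.pow hp k).mul hp

theorem Pw.two : Pw (2 : M) := by
  have := (Pw.one (M := M)).double
  rwa [mul_one] at this

theorem Pw.dvd_of_le {p q : M} (hp : Pw p) (hq : Pw q) (h : p ≤ q) : p ∣ q := by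
  refine strong (P := fun p => Pw p → ∀ q', q' ≤ q → (Pw q' → p ≤ q' → p ∣ q')) ?_ ?_ p hp q le_rfl hq h
  · refine DP.imp (DP.pw (by fun_prop)) (DP.balle (by fun_prop) (DP.imp (DP.pw (by fun_prop))
      (DP.imp (DP.le (by fun_prop) (by fun_prop)) (DP.dvd (by fun_prop) (by fun_prop)))))
  · intro p ih hp q' hq' hqP hle
    by_cases h1 : p = 1
    · rw [h1]; exact one_dvd _
    · obtain ⟨r, hr, hr1, hr2⟩ := hp.half h1
      have h2 : q' ≠ 1 := by
        rintro rfl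
        have : 1 ≤ r := Disc.out r hr1.1
        exact absurd (this.trans_lt hr2) (not_lt.2 hle)
      obtain ⟨s, hs, hs1, hs2⟩ := hqP.half h2
      rw [hr, hs]
      refine mul_dvd_mul_left 2 (ih r hr2 hr1 s (hs2.le.trans hq') hs1 ?_)
      rw [hr, hs] at hle
      exact le_of_mul_le_mul_left hle two_pos

theorem Pw.exists_le {x : M} (hx : 0 < x) : ∃ p, p ≤ x ∧ Pw p ∧ x < 2 * p := by
  refine IDel.ind (fun x => 0 < x → ∃ p, p ≤ x ∧ Pw p ∧ x < 2 * p) ?_ ?_ ?_ x hx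
  · exact DP.imp (DP.lt (by fun_prop) (by fun_prop)) (DP.bexle (by fun_prop)
      (DP.and (DP.pw (by fun_prop)) (DP.lt (by fun_prop) (by fun_prop))))
  · intro h
    exact absurd h (lt_irrefl _)
  · intro x ih _
    rcases eq_or_ne x 0 with h0 | h0
    · refine ⟨1, ?_, Pw.one, ?_⟩
      · rw [h0, zero_add]
      · rw [h0, zero_add, mul_one]; exact one_lt_two
    · obtain ⟨p, hp1, hp2, hp3⟩ := ih (pos_iff_ne_zero.2 h0)
      rcases (add_one_le_iff'.2 hp3).lt_or_eq with h1 | h1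
      · exact ⟨p, hp1.trans le_self_add, hp2, h1⟩
      · refine ⟨2 * p, h1.ge, hp2.double, ?_⟩
        rw [h1]
        exact lt_mul_of_one_lt_left (mul_pos two_pos hp2.1) one_lt_two

theorem Pw.eq_two_pow {t : M} (ht : Pw t) {n : ℕ} (h : t < 2 ^ n) : ∃ i < n, t = 2 ^ i := by
  induction n generalizing t with
  | zero =>
    rw [pow_zero] at h
    exact absurd (Disc.out t ht.1) (not_le.2 h)
  | succ n ih =>
    by_cases h1 : t = 1
    · exact ⟨0, by omega, by rw [h1, pow_zero]⟩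
    · obtain ⟨r, hr, hr1, _⟩ := ht.half h1
      rw [hr, pow_succ, mul_comm] at h
      obtain ⟨i, hi, hri⟩ := ih hr1 (lt_of_mul_lt_mul_right h zero_le)
      exact ⟨i + 1, by omega, by rw [hr, hri, pow_succ, mul_comm]⟩

/-- roots of powers of two -/
theorem Pw.root {p : M} (hp : Pw p) {n : ℕ} (hn : 0 < n) :
    ∃ s, Pw s ∧ ∃ i < n, p = s ^ n * 2 ^ i := by
  obtain ⟨s, hs1, hs2, ⟨hs3, hs4⟩, hs5⟩ := greatest (P := fun s => Pw s ∧ s ^ n ≤ p)
    (DP.and (DP.pw (by fun_prop)) (DP.le (by fun_prop) (by fun_prop))) (a := 1) (b := p)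
    ⟨Pw.one, by rw [one_pow]; exact Disc.out p hp.1⟩ (Disc.out p hp.1)
  obtain ⟨t, ht⟩ := (hs3.pow n).dvd_of_le hp hs4
  have htP : Pw t := hp.of_dvd ⟨s ^ n, by rw [ht, mul_comm]⟩
  have htlt : t < 2 ^ n := by
    by_contra hc
    rw [not_lt] at hc
    have h1 : (2 * s) ^ n ≤ p := by
      rw [mul_pow, ht, mul_comm]
      exact mul_le_mul_right hc _
    have h2 : 2 * s ≤ p := (le_self_pow₀ (by
      have := mul_le_mul' (one_le_two : (1 : M) ≤ 2) hs1
      rwa [one_mul] at this) hn.ne').trans h1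
    exact hs5 (2 * s) (lt_mul_of_one_lt_left hs3.1 one_lt_two) h2 ⟨hs3.double, h1⟩
  obtain ⟨i, hi, hti⟩ := htP.eq_two_pow htlt
  exact ⟨s, hs3, i, hi, by rw [ht, hti]⟩

end

end Pool.Agent.W894.EIP
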