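import Pool.Agent.W894.EIP.Hp3

/-!
The exponential.
-/

set_option autoImplicit false
set_option linter.unusedSectionVars false
set_option linter.unusedVariables false

namespace Pool.Agent.W894.EIP

section

variable {R : Type} [Field R] [LinearOrder R] [IsStrictOrderedRing R]

theorem val_zsmul {G : Subgroup {x : R // 0 < x}} (k : ℤ) (a : Additive G) :
    val (k • a) = val a ^ k := by
  obtain ⟨n, rfl | rfl⟩ := k.eq_nat_or_neg
  · rw [natCast_zsmul, val_nsmul, zpow_natCast]
  · rw [neg_smul, natCast_zsmul, val_neg, val_nsmul, zpow_neg, zpow_natCast]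

variable {M : Type} [CommSemiring M] [LinearOrder M] [IsStrictOrderedRing M]
  [CanonicallyOrderedAdd M] [IDel M] [NPB M] {ι : M →+* R}

variable (hι : StrictMono ι)
include hι

/-- finite integers are standard -/
theorem fi_Zs (z : Zs ι) (h : Fi (z : R)) : ∃ k : ℤ, z = k • (1 : Zs ι) := by
  apply base_z hι
  obtain ⟨n, hn⟩ := fi_iff.1 h
  refine ⟨n, ?_⟩
  have h1 : |(z : R)| ≤ n • |(1 : R)| := by
    rw [abs_one, nsmul_eq_mul, mul_one]; exact hn
  have e1 : ((|z| : Zs ι) : R) = |(z : R)| := by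
    rcases le_total 0 z with h | h
    · have h' : 0 ≤ (z : R) := h
      rw [abs_of_nonneg h, abs_of_nonneg h']
    · have h' : (z : R) ≤ 0 := h
      rw [abs_of_nonpos h, abs_of_nonpos h']
      rfl
  have e2 : ((n • |(1 : Zs ι)| : Zs ι) : R) = n • |(1 : R)| := by
    rw [abs_one, abs_one]
    rfl
  rw [← e1, ← e2] at h1
  exact h1

variable (hfl : ∀ r : R, 0 ≤ r → ∃ m, ι m ≤ r ∧ r < ι m + 1)
include hfl

theorem split_nonneg {x : R} (hx : 0 ≤ x) : ∃ (z : Zs ι) (r : Vf R), 0 ≤ z ∧ 0 ≤ r ∧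
    x = (z : R) + (r : R) := by
  obtain ⟨m, h1, h2⟩ := hfl x hx
  have hf : Fi (x - ι m) := fi_iff.2 ⟨1, by
    rw [abs_of_nonneg (sub_nonneg.2 h1), Nat.cast_one]; linarith⟩
  refine ⟨zof ι m, ⟨x - ι m, hf⟩, zof_nonneg hι m, ?_, ?_⟩
  · change (0 : R) ≤ x - ι m
    exact sub_nonneg.2 h1
  · change x = ι m + (x - ι m)
    ring

theorem split (x : R) : ∃ (z : Zs ι) (r : Vf R), x = (z : R) + (r : R) := by
  rcases le_total 0 x with hx | hx
  · obtain ⟨z, r, _, _, h⟩ := split_nonneg hι hfl hx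
    exact ⟨z, r, h⟩
  · obtain ⟨z, r, _, _, h⟩ := split_nonneg hι hfl (neg_nonneg.2 hx)
    refine ⟨-z, -r, ?_⟩
    change x = -(z : R) + -(r : R)
    linarith

theorem exists_E [IsRealClosed R] [Countable R] : ∃ E : R → R, StrictMono E ∧ (∀ x, 0 < E x) ∧
    (∀ x y, E (x + y) = E x * E y) ∧ (∀ y, 0 < y → ∃ x, E x = y) ∧ E 1 = 2 ∧
    ∀ a : M, ∃ b : M, E (ι a) = ι b := by
  obtain ⟨g, hg, hg1⟩ := exists_g hι
  obtain ⟨h, hh, hh1⟩ := exists_h hι hfl
  choose zz rr hzr using split hι hfl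
  obtain ⟨E, hE⟩ : ∃ E : R → R, E = fun x => val (g (zz x)) * val (h (rr x)) := ⟨_, rfl⟩
  have hEeq : ∀ (x : R) (z : Zs ι) (r : Vf R), x = (z : R) + (r : R) →
      E x = val (g z) * val (h r) := by
    intro x z r hx
    have h0 := hzr x
    have h1 : ((z - zz x : Zs ι) : R) = ((rr x - r : Vf R) : R) := by
      push_cast
      linarith
    obtain ⟨k, hk⟩ := fi_Zs hι (z - zz x) (by rw [h1]; exact (rr x - r).2)
    have h2 : z = zz x + k • 1 := by rw [← hk]; abel
    have h3 : rr x = r + k • (⟨1, Fi.one⟩ : Vf R) := by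
      apply Subtype.ext
      have h4 : ((rr x - r : Vf R) : R) = k := by
        rw [← h1, hk]
        push_cast
        simp
      have h5 : ((r + k • (⟨1, Fi.one⟩ : Vf R) : Vf R) : R) = (r : R) + k := by
        change (r : R) + k • (1 : R) = _
        simp
      rw [h5, ← h4]
      push_cast
      ring
    have h6 : val (g z) = val (g (zz x)) * 2 ^ k := by
      rw [h2, map_add, val_add, map_zsmul, val_zsmul, hg1, val_wof, map_ofNat]
    have h7 : val (h (rr x)) = val (h r) * 2 ^ k := by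
      rw [h3, map_add, val_add, map_zsmul, val_zsmul, hh1]
    rw [hE]
    change val (g (zz x)) * val (h (rr x)) = val (g z) * val (h r)
    rw [h6, h7]
    ring
  have hpos : ∀ x, 0 < E x := fun x => by
    rw [hE]
    exact mul_pos (val_pos _) (val_pos _)
  have hadd : ∀ x y, E (x + y) = E x * E y := by
    intro x y
    rw [hEeq (x + y) (zz x + zz y) (rr x + rr y) (by
      push_cast
      have h1 := hzr x
      have h2 := hzr y
      linear_combination h1 + h2), map_add, map_add, val_add, val_add]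
    rw [hEeq x (zz x) (rr x) (hzr x), hEeq y (zz y) (rr y) (hzr y)]
    ring
  have hE0 : E 0 = 1 := by
    rw [hEeq 0 0 0 (by push_cast; ring), map_zero, map_zero, val_zero, val_zero, mul_one]
  have hgt : ∀ d, 0 < d → 1 < E d := by
    intro d hd
    obtain ⟨z, r, h1, h2, h3⟩ := split_nonneg hι hfl hd.le
    rw [hEeq d z r h3]
    have h4 : 1 ≤ val (g z) := by
      rw [← val_zero (G := Gp hι), val_le, ← map_zero g]
      exact hg.monotone h1
    have h5 : 1 ≤ val (h r) := by
      rw [← val_zero (G := Uf R), val_le, ← map_zero h]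
      exact hh.monotone h2
    rcases h1.eq_or_lt with h6 | h6
    · rcases h2.eq_or_lt with h7 | h7
      · rw [← h6, ← h7] at h3
        push_cast at h3
        rw [h3, add_zero] at hd
        exact absurd hd (lt_irrefl _)
      · have h8 : 1 < val (h r) := by
          rw [← val_zero (G := Uf R), val_lt, ← map_zero h]
          exact hh h7
        exact one_lt_mul_of_le_of_lt h4 h8
    · have h8 : 1 < val (g z) := by
        rw [← val_zero (G := Gp hι), val_lt, ← map_zero g]
        exact hg h6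
      exact one_lt_mul_of_lt_of_le h8 h5
  have hneg : ∀ x, E (-x) = (E x)⁻¹ := by
    intro x
    have h1 := hadd x (-x)
    rw [add_neg_cancel, hE0] at h1
    exact (inv_eq_of_mul_eq_one_right h1.symm).symm
  have hsurj1 : ∀ y, 1 ≤ y → ∃ x, E x = y := by
    intro y hy
    obtain ⟨m, h1, h2⟩ := hfl y (zero_le_one.trans hy)
    have hm0 : 0 < m := by
      rw [pos_iff_ne_zero]
      rintro rfl
      rw [map_zero, zero_add] at h2
      exact absurd hy (not_le.2 h2)
    obtain ⟨p, hp1, hp2, hp3⟩ := Pw.exists_le hm0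
    have hpR : 0 < ι p := ι_pos hι hp2.1
    have h3 : ι p ≤ y := (hι.monotone hp1).trans h1
    have h4 : y ≤ 2 * ι p := by
      have h5 : m + 1 ≤ 2 * p := add_one_le_iff'.2 hp3
      have h6 := hι.monotone h5
      rw [map_add, map_one, map_mul, map_ofNat] at h6
      exact h2.le.trans h6
    obtain ⟨q, hq⟩ : ∃ q, q = y * (ι p)⁻¹ := ⟨_, rfl⟩
    have hq1 : 1 ≤ q := by
      rw [hq, ← div_eq_mul_inv, one_le_div hpR]
      exact h3
    have hq2 : q ≤ 2 := by
      rw [hq, ← div_eq_mul_inv, div_le_iff₀ hpR]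
      exact h4
    have hqf : Fi q := fi_iff.2 ⟨2, by
      rw [abs_of_nonneg (zero_le_one.trans hq1)]
      push_cast
      exact hq2⟩
    have hqs : st q ≠ 0 := by
      have := st_mono Fi.one hqf hq1
      rw [st_one] at this
      exact (one_pos.trans_le this).ne'
    refine ⟨(g.symm (wof hι p hp2) : R) + (h.symm (uof q (one_pos.trans_le hq1) hqs) : R), ?_⟩
    rw [hEeq _ _ _ rfl, AddEquiv.apply_symm_apply, AddEquiv.apply_symm_apply, val_wof, val_uof, hq]
    field_simp
  refine ⟨E, ?_, hpos, hadd, ?_, ?_, ?_⟩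
  · intro x y hxy
    have h1 := hadd x (y - x)
    rw [add_sub_cancel] at h1
    rw [h1]
    exact lt_mul_of_one_lt_right (hpos x) (hgt _ (sub_pos.2 hxy))
  · intro y hy
    rcases le_total 1 y with h1 | h1
    · exact hsurj1 y h1
    · obtain ⟨x, hx⟩ := hsurj1 y⁻¹ ((one_le_inv₀ hy).2 h1)
      exact ⟨-x, by rw [hneg, hx, inv_inv]⟩
  · rw [hEeq 1 1 0 (by push_cast; ring), map_zero, val_zero, hg1, val_wof, map_ofNat, mul_one]
  · intro a
    have h1 : 0 ≤ g (zof ι a) := by
      rw [← map_zero g]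
      exact hg.monotone (zof_nonneg hι a)
    obtain ⟨p, hp, h2⟩ := exists_wof hι h1
    refine ⟨p, ?_⟩
    rw [hEeq (ι a) (zof ι a) 0 (by push_cast; rw [zof_val]; ring), map_zero, val_zero, h2, val_wof,
      mul_one]

end

/-- Models of induction for bounded formulas which are not polynomially bounded are exponential
integer parts. -/
theorem exists_RE (M : Type) [CommSemiring M] [LinearOrder M] [IsStrictOrderedRing M]
    [CanonicallyOrderedAdd M] [IDel M] [NPB M] [Countable M] :
    ∃ (R : Type) (_ : Field R) (_ : LinearOrder R) (_ : IsStrictOrderedRing R)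
      (ι : M →+* R) (E : R → R), IsRealClosed R ∧ StrictMono ι ∧
        (∀ r : R, 0 ≤ r → ∃ m : M, ι m ≤ r ∧ r < ι m + 1) ∧
        StrictMono E ∧ (∀ x, 0 < E x) ∧ (∀ x y, E (x + y) = E x * E y) ∧
        (∀ y, 0 < y → ∃ x, E x = y) ∧ E 1 = 2 ∧ ∀ a : M, ∃ b : M, E (ι a) = ι b := by
  obtain ⟨R, _, _, _, _, ι, h1, h2, h3⟩ := exists_R M
  obtain ⟨E, h4⟩ := exists_E h2 h3
  exact ⟨R, _, _, inferInstance, ι, E, h1, h2, h3, h4⟩

end Pool.Agent.W894.EIP
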