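import Pool.Agent.W894.EIP.BO

/-!
Back and forth between countable ordered abelian groups: extension of partial isomorphisms.
-/

set_option autoImplicit false
set_option linter.unusedSectionVars false

namespace Pool.Agent.W894.EIP

section

variable {V W : Type*} [AddCommGroup V] [LinearOrder V] [IsOrderedAddMonoid V]
  [AddCommGroup W] [LinearOrder W] [IsOrderedAddMonoid W]

/-- the conditions which allow to extend partial isomorphisms from `V` to `W` -/
structure Half (S : Submodule ℤ (V × W)) (V0 : AddSubgroup V) (W0 : AddSubgroup W)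
    (u : V) (v : W) : Prop where
  tot : ∀ x : V, ∃ y : W, (x, y) ∈ S
  div : ∀ (n : ℕ), 0 < n → ∀ (x : V) (y' : W), (n • x, y') ∈ S → ∃ y, n • y = y' ∧ (x, y) ∈ S
  sm : ∀ (x : V) (y : W), (x, y) ∈ S → (x ∈ V0 ↔ y ∈ W0)
  sgn : ∀ (x : V) (y : W), (x, y) ∈ S → x ∉ V0 → (0 < x ↔ 0 < y)
  conv : ∀ (x y : V), y ∈ V0 → |x| ≤ |y| → x ∈ V0
  memu : u ∈ V0
  base : ∀ x : V, BO x u → ∃ k : ℤ, x = k • u
  res : ∀ z ∈ V0, ∀ w0 ∈ W0, 0 < w0 → ¬ BO w0 v → ∃ w ∈ W0, (z, w) ∈ S ∧ ¬ BO w0 (w - w0)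
  rat : ∀ d ∈ V0, ∀ b ∈ V0, 0 < b → ¬ BO b u → ∀ ρ : ℝ, ρ ≠ 0 → Ratio d b ρ →
    ∀ b' ∈ W0, 0 < b' → ¬ BO b' v → ∃ d' ∈ W0, Ratio d' b' ρ
  mid : ∀ lo ∈ W0, ∀ hi ∈ W0, BO v lo → ¬ BO hi lo → ∃ d' ∈ W0, 0 < d' ∧ ¬ BO d' lo ∧ ¬ BO hi d'
  top : ∀ lo ∈ W0, ∃ d' ∈ W0, 0 < d' ∧ ¬ BO d' lo

/-- partial isomorphisms -/
structure PI (S : Submodule ℤ (V × W)) (u : V) (v : W) (Γ : Submodule ℤ (V × W)) : Prop where
  le : Γ ≤ S
  fg : Γ.FG
  base : (u, v) ∈ Γ
  pos : ∀ p ∈ Γ, 0 < p.1 ↔ 0 < p.2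

variable {S : Submodule ℤ (V × W)} {V0 : AddSubgroup V} {W0 : AddSubgroup W} {u : V} {v : W}
  {Γ : Submodule ℤ (V × W)}

theorem PI.neg (h : PI S u v Γ) {p : V × W} (hp : p ∈ Γ) : p.1 < 0 ↔ p.2 < 0 := by
  have := h.pos _ (Γ.neg_mem hp)
  simpa using this

theorem PI.pos_mk (h : PI S u v Γ) {x : V} {y : W} (hp : (x, y) ∈ Γ) : 0 < x ↔ 0 < y := h.pos _ hp

theorem PI.neg_mk (h : PI S u v Γ) {x : V} {y : W} (hp : (x, y) ∈ Γ) : x < 0 ↔ y < 0 := h.neg hp

theorem PI.abs_le (h : PI S u v Γ) {p q : V × W} (hp : p ∈ Γ) (hq : q ∈ Γ) :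
    |p.1| ≤ |q.1| ↔ |p.2| ≤ |q.2| := by
  have key : ∀ p ∈ Γ, ∃ p' ∈ Γ, p'.1 = |p.1| ∧ p'.2 = |p.2| := by
    intro p hp
    rcases lt_trichotomy 0 p.1 with h1 | h1 | h1
    · exact ⟨p, hp, (abs_of_pos h1).symm, (abs_of_pos ((h.pos p hp).1 h1)).symm⟩
    · refine ⟨p, hp, by rw [← h1]; simp, ?_⟩
      have h2 : ¬ 0 < p.2 := fun h2 => by
        have := (h.pos p hp).2 h2
        rw [← h1] at this
        exact lt_irrefl _ this
      have h3 : ¬ p.2 < 0 := fun h2 => by
        have := (h.neg hp).2 h2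
        rw [← h1] at this
        exact lt_irrefl _ this
      have h4 : p.2 = 0 := le_antisymm (not_lt.1 h2) (not_lt.1 h3)
      rw [h4]; simp
    · refine ⟨-p, Γ.neg_mem hp, ?_, ?_⟩
      · rw [abs_of_neg h1]; rfl
      · rw [abs_of_neg ((h.neg hp).1 h1)]; rfl
  obtain ⟨p', hp', h1, h2⟩ := key p hp
  obtain ⟨q', hq', h3, h4⟩ := key q hq
  rw [← h1, ← h2, ← h3, ← h4, ← not_lt, ← not_lt, not_iff_not, ← sub_pos, ← sub_pos (a := p'.2)]
  exact h.pos _ (Γ.sub_mem hp' hq')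

theorem PI.BO (h : PI S u v Γ) {p q : V × W} (hp : p ∈ Γ) (hq : q ∈ Γ) :
    BO p.1 q.1 ↔ EIP.BO p.2 q.2 := by
  unfold EIP.BO
  apply exists_congr
  intro n
  have := h.abs_le hp (Γ.nsmul_mem hq n)
  simpa [abs_nsmul] using this

theorem PI.BO_mk (h : PI S u v Γ) {x a : V} {y b : W} (hp : (x, y) ∈ Γ) (hq : (a, b) ∈ Γ) :
    EIP.BO x a ↔ EIP.BO y b := h.BO hp hq

/-- adjoining a pair -/
theorem PI.extend (h : PI S u v Γ) {d : V} {d' : W} (hS : (d, d') ∈ S)
    (H : ∀ (j : ℤ), j ≠ 0 → ∀ x y, (x, y) ∈ Γ → (0 < j • d + x ↔ 0 < j • d' + y)) :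
    ∃ Γ' : Submodule ℤ (V × W), Γ ≤ Γ' ∧ PI S u v Γ' ∧ ∃ d', (d, d') ∈ Γ' := by
  refine ⟨Γ ⊔ Submodule.span ℤ {(d, d')}, le_sup_left, ⟨?_, ?_, ?_, ?_⟩, d', ?_⟩
  · refine sup_le h.le ?_
    rw [Submodule.span_singleton_le_iff_mem]
    exact hS
  · exact h.fg.sup (Submodule.fg_span_singleton _)
  · exact Submodule.mem_sup_left h.base
  · intro p hp
    obtain ⟨q, hq, r, hr, rfl⟩ := Submodule.mem_sup.1 hp
    rw [Submodule.mem_span_singleton] at hr
    obtain ⟨j, rfl⟩ := hr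
    by_cases hj : j = 0
    · subst hj
      simpa using h.pos q hq
    · have := H j hj q.1 q.2 hq
      simpa [add_comm] using this
  · exact Submodule.mem_sup_right (Submodule.mem_span_singleton_self _)

theorem pos_nsmul_iff {x : V} {n : ℕ} (hn : 0 < n) : 0 < n • x ↔ 0 < x := by
  rw [nsmul_pos_iff hn.ne']

/-- signs agree -/
def Sg (x : V) (y : W) : Prop := (0 < x ∧ 0 < y) ∨ (x < 0 ∧ y < 0)

theorem Sg.neg {x : V} {y : W} (h : Sg x y) : Sg (-x) (-y) := by
  rcases h with ⟨h1, h2⟩ | ⟨h1, h2⟩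
  · exact Or.inr ⟨neg_neg_iff_pos.2 h1, neg_neg_iff_pos.2 h2⟩
  · exact Or.inl ⟨neg_pos.2 h1, neg_pos.2 h2⟩

theorem Sg.iff {x : V} {y : W} (h : Sg x y) : 0 < x ↔ 0 < y := by
  rcases h with ⟨h1, h2⟩ | ⟨h1, h2⟩
  · exact ⟨fun _ => h2, fun _ => h1⟩
  · exact ⟨fun h => absurd h (not_lt.2 h1.le), fun h => absurd h (not_lt.2 h2.le)⟩

theorem PI.finish (hH : Half S V0 W0 u v) (h : PI S u v Γ) {d e a0 : V} {a0' e' : W} {c : ℕ}
    (hc : 0 < c) (ha : (a0, a0') ∈ Γ) (he : e = c • d - a0) (hS : (e, e') ∈ S)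
    (hG : ∀ k : ℕ, 0 < k → ∀ x y, (x, y) ∈ Γ → Sg (k • e + x) (k • e' + y)) :
    ∃ Γ' : Submodule ℤ (V × W), Γ ≤ Γ' ∧ PI S u v Γ' ∧ ∃ d', (d, d') ∈ Γ' := by
  have h1 : (c • d, e' + a0') ∈ S := by
    have := S.add_mem hS (h.le ha)
    have h2 : (e, e') + (a0, a0') = (c • d, e' + a0') := by
      rw [Prod.mk_add_mk, he]; simp
    rwa [h2] at this
  obtain ⟨d', hd', hS'⟩ := hH.div c hc d _ h1
  refine h.extend hS' ?_
  have he1 : c • d = e + a0 := by rw [he]; abel
  intro j hj x y hxy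
  obtain ⟨k, rfl | rfl⟩ := j.eq_nat_or_neg
  · have hk : 0 < k := by
      rcases Nat.eq_zero_or_pos k with h0 | h0
      · simp [h0] at hj
      · exact h0
    have h2 := hG k hk (k • a0 + c • x) (k • a0' + c • y)
      (Γ.add_mem (Γ.nsmul_mem ha k) (Γ.nsmul_mem hxy c))
    rw [← pos_nsmul_iff hc, ← pos_nsmul_iff (x := ((k : ℤ) • d' + y)) hc, natCast_zsmul,
      natCast_zsmul]
    have e1 : c • (k • d + x) = k • e + (k • a0 + c • x) := by
      rw [smul_add, smul_smul, mul_comm, ← smul_smul, he1, smul_add]; abel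
    have e2 : c • (k • d' + y) = k • e' + (k • a0' + c • y) := by
      rw [smul_add, smul_smul, mul_comm, ← smul_smul, hd', smul_add]; abel
    rw [e1, e2]
    exact h2.iff
  · have hk : 0 < k := by
      rcases Nat.eq_zero_or_pos k with h0 | h0
      · simp [h0] at hj
      · exact h0
    have h2 := hG k hk (k • a0 - c • x) (k • a0' - c • y)
      (Γ.sub_mem (Γ.nsmul_mem ha k) (Γ.nsmul_mem hxy c))
    rw [← pos_nsmul_iff hc, ← pos_nsmul_iff (x := ((-k : ℤ) • d' + y)) hc, neg_smul, neg_smul,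
      natCast_zsmul, natCast_zsmul]
    have e1 : c • (-(k • d) + x) = -(k • e + (k • a0 - c • x)) := by
      rw [smul_add, smul_neg, smul_smul, mul_comm, ← smul_smul, he1, smul_add]; abel
    have e2 : c • (-(k • d') + y) = -(k • e' + (k • a0' - c • y)) := by
      rw [smul_add, smul_neg, smul_smul, mul_comm, ← smul_smul, hd', smul_add]; abel
    rw [e1, e2]
    exact h2.neg.iff

/-- the step where the class of the new element is an old one -/
theorem PI.ratStep (h : PI S u v Γ) {e b : V} {e' b' : W} {ρ : ℝ} (hb : (b, b') ∈ Γ)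
    (hbp : 0 < b) (h1 : Ratio e b ρ) (h2 : Ratio e' b' ρ) {k : ℕ} (hk : 0 < k) {x : V} {y : W}
    (hxy : (x, y) ∈ Γ) (hBO : EIP.BO b (k • e + x)) (hpos : 0 < k • e + x) : 0 < k • e' + y := by
  by_contra hcon
  rw [not_lt] at hcon
  obtain ⟨n, hn⟩ := hBO
  rw [abs_of_pos hbp, abs_of_pos hpos] at hn
  have hn0 : 0 < n := by
    rcases Nat.eq_zero_or_pos n with h0 | h0
    · rw [h0, zero_smul] at hn
      exact absurd hn (not_le.2 hbp)
    · exact h0
  have hnk : (0 : ℝ) < n * k := by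
    have h3 : (0 : ℝ) < n := by exact_mod_cast hn0
    have h4 : (0 : ℝ) < k := by exact_mod_cast hk
    positivity
  obtain ⟨q, hq1, hq2⟩ := exists_rat_btwn (show ρ - 1 / (n * k) < ρ by
    have : 0 < 1 / ((n : ℝ) * k) := by positivity
    linarith)
  have hqd : (0 : ℝ) < q.den := by exact_mod_cast q.den_pos
  have hq3 : (q : ℝ) = q.num / q.den := by
    exact_mod_cast (Rat.num_div_den q).symm
  have h3 : q.num • b' < q.den • e' := by
    refine (h2 q.num q.den q.den_pos).1 ?_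
    rw [hq3, div_lt_iff₀ hqd] at hq2
    linarith
  -- `q.den • y + (k * q.num) • b' < 0`
  have h4 : q.den • y + ((k : ℤ) * q.num) • b' < 0 := by
    have h5 : k • (q.num • b') < k • (q.den • e') := nsmul_lt_nsmul_right hk.ne' h3
    have h6 : q.den • (k • e' + y) ≤ 0 := nsmul_nonpos hcon _
    rw [smul_add, smul_smul, mul_comm, ← smul_smul] at h6
    have h7 : ((k : ℤ) * q.num) • b' = k • (q.num • b') := by
      rw [← natCast_zsmul, smul_smul]
    rw [h7]
    calc q.den • y + k • (q.num • b') < q.den • y + k • (q.den • e') :=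
          add_lt_add_of_le_of_lt le_rfl h5
      _ = k • (q.den • e') + q.den • y := add_comm _ _
      _ ≤ 0 := h6
  have h5 : q.den • x + ((k : ℤ) * q.num) • b < 0 := by
    rw [h.neg_mk (y := q.den • y + ((k : ℤ) * q.num) • b')]
    · exact h4
    · exact Γ.add_mem (Γ.nsmul_mem hxy _) (Γ.smul_mem _ hb)
  -- `(q.den + n k q.num) b < (n k q.den) e`
  have h6 : ((q.den : ℤ) + n * k * q.num) • b < (n * k * q.den) • e := by
    have h7 : q.den • b ≤ q.den • (n • (k • e + x)) := nsmul_le_nsmul_right hn _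
    have h8 : n • (q.den • x + ((k : ℤ) * q.num) • b) < 0 := by
      have := nsmul_lt_nsmul_right hn0.ne' h5
      rwa [smul_zero] at this
    have e1 : ((q.den : ℤ) + n * k * q.num) • b = q.den • b + n • (((k : ℤ) * q.num) • b) := by
      rw [add_smul, natCast_zsmul, mul_assoc, ← smul_smul, natCast_zsmul]
    have e2 : q.den • (n • (k • e + x)) = (n * k * q.den) • e + n • (q.den • x) := by
      rw [smul_add, smul_add, smul_smul, smul_smul, smul_smul, smul_smul]
      congr 2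
      · ring
      · ring
    rw [e1]
    calc q.den • b + n • (((k : ℤ) * q.num) • b)
        ≤ q.den • (n • (k • e + x)) + n • (((k : ℤ) * q.num) • b) := add_le_add h7 le_rfl
      _ = (n * k * q.den) • e + n • (q.den • x + ((k : ℤ) * q.num) • b) := by
          rw [e2, smul_add, add_assoc]
      _ < (n * k * q.den) • e + 0 := add_lt_add_of_le_of_lt le_rfl h8
      _ = (n * k * q.den) • e := add_zero _
  have h7 := (h1 ((q.den : ℤ) + n * k * q.num) (n * k * q.den)
    (Nat.mul_pos (Nat.mul_pos hn0 hk) q.den_pos)).2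
  have h8 : ¬ ((n * k * q.den : ℕ) : ℝ) * ρ < (((q.den : ℤ) + n * k * q.num : ℤ) : ℝ) :=
    fun h9 => absurd (h7 h9) (not_lt.2 h6.le)
  apply h8
  push_cast
  rw [hq3] at hq1
  have h9 : ρ * (n * k) - 1 < q.num / q.den * (n * k) := by
    have := mul_lt_mul_of_pos_right hq1 hnk
    rwa [sub_mul, div_mul_cancel₀ _ hnk.ne'] at this
  have h10 : (ρ * (n * k) - 1) * q.den < q.num * (n * k) := by
    have := mul_lt_mul_of_pos_right h9 hqd
    rwa [div_mul_eq_mul_div, div_mul_cancel₀ _ hqd.ne'] at this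
  nlinarith

theorem BO_of_ratio {x b : V} {ρ : ℝ} (hb : 0 < b) (h : Ratio x b ρ) : EIP.BO x b := by
  obtain ⟨N, hN⟩ := exists_nat_gt |ρ|
  refine ⟨N, ?_⟩
  rw [abs_of_pos hb, abs_le]
  have h1 := (h N 1 one_pos).2 (by
    have := le_abs_self ρ
    push_cast; linarith)
  have h2 := (h (-N) 1 one_pos).1 (by
    have := neg_abs_le ρ
    push_cast; linarith)
  rw [one_smul, natCast_zsmul] at h1
  rw [one_smul, neg_smul, natCast_zsmul] at h2
  exact ⟨h2.le, h1.le⟩

theorem BO_of_ratio' {x b : V} {ρ : ℝ} (hb : 0 < b) (h : Ratio x b ρ) (hρ : ρ ≠ 0) :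
    EIP.BO b x := by
  obtain ⟨n, hn⟩ := exists_nat_gt (1 / |ρ|)
  have hρ' : 0 < |ρ| := abs_pos.2 hρ
  rw [div_lt_iff₀ hρ'] at hn
  have hn0 : 0 < n := by
    rcases Nat.eq_zero_or_pos n with h0 | h0
    · rw [h0] at hn; norm_num at hn
    · exact h0
  refine ⟨n, ?_⟩
  rw [abs_of_pos hb, ← abs_nsmul]
  rcases lt_or_gt_of_ne hρ with h1 | h1
  · rw [abs_of_neg h1] at hn
    have := (h (-1) n hn0).2 (by push_cast; linarith)
    rw [neg_smul, one_smul] at this
    exact (le_neg_of_le_neg this.le).trans (neg_le_abs _)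
  · rw [abs_of_pos h1] at hn
    have := (h 1 n hn0).1 (by push_cast; linarith)
    rw [one_smul] at this
    exact this.le.trans (le_abs_self _)

theorem Ratio.add_small {x b δ : V} {ρ : ℝ} (hb : 0 < b) (h : Ratio x b ρ)
    (hδ : ¬ EIP.BO b δ) : Ratio (x + δ) b ρ := by
  have hδ' : ∀ δ' : V, |δ'| = |δ| → ∀ n : ℕ, n • |δ'| < b := by
    intro δ' h1 n
    have := not_BO.1 hδ n
    rwa [abs_of_pos hb, ← h1] at this
  have key : ∀ (x δ : V) (ρ : ℝ), Ratio x b ρ → (∀ n : ℕ, n • |δ| < b) →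
      ∀ (u : ℤ) (n : ℕ), 0 < n → (u : ℝ) < n * ρ → u • b < n • (x + δ) := by
    intro x δ ρ h hδ u n hn h1
    obtain ⟨m, hm⟩ := exists_nat_gt (1 / (n * ρ - u))
    have h2 : 0 < n * ρ - u := by linarith
    rw [div_lt_iff₀ h2] at hm
    have hm0 : 0 < m := by
      rcases Nat.eq_zero_or_pos m with h0 | h0
      · rw [h0] at hm; norm_num at hm
      · exact h0
    have h3 := (h (m * u + 1) (m * n) (Nat.mul_pos hm0 hn)).1 (by push_cast; linarith)
    apply lt_of_nsmul (n := m)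
    have h4 := hδ (m * n)
    have h5 : -((m * n) • |δ|) ≤ (m * n) • δ := by
      rw [← smul_neg]
      exact nsmul_le_nsmul_right (neg_abs_le δ) _
    have e1 : m • (u • b) = ((m : ℤ) * u + 1) • b - b := by
      rw [add_smul, one_smul, ← natCast_zsmul, smul_smul]; abel
    have e2 : m • (n • (x + δ)) = (m * n) • x + (m * n) • δ := by
      rw [smul_smul, smul_add]
    rw [e1, e2]
    calc ((m : ℤ) * u + 1) • b - b < (m * n) • x - b := sub_lt_sub_right h3 b
      _ ≤ (m * n) • x - (m * n) • |δ| := sub_le_sub_left h4.le _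
      _ = (m * n) • x + -((m * n) • |δ|) := sub_eq_add_neg _ _
      _ ≤ (m * n) • x + (m * n) • δ := add_le_add le_rfl h5
  intro u n hn
  refine ⟨key x δ ρ h (hδ' δ rfl) u n hn, fun h1 => ?_⟩
  have h2 := key (-x) (-δ) (-ρ) h.neg (hδ' (-δ) (abs_neg δ)) (-u) n hn (by push_cast; linarith)
  rw [neg_smul, ← neg_add, smul_neg] at h2
  exact neg_lt_neg_iff.1 h2

theorem near {w w0 : V} (h0 : 0 < w0) (h : ¬ EIP.BO w0 (w - w0)) :
    0 < w ∧ EIP.BO w w0 ∧ EIP.BO w0 w := by
  have h2 := not_BO.1 h 2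
  rw [abs_of_pos h0, two_smul] at h2
  have h3 : -|w - w0| ≤ w - w0 := neg_abs_le _
  have h4 : w - w0 ≤ |w - w0| := le_abs_self _
  have h5 : 0 ≤ |w - w0| := abs_nonneg _
  have hw : w0 - |w - w0| ≤ w := by
    have := add_le_add_left h3 w0
    rw [add_comm, sub_add_cancel] at this
    rwa [sub_eq_add_neg]
  have h6 : |w - w0| < w := by
    refine lt_of_lt_of_le ?_ hw
    exact lt_sub_iff_add_lt.2 h2
  have hpos : 0 < w := lt_of_le_of_lt h5 h6
  refine ⟨hpos, ⟨2, ?_⟩, ⟨2, ?_⟩⟩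
  · rw [abs_of_pos h0, abs_of_pos hpos, two_smul]
    have h7 : |w - w0| ≤ w0 := by
      refine le_trans ?_ h2.le
      exact le_add_of_nonneg_left h5
    calc w = w0 + (w - w0) := by abel
      _ ≤ w0 + w0 := add_le_add le_rfl (h4.trans h7)
  · rw [abs_of_pos h0, abs_of_pos hpos, two_smul]
    calc w0 ≤ w + |w - w0| := by
          have := sub_le_iff_le_add.1 hw
          exact this
      _ ≤ w + w := add_le_add le_rfl h6.le

theorem Half.w0_conv (hH : Half S V0 W0 u v) {x : V} (hx : x ∈ V0) {y : V} (h : EIP.BO y x) :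
    y ∈ V0 := by
  obtain ⟨n, hn⟩ := h
  refine hH.conv y (n • x) (V0.nsmul_mem hx n) ?_
  rw [abs_nsmul]
  exact hn

theorem PI.forth (hH : Half S V0 W0 u v) (h : PI S u v Γ) (d : V) :
    ∃ Γ' : Submodule ℤ (V × W), Γ ≤ Γ' ∧ PI S u v Γ' ∧ ∃ d', (d, d') ∈ Γ' := by
  obtain ⟨A, hA⟩ : ∃ A : Submodule ℤ V, A = Γ.map (LinearMap.fst ℤ V W) := ⟨_, rfl⟩
  have hAfg : A.FG := by rw [hA]; exact h.fg.map _
  have mA : ∀ a, a ∈ A ↔ ∃ a', (a, a') ∈ Γ := by
    intro a
    rw [hA, Submodule.mem_map]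
    constructor
    · rintro ⟨⟨x, y⟩, hxy, rfl⟩
      exact ⟨y, hxy⟩
    · rintro ⟨a', h'⟩
      exact ⟨(a, a'), h', rfl⟩
  have huA : u ∈ A := (mA u).2 ⟨v, h.base⟩
  by_cases hc1 : ∃ n : ℕ, 0 < n ∧ n • d ∈ A
  · obtain ⟨n, hn, hnd⟩ := hc1
    obtain ⟨y', hy'⟩ := (mA _).1 hnd
    obtain ⟨d', hd', hS⟩ := hH.div n hn d y' (h.le hy')
    refine h.extend hS ?_
    intro j _ x y hxy
    rw [← pos_nsmul_iff hn, ← pos_nsmul_iff (x := (j • d' + y)) hn]
    have e1 : n • (j • d + x) = j • (n • d) + n • x := by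
      rw [smul_add, smul_comm]
    have e2 : n • (j • d' + y) = j • (n • d') + n • y := by
      rw [smul_add, smul_comm]
    rw [e1, e2, hd']
    exact h.pos_mk (Γ.add_mem (Γ.smul_mem _ hy') (Γ.nsmul_mem hxy n))
  push Not at hc1
  obtain ⟨X0, hX0⟩ : ∃ X0 : Set V, X0 = {x | x ∈ V0 ∧ ∃ c : ℕ, 0 < c ∧ ∃ a ∈ A, x = c • d - a} :=
    ⟨_, rfl⟩
  by_cases hc2 : X0.Nonempty
  swap
  · obtain ⟨d', hd'⟩ := hH.tot d
    refine h.extend hd' ?_
    intro j hj x y hxy
    refine hH.sgn _ _ (S.add_mem (S.smul_mem j hd') (h.le hxy)) ?_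
    intro hmem
    apply hc2
    obtain ⟨k, rfl | rfl⟩ := j.eq_nat_or_neg
    · refine ⟨k • d + x, ?_⟩
      rw [hX0]
      rw [natCast_zsmul] at hmem
      refine ⟨hmem, k, ?_, -x, A.neg_mem ((mA _).2 ⟨y, hxy⟩), by abel⟩
      rcases Nat.eq_zero_or_pos k with h0 | h0
      · simp [h0] at hj
      · exact h0
    · refine ⟨-((-(k : ℤ)) • d + x), ?_⟩
      rw [hX0]
      refine ⟨V0.neg_mem hmem, k, ?_, x, (mA _).2 ⟨y, hxy⟩, ?_⟩
      · rcases Nat.eq_zero_or_pos k with h0 | h0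
        · simp [h0] at hj
        · exact h0
      · rw [neg_smul, natCast_zsmul]; abel
  obtain ⟨e, he0, hmin⟩ := minclass hAfg hc2
  have he0' := he0
  rw [hX0] at he0'
  obtain ⟨heV, c, hc, a0, ha0, he⟩ := he0'
  obtain ⟨a0', ha0'⟩ := (mA _).1 ha0
  -- best approximation
  have BA : ∀ k : ℕ, 0 < k → ∀ a ∈ A, EIP.BO e (k • e + a) := by
    intro k hk a ha
    by_contra hcon
    have h1 : EIP.BO (k • e + a) e := BO.of_not hcon
    have h2 : k • e + a ∈ X0 := by
      rw [hX0]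
      refine ⟨hH.w0_conv heV h1, k * c, Nat.mul_pos hk hc, k • a0 - a,
        A.sub_mem (A.nsmul_mem ha0 k) ha, ?_⟩
      rw [he, smul_sub, mul_smul]; abel
    have h3 : EIP.BO a e := by
      have : a = (k • e + a) - k • e := by abel
      rw [this]
      exact h1.sub ((BO.refl e).nsmul k)
    have h4 := hmin _ h2 h1 a ha h3
    have h5 : EIP.BO (k • e) (k • e + a) := by
      have : k • e = (k • e + a) - a := by abel
      nth_rewrite 1 [this]
      exact (BO.refl _).sub h4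
    exact hcon (BO.of_nsmul hk h5)
  have heu : ¬ EIP.BO e u := by
    intro h1
    obtain ⟨k, hk⟩ := hH.base e h1
    apply hc1 c hc
    have : c • d = k • u + a0 := by rw [← hk, he]; abel
    rw [this]
    exact A.add_mem (A.smul_mem k huA) ha0
  have hne : ∀ k : ℕ, 0 < k → ∀ a ∈ A, k • e + a ≠ 0 := by
    intro k hk a ha h1
    have h2 := BA k hk a ha
    rw [h1] at h2
    have h3 := BO.of_zero h2
    rw [h3] at heu
    exact heu (BO.zero u)
  have hue : EIP.BO u e := BO.of_not heu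
  by_cases hc3 : ∃ b ∈ A, 0 < b ∧ EIP.BO b e ∧ EIP.BO e b
  · -- the class of `e` is an old one
    obtain ⟨b, hbA, hbp, hbe, heb⟩ := hc3
    obtain ⟨b', hb'⟩ := (mA _).1 hbA
    obtain ⟨ρ, hρ⟩ := exists_ratio hbp heb
    have hρ0 : ρ ≠ 0 := by
      rintro rfl
      obtain ⟨n, hn⟩ := hbe
      rw [abs_of_pos hbp] at hn
      have hn0 : 0 < n := by
        rcases Nat.eq_zero_or_pos n with h0 | h0
        · rw [h0, zero_smul] at hn
          exact absurd hn (not_le.2 hbp)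
        · exact h0
      have h1 := (hρ 1 n hn0).2 (by simp)
      have h2 := (hρ (-1) n hn0).1 (by simp)
      rw [one_smul] at h1
      rw [neg_smul, one_smul] at h2
      have h3 : |n • e| < b := abs_lt.2 ⟨h2, h1⟩
      rw [abs_nsmul] at h3
      exact absurd hn (not_le.2 h3)
    have hbV : b ∈ V0 := hH.w0_conv heV hbe
    have hbW : b' ∈ W0 := (hH.sm b b' (h.le hb')).1 hbV
    have hbu : ¬ EIP.BO b u := fun h1 => heu (heb.trans h1)
    have hbv : ¬ EIP.BO b' v := fun h1 => hbu ((h.BO_mk hb' h.base).2 h1)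
    have hbp' : 0 < b' := (h.pos_mk hb').1 hbp
    obtain ⟨e1, he1, hρ1⟩ := hH.rat e heV b hbV hbp hbu ρ hρ0 hρ b' hbW hbp' hbv
    -- adjust the residue
    obtain ⟨e', he'W, hSe, hρ'⟩ : ∃ e' ∈ W0, (e, e') ∈ S ∧ Ratio e' b' ρ := by
      have g1 : EIP.BO e1 b' := BO_of_ratio hbp' hρ1
      have g2 : EIP.BO b' e1 := BO_of_ratio' hbp' hρ1 hρ0
      have key : ∀ w0 ∈ W0, ∀ z ∈ V0, (w0 = e1 ∧ z = e ∨ w0 = -e1 ∧ z = -e) → 0 < w0 →
          ∃ e' ∈ W0, (e, e') ∈ S ∧ Ratio e' b' ρ := by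
        intro w0 hw0 z hz hor hpos
        have g3 : EIP.BO w0 b' := by
          rcases hor with ⟨rfl, _⟩ | ⟨rfl, _⟩
          · exact g1
          · exact g1.neg
        have g4 : EIP.BO b' w0 := by
          rcases hor with ⟨rfl, _⟩ | ⟨rfl, _⟩
          · exact g2
          · exact g2.neg'
        obtain ⟨w, hw, hzw, hww⟩ := hH.res z hz w0 hw0 hpos (fun g5 => hbv (g4.trans g5))
        have g5 : ¬ EIP.BO b' (w - w0) := fun g6 => hww (g3.trans g6)
        rcases hor with ⟨rfl, rfl⟩ | ⟨rfl, rfl⟩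
        · refine ⟨w, hw, hzw, ?_⟩
          have := hρ1.add_small hbp' g5
          rwa [add_sub_cancel] at this
        · refine ⟨-w, W0.neg_mem hw, ?_, ?_⟩
          · have := S.neg_mem hzw
            simpa using this
          · have := hρ1.add_small (δ := -(w - -e1)) hbp' (fun g6 => g5 (by
              have := g6.neg'
              rwa [neg_neg] at this))
            have e3 : e1 + -(w - -e1) = -w := by abel
            rwa [e3] at this
      have hne1 : e1 ≠ 0 := by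
        rintro rfl
        exact hbp'.ne' g2.of_zero
      rcases lt_or_gt_of_ne hne1 with g3 | g3
      · exact key (-e1) (W0.neg_mem he1) (-e) (V0.neg_mem heV) (Or.inr ⟨rfl, rfl⟩) (neg_pos.2 g3)
      · exact key e1 he1 e heV (Or.inl ⟨rfl, rfl⟩) g3
    refine h.finish hH hc ha0' he hSe ?_
    intro k hk x y hxy
    have hxA : x ∈ A := (mA x).2 ⟨y, hxy⟩
    rcases lt_trichotomy 0 (k • e + x) with h1 | h1 | h1
    · exact Or.inl ⟨h1, h.ratStep hb' hbp hρ hρ' hk hxy (hbe.trans (BA k hk x hxA)) h1⟩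
    · exact absurd h1.symm (hne k hk x hxA)
    · refine Or.inr ⟨h1, ?_⟩
      have h2 := h.ratStep (e := -e) (e' := -e') (x := -x) (y := -y) hb' hbp hρ.neg hρ'.neg hk
        (Γ.neg_mem hxy) (by
          have := hbe.trans (BA k hk x hxA)
          have e3 : k • -e + -x = -(k • e + x) := by rw [smul_neg]; abel
          rw [e3]
          exact this.neg') (by
          have e3 : k • -e + -x = -(k • e + x) := by rw [smul_neg]; abel
          rw [e3]
          exact neg_pos.2 h1)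
      have e3 : k • -e' + -y = -(k • e' + y) := by rw [smul_neg]; abel
      rw [e3] at h2
      exact neg_pos.1 h2
  · push Not at hc3
    -- a new class
    have hNfg : (A ⊓ Bs e).FG := by
      have hfin : Module.Finite ℤ A := Module.Finite.iff_fg.2 hAfg
      have := isNoetherian_submodule (N := A) |>.1 inferInstance
      exact this _ inf_le_left
    obtain ⟨lo, ⟨hloA, hloe⟩, hlo⟩ := maxclass hNfg
    rw [SetLike.mem_coe, mem_Bs] at hloe
    have hlo' : ∀ a ∈ A, EIP.BO a e → EIP.BO a lo := fun a ha h1 => hlo a ⟨ha, h1⟩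
    have hene : e ≠ 0 := by
      rintro rfl
      exact heu (BO.zero u)
    have helo : ¬ EIP.BO e lo := by
      intro h1
      have h2 : lo ≠ 0 := by
        rintro rfl
        exact hene h1.of_zero
      have h3 : |lo| ∈ A := by
        rcases abs_choice lo with h4 | h4 <;> rw [h4]
        · exact hloA
        · exact A.neg_mem hloA
      exact hc3 |lo| h3 (abs_pos.2 h2) hloe.abs_left h1.abs_right
    obtain ⟨lo', hΓlo⟩ := (mA lo).1 hloA
    have hloW : lo' ∈ W0 := (hH.sm _ _ (h.le hΓlo)).1 (hH.w0_conv heV hloe)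
    have hvlo : EIP.BO v lo' := (h.BO_mk h.base hΓlo).1 (hlo' u huA hue)
    -- the value
    obtain ⟨w0, hw0W, hw0p, hw0lo, hw0hi⟩ : ∃ w0 ∈ W0, 0 < w0 ∧ ¬ EIP.BO w0 lo' ∧
        ∀ x y, (x, y) ∈ Γ → x ∈ V0 → ¬ EIP.BO x e → ¬ EIP.BO y w0 := by
      by_cases hX1 : ({a | a ∈ A ∧ a ∈ V0 ∧ ¬ EIP.BO a e} : Set V).Nonempty
      · obtain ⟨hi, ⟨hiA, hiV, hie⟩, hhi⟩ := minclass hAfg hX1
        obtain ⟨hi', hΓhi⟩ := (mA hi).1 hiA
        have hiW : hi' ∈ W0 := (hH.sm _ _ (h.le hΓhi)).1 hiV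
        have h1 : ¬ EIP.BO hi' lo' := fun h1 =>
          hie (((h.BO_mk hΓhi hΓlo).2 h1).trans hloe)
        obtain ⟨w0, g1, g2, g3, g4⟩ := hH.mid lo' hloW hi' hiW hvlo h1
        refine ⟨w0, g1, g2, g3, fun x y hxy hxV hxe g5 => g4 ?_⟩
        have hxA : x ∈ A := (mA x).2 ⟨y, hxy⟩
        have g6 : EIP.BO hi x := by
          rcases BO.total hi x with g6 | g6
          · exact g6
          · exact hhi x ⟨hxA, hxV, hxe⟩ g6 hi hiA (BO.refl hi)
        exact ((h.BO_mk hΓhi hxy).1 g6).trans g5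
      · obtain ⟨w0, g1, g2, g3⟩ := hH.top lo' hloW
        refine ⟨w0, g1, g2, g3, fun x y hxy hxV hxe _ => hX1 ?_⟩
        exact ⟨x, (mA x).2 ⟨y, hxy⟩, hxV, hxe⟩
    have hw0v : ¬ EIP.BO w0 v := fun h1 => hw0lo (h1.trans hvlo)
    obtain ⟨e1, he1⟩ : ∃ e1, e1 = |e| := ⟨_, rfl⟩
    have he1V : e1 ∈ V0 := by
      rw [he1]
      rcases abs_choice e with h4 | h4 <;> rw [h4]
      · exact heV
      · exact V0.neg_mem heV
    have he1p : 0 < e1 := by rw [he1]; exact abs_pos.2 hene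
    obtain ⟨w, hwW, hSw, hww0⟩ := hH.res e1 he1V w0 hw0W hw0p hw0v
    obtain ⟨hwp, hww1, hww2⟩ := near hw0p hww0
    have G : ∀ k : ℕ, 0 < k → ∀ x y, (x, y) ∈ Γ → Sg (k • e1 + x) (k • w + y) := by
      intro k hk x y hxy
      have hxA : x ∈ A := (mA x).2 ⟨y, hxy⟩
      by_cases hxe : EIP.BO x e
      · have g1 := hlo' x hxA hxe
        have g2 := (h.BO_mk hxy hΓlo).1 g1
        have g3 : |x| < e1 := by
          rw [he1]
          exact lt_of_not_BO (fun g4 => helo (g4.trans g1))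
        have g4 : |y| < w := by
          have : |y| < |w| := lt_of_not_BO (fun g4 => hw0lo (hww2.trans (g4.trans g2)))
          rwa [abs_of_pos hwp] at this
        have g5 : e1 ≤ k • e1 := le_nsmul_self he1p.le hk
        have g6 : w ≤ k • w := le_nsmul_self hwp.le hk
        refine Or.inl ⟨?_, ?_⟩
        · have := neg_abs_le x
          calc 0 < e1 - |x| := sub_pos.2 g3
            _ = e1 + -|x| := sub_eq_add_neg _ _
            _ ≤ k • e1 + x := add_le_add g5 this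
        · have := neg_abs_le y
          calc 0 < w - |y| := sub_pos.2 g4
            _ = w + -|y| := sub_eq_add_neg _ _
            _ ≤ k • w + y := add_le_add g6 this
      · by_cases hxV : x ∈ V0
        · have g1 := hw0hi x y hxy hxV hxe
          have g2 : k • e1 < |x| := by
            have : |k • e1| < |x| := by
              refine lt_of_not_BO (fun g3 => hxe ?_)
              refine g3.trans (BO.nsmul ?_ k)
              rw [he1]
              exact (BO.refl e).abs_left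
            rwa [abs_nsmul, abs_of_pos he1p] at this
          have g3 : k • w < |y| := by
            have : |k • w| < |y| :=
              lt_of_not_BO (fun g3 => g1 (g3.trans ((BO.nsmul hww1 k))))
            rwa [abs_nsmul, abs_of_pos hwp] at this
          have g4 : 0 ≤ k • e1 := nsmul_nonneg he1p.le k
          have g5 : 0 ≤ k • w := nsmul_nonneg hwp.le k
          rcases lt_trichotomy 0 x with g6 | g6 | g6
          · exact Or.inl ⟨add_pos_of_nonneg_of_pos g4 g6,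
              add_pos_of_nonneg_of_pos g5 ((h.pos_mk hxy).1 g6)⟩
          · exfalso
            apply hxe
            rw [← g6]
            exact BO.zero e
          · have g7 := (h.neg_mk hxy).1 g6
            rw [abs_of_neg g6] at g2
            rw [abs_of_neg g7] at g3
            exact Or.inr ⟨lt_neg_iff_add_neg.1 g2, lt_neg_iff_add_neg.1 g3⟩
        · have g1 : k • e1 + x ∉ V0 := by
            intro g2
            apply hxV
            have : x = (k • e1 + x) - k • e1 := by abel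
            rw [this]
            exact V0.sub_mem g2 (V0.nsmul_mem he1V k)
          have g2 : (k • e1 + x, k • w + y) ∈ S := S.add_mem (S.nsmul_mem hSw k) (h.le hxy)
          rcases lt_trichotomy 0 (k • e1 + x) with g3 | g3 | g3
          · exact Or.inl ⟨g3, (hH.sgn _ _ g2 g1).1 g3⟩
          · exfalso
            apply g1
            rw [← g3]
            exact V0.zero_mem
          · refine Or.inr ⟨g3, ?_⟩
            have g4 := S.neg_mem g2
            have g5 := (hH.sgn (-(k • e1 + x)) (-(k • w + y)) g4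
              (fun g5 => g1 (neg_mem_iff.1 g5))).1 (neg_pos.2 g3)
            exact neg_pos.1 g5
    rcases abs_choice e with h4 | h4
    · rw [h4] at he1
      subst he1
      exact h.finish hH hc ha0' he hSw G
    · rw [h4] at he1
      have he2 : e = -e1 := by rw [he1, neg_neg]
      have hSw' : (e, -w) ∈ S := by
        rw [he2]
        exact S.neg_mem hSw
      refine h.finish hH hc ha0' he hSw' ?_
      intro k hk x y hxy
      have g1 := (G k hk (-x) (-y) (Γ.neg_mem hxy)).neg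
      have e3 : -(k • e1 + -x) = k • e + x := by rw [he2, smul_neg]; abel
      have e4 : -(k • w + -y) = k • -w + y := by rw [smul_neg]; abel
      rwa [e3, e4] at g1

end

end Pool.Agent.W894.EIP
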