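import Pool.Agent.W894.EIP.BF

/-!
Back and forth between countable ordered abelian groups: the isomorphism.
-/

set_option autoImplicit false
set_option linter.unusedSectionVars false

namespace Pool.Agent.W894.EIP

section

variable {V W : Type*} [AddCommGroup V] [LinearOrder V] [IsOrderedAddMonoid V]
  [AddCommGroup W] [LinearOrder W] [IsOrderedAddMonoid W]
  {S : Submodule ℤ (V × W)} {V0 : AddSubgroup V} {W0 : AddSubgroup W} {u : V} {v : W}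
  {Γ : Submodule ℤ (V × W)}

/-- exchange of the factors -/
def sw (S : Submodule ℤ (V × W)) : Submodule ℤ (W × V) :=
  S.map (LinearEquiv.prodComm ℤ V W).toLinearMap

theorem mem_sw {x : V} {y : W} : (y, x) ∈ sw S ↔ (x, y) ∈ S := by
  unfold sw
  rw [Submodule.mem_map]
  constructor
  · rintro ⟨⟨a, b⟩, h, h'⟩
    have h1 : (b, a) = (y, x) := h'
    rw [Prod.mk.injEq] at h1
    rw [← h1.1, ← h1.2]
    exact h
  · intro h
    exact ⟨(x, y), h, rfl⟩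

theorem sw_sw : sw (sw S) = S := by
  ext ⟨x, y⟩
  rw [mem_sw, mem_sw]

theorem PI.swap (h : PI S u v Γ) : PI (sw S) v u (sw Γ) where
  le := Submodule.map_mono h.le
  fg := h.fg.map _
  base := mem_sw.2 h.base
  pos := by
    rintro ⟨y, x⟩ hp
    exact (h.pos _ (mem_sw.1 hp)).symm

theorem PI.back (hH : Half (sw S) W0 V0 v u) (h : PI S u v Γ) (d : W) :
    ∃ Γ' : Submodule ℤ (V × W), Γ ≤ Γ' ∧ PI S u v Γ' ∧ ∃ d', (d', d) ∈ Γ' := by
  obtain ⟨Γ', h1, h2, d', h3⟩ := h.swap.forth hH d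
  refine ⟨sw Γ', ?_, ?_, d', mem_sw.2 h3⟩
  · have := Submodule.map_mono (f := (LinearEquiv.prodComm ℤ W V).toLinearMap) h1
    have e : sw (sw Γ) ≤ sw Γ' := this
    rwa [sw_sw] at e
  · have := h2.swap
    rwa [sw_sw] at this

theorem PI.init (hS : (u, v) ∈ S) (hu : 0 ≤ u) (hv : 0 ≤ v) (huv : 0 < u ↔ 0 < v) :
    PI S u v (Submodule.span ℤ {(u, v)}) where
  le := by
    rw [Submodule.span_singleton_le_iff_mem]
    exact hS
  fg := Submodule.fg_span_singleton _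
  base := Submodule.mem_span_singleton_self _
  pos := by
    intro p hp
    rw [Submodule.mem_span_singleton] at hp
    obtain ⟨j, rfl⟩ := hp
    change 0 < j • u ↔ 0 < j • v
    rcases hu.eq_or_lt with h | h
    · have h1 : v = 0 := by
        by_contra hc
        have := huv.2 (lt_of_le_of_ne hv (Ne.symm hc))
        rw [← h] at this
        exact lt_irrefl _ this
      rw [← h, h1]; simp
    · have h1 := huv.1 h
      have h2 := zsmul_lt_zsmul_iff_left h (m := 0) (n := j)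
      have h3 := zsmul_lt_zsmul_iff_left h1 (m := 0) (n := j)
      rw [zero_smul] at h2 h3
      rw [h2, h3]

/-- **Back and forth.** General starting point. -/
theorem bfp [Countable V] [Countable W] (h1 : Half S V0 W0 u v) (h2 : Half (sw S) W0 V0 v u)
    {Γ0 : Submodule ℤ (V × W)} (h0 : PI S u v Γ0) :
    ∃ f : V ≃+ W, StrictMono f ∧ (∀ x, (x, f x) ∈ S) ∧ ∀ p ∈ Γ0, f p.1 = p.2 := by
  classical
  let P := {Γ : Submodule ℤ (V × W) // PI S u v Γ}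
  let _ : Encodable (V ⊕ W) := Encodable.ofCountable _
  let F : V ⊕ W → Order.Cofinal P := fun i => match i with
    | Sum.inl x => ⟨{Γ : P | ∃ y, (x, y) ∈ Γ.1}, fun Γ => by
        obtain ⟨Γ', g1, g2, g3⟩ := Γ.2.forth h1 x
        exact ⟨⟨Γ', g2⟩, g3, g1⟩⟩
    | Sum.inr y => ⟨{Γ : P | ∃ x, (x, y) ∈ Γ.1}, fun Γ => by
        obtain ⟨Γ', g1, g2, g3⟩ := Γ.2.back h2 y
        exact ⟨⟨Γ', g2⟩, g3, g1⟩⟩
  let I : Order.Ideal P := Order.idealOfCofinals ⟨Γ0, h0⟩ F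
  have hL : ∀ x : V, ∃ y, ∃ Γ ∈ I, (x, y) ∈ Γ.1 := by
    intro x
    obtain ⟨Γ, g1, g2⟩ := Order.cofinal_meets_idealOfCofinals ⟨Γ0, h0⟩ F (Sum.inl x)
    obtain ⟨y, hy⟩ := g1
    exact ⟨y, Γ, g2, hy⟩
  have hR : ∀ y : W, ∃ x, ∃ Γ ∈ I, (x, y) ∈ Γ.1 := by
    intro y
    obtain ⟨Γ, g1, g2⟩ := Order.cofinal_meets_idealOfCofinals ⟨Γ0, h0⟩ F (Sum.inr y)
    obtain ⟨x, hx⟩ := g1
    exact ⟨x, Γ, g2, hx⟩
  have hdir : ∀ p q : V × W, (∃ Γ ∈ I, p ∈ Γ.1) → (∃ Γ ∈ I, q ∈ Γ.1) → ∃ Γ ∈ I, p ∈ Γ.1 ∧ q ∈ Γ.1 := by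
    rintro p q ⟨Γ1, g1, g2⟩ ⟨Γ2, g3, g4⟩
    obtain ⟨Γ3, g5, g6, g7⟩ := I.directed Γ1 g1 Γ2 g3
    exact ⟨Γ3, g5, g6 g2, g7 g4⟩
  have hbase : ∀ p ∈ Γ0, ∃ Γ ∈ I, p ∈ Γ.1 := fun p hp =>
    ⟨⟨Γ0, h0⟩, Order.mem_idealOfCofinals _ F, hp⟩
  choose f hf using hL
  choose g hg using hR
  have huniq : ∀ x y y', (∃ Γ ∈ I, (x, y) ∈ Γ.1) → (∃ Γ ∈ I, (x, y') ∈ Γ.1) → y = y' := by
    intro x y y' g1 g2
    obtain ⟨Γ, g3, g4, g5⟩ := hdir _ _ g1 g2
    have g6 := Γ.1.sub_mem g4 g5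
    rw [Prod.mk_sub_mk, sub_self] at g6
    rcases lt_trichotomy 0 (y - y') with g7 | g7 | g7
    · have := (Γ.2.pos_mk g6).2 g7
      exact absurd this (lt_irrefl _)
    · exact sub_eq_zero.1 g7.symm
    · have := (Γ.2.neg_mk g6).2 g7
      exact absurd this (lt_irrefl _)
  have huniq' : ∀ x x' y, (∃ Γ ∈ I, (x, y) ∈ Γ.1) → (∃ Γ ∈ I, (x', y) ∈ Γ.1) → x = x' := by
    intro x x' y g1 g2
    obtain ⟨Γ, g3, g4, g5⟩ := hdir _ _ g1 g2
    have g6 := Γ.1.sub_mem g4 g5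
    rw [Prod.mk_sub_mk, sub_self] at g6
    rcases lt_trichotomy 0 (x - x') with g7 | g7 | g7
    · have := (Γ.2.pos_mk g6).1 g7
      exact absurd this (lt_irrefl _)
    · exact sub_eq_zero.1 g7.symm
    · have := (Γ.2.neg_mk g6).1 g7
      exact absurd this (lt_irrefl _)
  have hadd : ∀ x y, f (x + y) = f x + f y := by
    intro x y
    obtain ⟨Γ, g3, g4, g5⟩ := hdir _ _ (hf x) (hf y)
    exact huniq (x + y) _ _ (hf (x + y)) ⟨Γ, g3, Γ.1.add_mem g4 g5⟩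
  refine ⟨{ toFun := f, invFun := g, left_inv := fun x => ?_, right_inv := fun y => ?_,
            map_add' := hadd }, ?_, fun x => ?_, fun p hp => ?_⟩
  · exact huniq' _ _ _ (hg (f x)) (hf x)
  · exact huniq _ _ _ (hf (g y)) (hg y)
  · intro x y hxy
    change f x < f y
    obtain ⟨Γ, g3, g4, g5⟩ := hdir _ _ (hf x) (hf y)
    have g6 := Γ.1.sub_mem g5 g4
    have g7 := (Γ.2.pos_mk g6).1 (sub_pos.2 hxy)
    exact sub_pos.1 g7
  · obtain ⟨Γ, g3, g4⟩ := hf x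
    exact Γ.2.le g4
  · exact huniq _ _ _ (hf p.1) (hbase p hp)

/-- **Back and forth.** -/
theorem bf [Countable V] [Countable W] (h1 : Half S V0 W0 u v) (h2 : Half (sw S) W0 V0 v u)
    (hS : (u, v) ∈ S) (hu : 0 ≤ u) (hv : 0 ≤ v) (huv : 0 < u ↔ 0 < v) :
    ∃ f : V ≃+ W, StrictMono f ∧ (∀ x, (x, f x) ∈ S) ∧ f u = v := by
  obtain ⟨f, g1, g2, g3⟩ := bfp h1 h2 (PI.init hS hu hv huv)
  exact ⟨f, g1, g2, g3 (u, v) (Submodule.mem_span_singleton_self _)⟩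

end

end Pool.Agent.W894.EIP
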