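import Mathlib

/-!
Linearly ordered abelian groups: the relation `x = O(y)`, ratios, classes in finitely generated
subgroups.
-/

set_option autoImplicit false
set_option linter.unusedSectionVars false
set_option linter.style.haveILetI false

namespace Pool.Agent.W894.EIP

variable {V : Type*} [AddCommGroup V] [LinearOrder V] [IsOrderedAddMonoid V]

/-- `x = O(y)` -/
def BO (x y : V) : Prop := ∃ n : ℕ, |x| ≤ n • |y|

theorem BO.refl (x : V) : BO x x := ⟨1, by simp⟩

theorem BO.trans {x y z : V} (h : BO x y) (h' : BO y z) : BO x z := by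
  obtain ⟨n, hn⟩ := h
  obtain ⟨m, hm⟩ := h'
  refine ⟨n * m, hn.trans ?_⟩
  rw [mul_smul]
  exact nsmul_le_nsmul_right hm n

theorem BO.add {x y z : V} (hx : BO x z) (hy : BO y z) : BO (x + y) z := by
  obtain ⟨n, hn⟩ := hx
  obtain ⟨m, hm⟩ := hy
  refine ⟨n + m, (abs_add_le x y).trans ?_⟩
  rw [add_smul]
  exact add_le_add hn hm

theorem BO.neg {x y : V} (h : BO x y) : BO (-x) y := by
  obtain ⟨n, hn⟩ := h
  exact ⟨n, by rwa [abs_neg]⟩

theorem BO.neg' {x y : V} (h : BO x y) : BO x (-y) := by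
  obtain ⟨n, hn⟩ := h
  exact ⟨n, by rwa [abs_neg]⟩

theorem BO.sub {x y z : V} (hx : BO x z) (hy : BO y z) : BO (x - y) z := by
  rw [sub_eq_add_neg]
  exact hx.add hy.neg

theorem BO.zero (y : V) : BO 0 y := ⟨0, by simp⟩

theorem BO.nsmul {x y : V} (h : BO x y) (k : ℕ) : BO (k • x) y := by
  induction k with
  | zero => rw [zero_smul]; exact BO.zero y
  | succ k ih => rw [add_smul, one_smul]; exact ih.add h

theorem BO.zsmul {x y : V} (h : BO x y) (k : ℤ) : BO (k • x) y := by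
  obtain ⟨n, rfl | rfl⟩ := k.eq_nat_or_neg
  · rw [natCast_zsmul]; exact h.nsmul n
  · rw [neg_smul, natCast_zsmul]; exact (h.nsmul n).neg

theorem le_nsmul_self {x : V} (hx : 0 ≤ x) {k : ℕ} (hk : 0 < k) : x ≤ k • x := by
  obtain ⟨m, rfl⟩ := Nat.exists_eq_add_of_lt hk
  rw [zero_add, add_smul, one_smul]
  have : 0 ≤ m • x := nsmul_nonneg hx m
  exact le_add_of_nonneg_left this

theorem abs_nsmul' (k : ℕ) (x : V) : |k • x| = k • |x| := by
  rw [abs_nsmul]

theorem BO.of_nsmul {x y : V} {k : ℕ} (hk : 0 < k) (h : BO (k • x) y) : BO x y := by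
  obtain ⟨n, hn⟩ := h
  refine ⟨n, le_trans ?_ hn⟩
  rw [abs_nsmul]
  exact le_nsmul_self (abs_nonneg x) hk

theorem BO.of_zsmul {x y : V} {k : ℤ} (hk : k ≠ 0) (h : BO (k • x) y) : BO x y := by
  obtain ⟨n, rfl | rfl⟩ := k.eq_nat_or_neg
  · rw [natCast_zsmul] at h
    exact BO.of_nsmul (by omega) h
  · rw [neg_smul, natCast_zsmul] at h
    have := h.neg
    rw [neg_neg] at this
    exact BO.of_nsmul (by omega) this

theorem BO.of_abs_le {x y : V} (h : |x| ≤ |y|) : BO x y := ⟨1, by simpa using h⟩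

theorem BO.total (x y : V) : BO x y ∨ BO y x :=
  (le_total |x| |y|).imp BO.of_abs_le BO.of_abs_le

theorem not_BO {x y : V} : ¬ BO x y ↔ ∀ n : ℕ, n • |y| < |x| := by
  unfold BO
  push Not
  rfl

theorem BO.of_not {x y : V} (h : ¬ BO x y) : BO y x := (BO.total x y).resolve_left h

theorem lt_of_not_BO {x y : V} (h : ¬ BO x y) : |y| < |x| := by
  have := not_BO.1 h 1
  simpa using this

theorem BO.abs_left {x y : V} (h : BO x y) : BO |x| y := by
  obtain ⟨n, hn⟩ := h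
  exact ⟨n, by rwa [abs_abs]⟩

theorem BO.abs_right {x y : V} (h : BO x y) : BO x |y| := by
  obtain ⟨n, hn⟩ := h
  exact ⟨n, by rwa [abs_abs]⟩

theorem BO.of_abs_left {x y : V} (h : BO |x| y) : BO x y := by
  obtain ⟨n, hn⟩ := h
  exact ⟨n, by rwa [abs_abs] at hn⟩

theorem BO.of_abs_right {x y : V} (h : BO x |y|) : BO x y := by
  obtain ⟨n, hn⟩ := h
  exact ⟨n, by rwa [abs_abs] at hn⟩

theorem BO.of_zero {x : V} (h : BO x 0) : x = 0 := by
  obtain ⟨n, hn⟩ := h
  rw [abs_zero, smul_zero] at hn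
  exact abs_nonpos_iff.1 hn

/-- the ratio of `x` to `b` is the real number `ρ` -/
def Ratio (x b : V) (ρ : ℝ) : Prop :=
  ∀ (u : ℤ) (n : ℕ), 0 < n → ((u : ℝ) < n * ρ → u • b < n • x) ∧ (n * ρ < u → n • x < u • b)

theorem lt_of_nsmul {x y : V} {n : ℕ} (h : n • x < n • y) : x < y := by
  by_contra hc
  rw [not_lt] at hc
  exact absurd (nsmul_le_nsmul_right hc n) (not_le.2 h)

theorem exists_ratio {x b : V} (hb : 0 < b) (h : BO x b) : ∃ ρ : ℝ, Ratio x b ρ := by
  obtain ⟨N, hN⟩ := h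
  rw [abs_of_pos hb] at hN
  obtain ⟨A, hA⟩ : ∃ A : Set ℝ, A = {q : ℝ | ∃ (u : ℤ) (n : ℕ), 0 < n ∧ q = u / n ∧
    u • b < n • x} := ⟨_, rfl⟩
  have hlt : ∀ u v : ℤ, u • b < v • b → u < v := by
    intro u v h
    by_contra hc
    rw [not_lt] at hc
    exact absurd (zsmul_le_zsmul_left hb.le hc) (not_le.2 h)
  have hbd : BddAbove A := by
    refine ⟨N, ?_⟩
    rintro q hq
    rw [hA] at hq
    obtain ⟨u, n, hn, rfl, h⟩ := hq
    have h1 : n • x ≤ n • (N • b) := nsmul_le_nsmul_right ((le_abs_self x).trans hN) n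
    have h2 : u • b < ((n * N : ℕ) : ℤ) • b := by
      rw [natCast_zsmul, mul_smul]
      exact h.trans_le h1
    have h3 := hlt _ _ h2
    have hn' : (0 : ℝ) < n := by exact_mod_cast hn
    rw [div_le_iff₀ hn']
    have h4 : (u : ℝ) < ((n * N : ℕ) : ℤ) := by exact_mod_cast h3
    push_cast at h4
    linarith
  have hne : A.Nonempty := by
    refine ⟨((-(N + 1 : ℕ) : ℤ) : ℝ) / (1 : ℕ), ?_⟩
    rw [hA]
    refine ⟨_, 1, Nat.one_pos, rfl, ?_⟩
    rw [one_smul, neg_smul, natCast_zsmul, add_smul, one_smul]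
    have h1 : -|x| ≤ x := neg_abs_le x
    have h2 : N • b < N • b + b := lt_add_of_pos_right _ hb
    calc -(N • b + b) < -(N • b) := neg_lt_neg h2
      _ ≤ -|x| := neg_le_neg hN
      _ ≤ x := h1
  refine ⟨sSup A, fun u n hn => ⟨fun h => ?_, fun h => ?_⟩⟩
  · have hn' : (0 : ℝ) < n := by exact_mod_cast hn
    have h1 : (u : ℝ) / n < sSup A := by
      rw [div_lt_iff₀ hn']
      linarith
    obtain ⟨q, hq, hlq⟩ := exists_lt_of_lt_csSup hne h1
    rw [hA] at hq
    obtain ⟨u', n', hn1, rfl, h2⟩ := hq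
    have hn1' : (0 : ℝ) < n' := by exact_mod_cast hn1
    rw [div_lt_div_iff₀ hn' hn1'] at hlq
    have h3 : u * n' < u' * n := by exact_mod_cast hlq
    apply lt_of_nsmul (n := n')
    have h4 : n' • (u • b) = (u * n') • b := by
      rw [← natCast_zsmul, smul_smul, mul_comm]
    have h5 : (u' * n) • b = n • (u' • b) := by
      rw [← natCast_zsmul, smul_smul, mul_comm]
    rw [h4]
    calc (u * n') • b < (u' * n) • b := zsmul_lt_zsmul_left hb h3
      _ = n • (u' • b) := h5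
      _ < n • (n' • x) := nsmul_lt_nsmul_right hn.ne' h2
      _ = n' • (n • x) := by rw [smul_smul, smul_smul, mul_comm]
  · by_contra hc
    rw [not_lt] at hc
    have hn' : (0 : ℝ) < n := by exact_mod_cast hn
    have h1 : sSup A < (u : ℝ) / n := by
      rw [lt_div_iff₀ hn']
      linarith
    obtain ⟨q, hq1, hq2⟩ := exists_rat_btwn h1
    have hqd : (0 : ℝ) < q.den := by exact_mod_cast q.den_pos
    have hq3 : (q : ℝ) = q.num / q.den := by
      exact_mod_cast (Rat.num_div_den q).symm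
    rw [hq3] at hq1 hq2
    rw [div_lt_div_iff₀ hqd hn'] at hq2
    have h2 : q.num * n < u * q.den := by exact_mod_cast hq2
    have h3 : q.num • b < q.den • x := by
      apply lt_of_nsmul (n := n)
      calc n • (q.num • b) = (q.num * n) • b := by rw [← natCast_zsmul, smul_smul, mul_comm]
        _ < (u * q.den) • b := zsmul_lt_zsmul_left hb h2
        _ = q.den • (u • b) := by rw [← natCast_zsmul, smul_smul, mul_comm]
        _ ≤ q.den • (n • x) := nsmul_le_nsmul_right hc _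
        _ = n • (q.den • x) := by rw [smul_smul, smul_smul, mul_comm]
    have h4 : ((q.num : ℝ) / q.den) ∈ A := by
      rw [hA]
      exact ⟨_, _, q.den_pos, rfl, h3⟩
    exact absurd (le_csSup hbd h4) (not_le.2 hq1)

theorem Ratio.neg {x b : V} {ρ : ℝ} (h : Ratio x b ρ) : Ratio (-x) b (-ρ) := by
  intro u n hn
  have := h (-u) n hn
  push_cast at this
  constructor
  · intro h1
    have h2 := this.2 (by linarith)
    rw [neg_smul] at h2
    rw [smul_neg]
    exact lt_neg_of_lt_neg h2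
  · intro h1
    have h2 := this.1 (by linarith)
    rw [neg_smul] at h2
    rw [smul_neg]
    exact neg_lt_of_neg_lt h2

/-- elements of the class of `x` or smaller -/
def Bs (x : V) : Submodule ℤ V where
  carrier := {a | BO a x}
  add_mem' h h' := BO.add h h'
  zero_mem' := BO.zero x
  smul_mem' k _ h := BO.zsmul h k

theorem mem_Bs {a x : V} : a ∈ Bs x ↔ BO a x := Iff.rfl

theorem exists_smul_mem {N1 N2 : Submodule ℤ V} (h : N1 ≤ N2) (hf : N2.FG)
    (hr : Module.finrank ℤ N2 ≤ Module.finrank ℤ N1) {a : V} (ha : a ∈ N2) :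
    ∃ n : ℤ, n ≠ 0 ∧ n • a ∈ N1 := by
  haveI : Module.Finite ℤ N2 := Module.Finite.iff_fg.2 hf
  have h1 := Submodule.finrank_quotient_add_finrank (N1.submoduleOf N2)
  have h2 : Module.finrank ℤ (N1.submoduleOf N2) = Module.finrank ℤ N1 :=
    (Submodule.submoduleOfEquivOfLe h).finrank_eq
  have h3 : Module.finrank ℤ (N2 ⧸ N1.submoduleOf N2) = 0 := by omega
  rw [Module.finrank_eq_zero_iff_isTorsion] at h3
  obtain ⟨⟨c, hc⟩, hc'⟩ := @h3 (Submodule.Quotient.mk ⟨a, ha⟩)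
  refine ⟨c, nonZeroDivisors.ne_zero hc, ?_⟩
  have h4 : (Submodule.Quotient.mk (c • (⟨a, ha⟩ : N2)) : N2 ⧸ N1.submoduleOf N2) = 0 := hc'
  rw [Submodule.Quotient.mk_eq_zero] at h4
  exact h4

theorem minclass {A : Submodule ℤ V} (hA : A.FG) {X0 : Set V} (h : X0.Nonempty) :
    ∃ x ∈ X0, ∀ y ∈ X0, BO y x → ∀ a ∈ A, BO a x → BO a y := by
  haveI : Module.Finite ℤ A := Module.Finite.iff_fg.2 hA
  have hN : ∀ x : V, (A ⊓ Bs x).FG := fun x => by
    have := isNoetherian_submodule (N := A) |>.1 inferInstance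
    exact this _ inf_le_left
  obtain ⟨x, hx, hmin⟩ := (measure (fun x : V => Module.finrank ℤ ↥(A ⊓ Bs x))).wf.has_min X0 h
  refine ⟨x, hx, fun y hy hyx a ha hax => ?_⟩
  have h1 : A ⊓ Bs y ≤ A ⊓ Bs x := by
    rintro z ⟨hz, hz'⟩
    exact ⟨hz, BO.trans hz' hyx⟩
  have h2 : Module.finrank ℤ ↥(A ⊓ Bs x) ≤ Module.finrank ℤ ↥(A ⊓ Bs y) := not_lt.1 (hmin y hy)
  obtain ⟨n, hn, hna⟩ := exists_smul_mem h1 (hN x) h2 (a := a) ⟨ha, hax⟩
  exact BO.of_zsmul hn hna.2

theorem maxclass {A : Submodule ℤ V} (hA : A.FG) : ∃ lo ∈ A, ∀ a ∈ A, BO a lo := by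
  refine Submodule.fg_induction (motive := fun A _ => ∃ lo ∈ A, ∀ a ∈ A, BO a lo) ?_ ?_ A hA
  · intro x
    refine ⟨x, Submodule.mem_span_singleton_self x, fun a ha => ?_⟩
    rw [Submodule.mem_span_singleton] at ha
    obtain ⟨k, rfl⟩ := ha
    exact (BO.refl x).zsmul k
  · rintro N1 N2 - - ⟨l1, h1, h1'⟩ ⟨l2, h2, h2'⟩
    rcases BO.total l1 l2 with h | h
    · refine ⟨l2, Submodule.mem_sup_right h2, fun a ha => ?_⟩
      obtain ⟨x, hx, y, hy, rfl⟩ := Submodule.mem_sup.1 ha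
      exact ((h1' x hx).trans h).add (h2' y hy)
    · refine ⟨l1, Submodule.mem_sup_left h1, fun a ha => ?_⟩
      obtain ⟨x, hx, y, hy, rfl⟩ := Submodule.mem_sup.1 ha
      exact (h1' x hx).add ((h2' y hy).trans h)

end Pool.Agent.W894.EIP
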