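import Pool.Agent.W894.EIP.As
import Pool.Agent.Helper626.Basic

/-!
Models of the axioms: the operations of a commutative semiring, formulas with parameters.
-/

set_option autoImplicit false
set_option linter.unusedSectionVars false
set_option linter.unusedVariables false
set_option linter.style.haveILetI false

namespace Pool.Agent.W894.EIP

open Pool.Agent.Helper626 FirstOrder FirstOrder.Language

section

variable {M : Type} [ArithOps M]

/-- the semiring -/
@[reducible] def csr (h : PAminus M) : CommSemiring M where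
  zero := 0
  one := 1
  add := (· + ·)
  mul := (· * ·)
  add_assoc := h.add_assoc
  add_comm := h.add_comm
  add_zero := h.add_zero
  zero_add x := by
    have h1 := h.add_comm 0 x
    rw [h.add_zero] at h1
    exact h1
  nsmul := nsmulRec
  mul_assoc := h.mul_assoc
  mul_comm := h.mul_comm
  mul_one := h.mul_one
  one_mul x := by
    have h1 := h.mul_comm 1 x
    rw [h.mul_one] at h1
    exact h1
  mul_zero := h.mul_zero
  zero_mul x := by
    have h1 := h.mul_comm 0 x
    rw [h.mul_zero] at h1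
    exact h1
  left_distrib := h.mul_add
  right_distrib x y z := by
    have h1 := h.mul_comm (x + y) z
    rw [h.mul_add, h.mul_comm z x, h.mul_comm z y] at h1
    exact h1
  npow := npowRec

open Classical in
/-- the order -/
@[reducible] noncomputable def lor (h : PAminus M) : LinearOrder M where
  le x y := x < y ∨ x = y
  lt := (· < ·)
  le_refl x := Or.inr rfl
  le_trans x y z h1 h2 := by
    rcases h1 with h1 | rfl
    · rcases h2 with h2 | rfl
      · exact Or.inl (h.lt_trans _ _ _ h1 h2)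
      · exact Or.inl h1
    · exact h2
  lt_iff_le_not_ge x y := by
    constructor
    · intro h1
      refine ⟨Or.inl h1, ?_⟩
      rintro (h2 | rfl)
      · exact h.lt_irrefl _ (h.lt_trans _ _ _ h1 h2)
      · exact h.lt_irrefl _ h1
    · rintro ⟨h1 | rfl, h2⟩
      · exact h1
      · exact absurd (Or.inr rfl) h2
  le_antisymm x y h1 h2 := by
    rcases h1 with h1 | rfl
    · rcases h2 with h2 | h2
      · exact absurd (h.lt_trans _ _ _ h1 h2) (h.lt_irrefl _)
      · exact h2.symm
    · rfl
  le_total x y := by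
    rcases h.lt_trichotomy x y with h1 | h1 | h1
    · exact Or.inl (Or.inl h1)
    · exact Or.inl (Or.inr h1)
    · exact Or.inr (Or.inl h1)
  toDecidableLE := Classical.decRel _

theorem sor (h : PAminus M) : @IsStrictOrderedRing M (csr h).toSemiring (lor h).toPartialOrder := by
  letI := csr h
  letI := lor h
  have hadd : ∀ x y z : M, x < y → x + z < y + z := h.add_lt_add
  have hcomm : ∀ x y : M, x + y = y + x := h.add_comm
  have hle : ∀ x y : M, x ≤ y ↔ (x < y ∨ x = y) := fun x y => Iff.rfl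
  have haddle : ∀ x y z : M, x ≤ y → x + z ≤ y + z := by
    intro x y z h1
    rcases (hle x y).1 h1 with h2 | rfl
    · exact (hadd x y z h2).le
    · exact le_rfl
  exact
    { add_le_add_left := fun a b h1 c => haddle a b c h1
      add_le_add_right := fun a b h1 c => by
        rw [hcomm c a, hcomm c b]
        exact haddle a b c h1
      le_of_add_le_add_left := fun a b c h1 => by
        by_contra h2
        have h3 := hadd c b a (not_le.1 h2)
        rw [hcomm c a, hcomm b a] at h3
        exact absurd h1 (not_le.2 h3)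
      le_of_add_le_add_right := fun a b c h1 => by
        by_contra h2
        exact absurd h1 (not_le.2 (hadd c b a (not_le.1 h2)))
      zero_le_one := Or.inl h.zero_lt_one
      exists_pair_ne := ⟨0, 1, fun h1 => h.lt_irrefl (0 : M) (by
        have h2 := h.zero_lt_one
        have h3 : (0 : M) = 1 := h1
        rw [← h3] at h2
        exact h2)⟩
      mul_lt_mul_of_pos_left := fun a ha b c h1 => by
        have h2 := h.mul_lt_mul b c a ha h1
        rw [h.mul_comm b a, h.mul_comm c a] at h2
        exact h2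
      mul_lt_mul_of_pos_right := fun c hc a b h1 => h.mul_lt_mul a b c hc h1 }

theorem coa (h : PAminus M) : @CanonicallyOrderedAdd M (csr h).toAdd (lor h).toLE := by
  letI := csr h
  letI := lor h
  have := sor h
  have hle : ∀ x y : M, x ≤ y ↔ (x < y ∨ x = y) := fun x y => Iff.rfl
  have h0 : ∀ x : M, 0 ≤ x := fun x => by
    rcases h.nonneg x with h1 | h1
    · rw [hle]; exact Or.inr h1.symm
    · rw [hle]; exact Or.inl h1
  exact
    { exists_add_of_le := fun {a b} h1 => by
        rcases (hle a b).1 h1 with h2 | rfl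
        · obtain ⟨z, hz⟩ := h.exists_add a b h2
          exact ⟨z, hz.symm⟩
        · exact ⟨0, (add_zero a).symm⟩
      le_self_add := fun a b => le_add_of_nonneg_right (h0 b)
      le_add_self := fun a b => le_add_of_nonneg_left (h0 b) }

end

/-- definability by terms with parameters -/
theorem TM.trm {M : Type} [ArithOps M] (h : PAminus M) {n : ℕ} {s : (Fin n → M) → M}
    (hs : @TM M (csr h) n s) : ∃ F : Finset M, ∀ (k : ℕ) (p : Fin k → M),
      (∀ c ∈ F, ∃ j, p j = c) → ∃ t : Trm false (k + n), ∀ v, tval t (Fin.append p v) = s v := by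
  classical
  letI := csr h
  induction hs with
  | var i =>
    refine ⟨∅, fun k p _ => ⟨Term.var (Sum.inr (Fin.natAdd k i)), fun v => ?_⟩⟩
    exact Fin.append_right p v i
  | const c =>
    refine ⟨{c}, fun k p hp => ?_⟩
    obtain ⟨j, hj⟩ := hp c (Finset.mem_singleton_self c)
    refine ⟨Term.var (Sum.inr (Fin.castAdd n j)), fun v => ?_⟩
    exact (Fin.append_left p v j).trans hj
  | add _ _ ih1 ih2 =>
    obtain ⟨F1, h1⟩ := ih1
    obtain ⟨F2, h2⟩ := ih2
    refine ⟨F1 ∪ F2, fun k p hp => ?_⟩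
    obtain ⟨t1, h1⟩ := h1 k p fun c hc => hp c (Finset.mem_union_left _ hc)
    obtain ⟨t2, h2⟩ := h2 k p fun c hc => hp c (Finset.mem_union_right _ hc)
    refine ⟨Term.func (L := LA false) (l := 2) AFunc.add ![t1, t2], fun v => ?_⟩
    exact congrArg₂ (fun x y : M => x + y) (h1 v) (h2 v)
  | mul _ _ ih1 ih2 =>
    obtain ⟨F1, h1⟩ := ih1
    obtain ⟨F2, h2⟩ := ih2
    refine ⟨F1 ∪ F2, fun k p hp => ?_⟩
    obtain ⟨t1, h1⟩ := h1 k p fun c hc => hp c (Finset.mem_union_left _ hc)
    obtain ⟨t2, h2⟩ := h2 k p fun c hc => hp c (Finset.mem_union_right _ hc)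
    refine ⟨Term.func (L := LA false) (l := 2) AFunc.mul ![t1, t2], fun v => ?_⟩
    exact congrArg₂ (fun x y : M => x * y) (h1 v) (h2 v)

/-- definability by bounded formulas with parameters -/
theorem DM.fml {M : Type} [ArithOps M] (h : PAminus M) {n : ℕ} {P : (Fin n → M) → Prop}
    (hP : @DM M (csr h) (lor h) n P) : ∃ F : Finset M, ∀ (k : ℕ) (p : Fin k → M),
      (∀ c ∈ F, ∃ j, p j = c) → ∃ φ : Fml false (k + n), IsDelta0 φ ∧
        ∀ v, Sat φ (Fin.append p v) ↔ P v := by
  classical
  letI := csr h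
  letI := lor h
  induction hP with
  | fls => exact ⟨∅, fun k p _ => ⟨⊥, IsDelta0.falsum, fun v => Iff.rfl⟩⟩
  | eq h1 h2 =>
    obtain ⟨F1, h1⟩ := h1.trm h
    obtain ⟨F2, h2⟩ := h2.trm h
    refine ⟨F1 ∪ F2, fun k p hp => ?_⟩
    obtain ⟨t1, h1⟩ := h1 k p fun c hc => hp c (Finset.mem_union_left _ hc)
    obtain ⟨t2, h2⟩ := h2 k p fun c hc => hp c (Finset.mem_union_right _ hc)
    refine ⟨t1.bdEqual t2, IsDelta0.eq t1 t2, fun v => ?_⟩
    rw [sat_eq, h1, h2]
  | lt h1 h2 =>
    obtain ⟨F1, h1⟩ := h1.trm h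
    obtain ⟨F2, h2⟩ := h2.trm h
    refine ⟨F1 ∪ F2, fun k p hp => ?_⟩
    obtain ⟨t1, h1⟩ := h1 k p fun c hc => hp c (Finset.mem_union_left _ hc)
    obtain ⟨t2, h2⟩ := h2 k p fun c hc => hp c (Finset.mem_union_right _ hc)
    refine ⟨ltF t1 t2, IsDelta0.lt t1 t2, fun v => ?_⟩
    rw [sat_lt, h1, h2]
  | imp _ _ ih1 ih2 =>
    obtain ⟨F1, h1⟩ := ih1
    obtain ⟨F2, h2⟩ := ih2
    refine ⟨F1 ∪ F2, fun k p hp => ?_⟩
    obtain ⟨φ1, g1, h1⟩ := h1 k p fun c hc => hp c (Finset.mem_union_left _ hc)
    obtain ⟨φ2, g2, h2⟩ := h2 k p fun c hc => hp c (Finset.mem_union_right _ hc)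
    refine ⟨φ1.imp φ2, g1.imp g2, fun v => ?_⟩
    rw [sat_imp, h1, h2]
  | @ball0 n t P h1 _ ih2 =>
    obtain ⟨F1, h1⟩ := h1.trm h
    obtain ⟨F2, h2⟩ := ih2
    refine ⟨F1 ∪ F2, fun k p hp => ?_⟩
    obtain ⟨t1, h1⟩ := h1 k p fun c hc => hp c (Finset.mem_union_left _ hc)
    obtain ⟨φ, g, h2⟩ := h2 k p fun c hc => hp c (Finset.mem_union_right _ hc)
    refine ⟨_, IsDelta0.ball t1 (φ := φ) g, fun v => ?_⟩
    rw [sat_ball, h1]
    apply forall_congr'
    intro x
    rw [← h2, Fin.append_snoc]

/-- induction for bounded formulas -/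
theorem idel {M : Type} [ArithOps M] (h : PAminus M) (hI : ISigma false 0 M) :
    @IDel M (csr h) (lor h) := by
  classical
  letI := csr h
  letI := lor h
  refine @IDel.mk M (csr h) (lor h) ⟨fun x hx => ?_⟩ fun P hP h0 hs => ?_
  · rcases h.discrete x hx with h1 | h1
    · exact Or.inr h1.symm
    · exact Or.inl h1
  · have hP1 : @DM M (csr h) (lor h) 1 (fun v => P (v 0)) := hP 1 (fun v => v 0) (TM.var 0)
    obtain ⟨F, hF⟩ := DM.fml h hP1
    obtain ⟨φ, hφ, hφ'⟩ := hF F.card (fun i => (F.equivFin.symm i : M)) (fun c hc =>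
      ⟨F.equivFin ⟨c, hc⟩, by simp⟩)
    have key : ∀ x : M, Sat φ (Fin.snoc (fun i => (F.equivFin.symm i : M)) x) ↔ P x := by
      intro x
      have h1 := hφ' (fun _ => x)
      have h2 : Fin.append (fun i => (F.equivFin.symm i : M)) (fun _ : Fin 1 => x) =
          Fin.snoc (fun i => (F.equivFin.symm i : M)) x := by
        rw [Fin.append_right_eq_snoc]
      rw [h2] at h1
      exact h1
    intro x
    rw [← key]
    refine hI F.card φ hφ _ ?_ ?_ x
    · exact (key 0).2 h0
    · intro y hy
      exact (key (y + 1)).2 (hs y ((key y).1 hy))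

end Pool.Agent.W894.EIP
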