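import Mathlib

/-!
Relations on an ordered semiring which are defined by bounded formulas with parameters, over
contexts which are products of copies of the semiring.
-/

set_option autoImplicit false
set_option linter.unusedSectionVars false

namespace Pool.Agent.W894.EIP

/-- functions given by terms with parameters -/
inductive TM (M : Type) [CommSemiring M] : ∀ {n : ℕ}, ((Fin n → M) → M) → Prop
  | var {n : ℕ} (i : Fin n) : TM M (fun v : Fin n → M => v i)
  | const {n : ℕ} (c : M) : TM M (fun _ : Fin n → M => c)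
  | add {n : ℕ} {s t : (Fin n → M) → M} : TM M s → TM M t → TM M (fun v => s v + t v)
  | mul {n : ℕ} {s t : (Fin n → M) → M} : TM M s → TM M t → TM M (fun v => s v * t v)

/-- relations defined by bounded formulas with parameters -/
inductive DM (M : Type) [CommSemiring M] [LinearOrder M] :
    ∀ {n : ℕ}, ((Fin n → M) → Prop) → Prop
  | fls {n : ℕ} : DM M (fun _ : Fin n → M => False)
  | eq {n : ℕ} {s t : (Fin n → M) → M} : TM M s → TM M t → DM M (fun v => s v = t v)
  | lt {n : ℕ} {s t : (Fin n → M) → M} : TM M s → TM M t → DM M (fun v => s v < t v)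
  | imp {n : ℕ} {P Q : (Fin n → M) → Prop} : DM M P → DM M Q → DM M (fun v => P v → Q v)
  | ball0 {n : ℕ} {t : (Fin n → M) → M} {P : (Fin (n + 1) → M) → Prop} : TM M t → DM M P →
      DM M (fun v => ∀ x : M, x < t v → P (Fin.snoc v x))

section TM

variable {M : Type} [CommSemiring M] {n m : ℕ}

theorem TM.comp {s : (Fin m → M) → M} (hs : TM M s) :
    ∀ {t : Fin m → (Fin n → M) → M}, (∀ i, TM M (t i)) → TM M (fun v => s (fun i => t i v)) := by
  induction hs with
  | var => intro t ht; exact ht _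
  | const => intro t _; exact TM.const _
  | add _ _ ih1 ih2 => intro t ht; exact (ih1 ht).add (ih2 ht)
  | mul _ _ ih1 ih2 => intro t ht; exact (ih1 ht).mul (ih2 ht)

theorem TM.init {s : (Fin n → M) → M} (hs : TM M s) :
    TM M (fun v : Fin (n + 1) → M => s (Fin.init v)) :=
  hs.comp (t := fun i v => v i.castSucc) (fun _ => TM.var _)

theorem TM.last : TM M (fun v : Fin (n + 1) → M => v (Fin.last n)) := TM.var _

theorem TM.npow {s : (Fin n → M) → M} (hs : TM M s) : ∀ k : ℕ, TM M (fun v => s v ^ k)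
  | 0 => by
    simp only [pow_zero]
    exact TM.const 1
  | k + 1 => by
    simp only [pow_succ]
    exact (TM.npow hs k).mul hs

theorem TM.poly {s : (Fin n → M) → M} (hs : TM M s) (p : Polynomial M) :
    TM M (fun v => p.eval (s v)) := by
  induction p using Polynomial.induction_on' with
  | add p q ihp ihq =>
    simp only [Polynomial.eval_add]
    exact ihp.add ihq
  | monomial k a =>
    simp only [Polynomial.eval_monomial]
    exact (TM.const a).mul (hs.npow k)

end TM

section DM

variable {M : Type} [CommSemiring M] [LinearOrder M] {n m : ℕ}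

theorem DM.of_iff {P Q : (Fin n → M) → Prop} (h : DM M P) (H : ∀ v, Q v ↔ P v) : DM M Q := by
  have : Q = P := funext fun v => propext (H v)
  rw [this]
  exact h

theorem DM.not {P : (Fin n → M) → Prop} (h : DM M P) : DM M (fun v => ¬ P v) :=
  h.imp DM.fls

theorem DM.or {P Q : (Fin n → M) → Prop} (h : DM M P) (h' : DM M Q) :
    DM M (fun v => P v ∨ Q v) :=
  (h.not.imp h').of_iff fun v => by tauto

theorem DM.and {P Q : (Fin n → M) → Prop} (h : DM M P) (h' : DM M Q) :
    DM M (fun v => P v ∧ Q v) :=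
  (h.imp h'.not).not.of_iff fun v => by tauto

theorem DM.tru : DM M (fun _ : Fin n → M => True) :=
  (DM.fls.imp DM.fls).of_iff fun v => by tauto

theorem DM.ball {t : (Fin n → M) → M} {Q : (Fin n → M) → M → Prop} (ht : TM M t)
    (h : DM M (fun w : Fin (n + 1) → M => Q (Fin.init w) (w (Fin.last n)))) :
    DM M (fun v => ∀ x, x < t v → Q v x) :=
  (DM.ball0 ht h).of_iff fun v => by simp

theorem DM.bex {t : (Fin n → M) → M} {Q : (Fin n → M) → M → Prop} (ht : TM M t)
    (h : DM M (fun w : Fin (n + 1) → M => Q (Fin.init w) (w (Fin.last n)))) :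
    DM M (fun v => ∃ x, x < t v ∧ Q v x) :=
  (DM.ball (Q := fun v x => ¬ Q v x) ht h.not).not.of_iff fun v => by
    push Not
    rfl

end DM

/-- contexts: (nested) products of copies of `M` -/
class Cx (M : Type) [CommSemiring M] (α : Type) where
  /-- functions all of whose coordinates are given by terms -/
  T : ∀ {m : ℕ}, ((Fin m → M) → α) → Prop
  /-- the size of an element -/
  sz : α → M
  T_comp : ∀ {m n : ℕ} {g : (Fin m → M) → α} {h : Fin m → (Fin n → M) → M}, T g →
    (∀ i, TM M (h i)) → T (fun v => g (fun i => h i v))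
  T_sz : ∀ {m : ℕ} {g : (Fin m → M) → α}, T g → TM M (fun v => sz (g v))

instance Cx.base (M : Type) [CommSemiring M] : Cx M M where
  T g := TM M g
  sz a := a
  T_comp hg hh := hg.comp hh
  T_sz hg := hg

instance Cx.prod (M : Type) [CommSemiring M] {α β : Type} [Cx M α] [Cx M β] : Cx M (α × β) where
  T g := Cx.T (fun v => (g v).1) ∧ Cx.T (fun v => (g v).2)
  sz a := Cx.sz a.1 + Cx.sz a.2
  T_comp hg hh := ⟨Cx.T_comp hg.1 hh, Cx.T_comp hg.2 hh⟩
  T_sz hg := (Cx.T_sz hg.1).add (Cx.T_sz hg.2)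

instance Cx.unit (M : Type) [CommSemiring M] : Cx M Unit where
  T _ := True
  sz _ := 0
  T_comp _ _ := trivial
  T_sz _ := TM.const 0

section

variable {M : Type} [CommSemiring M] {α β γ δ : Type} [Cx M α] [Cx M β] [Cx M γ] [Cx M δ]

theorem Cx.T_init {m : ℕ} {g : (Fin m → M) → α} (hg : Cx.T g) :
    Cx.T (fun w : Fin (m + 1) → M => g (Fin.init w)) :=
  Cx.T_comp (h := fun i (w : Fin (m + 1) → M) => w i.castSucc) hg (fun _ => TM.var _)

variable [LinearOrder M]

/-- predicates defined by bounded formulas -/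
def DP (M : Type) [CommSemiring M] [LinearOrder M] {α : Type} [Cx M α] (P : α → Prop) : Prop :=
  ∀ (m : ℕ) (g : (Fin m → M) → α), Cx.T g → DM M (fun v => P (g v))

/-- functions which may be substituted in bounded formulas -/
@[fun_prop]
structure DF (M : Type) [CommSemiring M] [LinearOrder M] {α β : Type} [Cx M α] [Cx M β]
    (f : α → β) : Prop where
  sub : ∀ (δ : Type) [Cx M δ] (P : δ × β → Prop), DP M P → DP M (fun p : δ × α => P (p.1, f p.2))
  bdd : ∃ p : Polynomial M, ∀ a, (Cx.sz (f a) : M) ≤ p.eval (Cx.sz a)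

theorem DP.of_iff {P Q : α → Prop} (h : DP M P) (H : ∀ v, Q v ↔ P v) : DP M Q := by
  have : Q = P := funext fun v => propext (H v)
  rw [this]
  exact h

theorem DP.fls : DP M (fun _ : α => False) := fun _ _ _ => DM.fls

theorem DP.tru : DP M (fun _ : α => True) := fun _ _ _ => DM.tru

theorem DP.imp {P Q : α → Prop} (h : DP M P) (h' : DP M Q) : DP M (fun a => P a → Q a) :=
  fun m g hg => (h m g hg).imp (h' m g hg)

theorem DP.not {P : α → Prop} (h : DP M P) : DP M (fun a => ¬ P a) := fun m g hg => (h m g hg).not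

theorem DP.and {P Q : α → Prop} (h : DP M P) (h' : DP M Q) : DP M (fun a => P a ∧ Q a) :=
  fun m g hg => (h m g hg).and (h' m g hg)

theorem DP.or {P Q : α → Prop} (h : DP M P) (h' : DP M Q) : DP M (fun a => P a ∨ Q a) :=
  fun m g hg => (h m g hg).or (h' m g hg)

theorem DP.iff {P Q : α → Prop} (h : DP M P) (h' : DP M Q) : DP M (fun a => P a ↔ Q a) :=
  ((h.imp h').and (h'.imp h)).of_iff fun _ => ⟨fun h => ⟨h.1, h.2⟩, fun h => ⟨h.1, h.2⟩⟩

theorem DP.const (p : Prop) : DP M (fun _ : α => p) := by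
  by_cases h : p
  · exact DP.tru.of_iff fun _ => by simp [h]
  · exact DP.fls.of_iff fun _ => by simp [h]

theorem DP.comp {P : β → Prop} {f : α → β} (hP : DP M P) (hf : DF M f) :
    DP M (fun a => P (f a)) := by
  have h1 : DP M (fun p : Unit × β => P p.2) := fun m g hg => hP m _ hg.2
  have h2 := hf.sub Unit _ h1
  intro m g hg
  exact h2 m (fun v => ((), g v)) ⟨trivial, hg⟩

end

section

variable {M : Type} [CommSemiring M] [LinearOrder M] [IsStrictOrderedRing M]
  [CanonicallyOrderedAdd M] {α β γ δ : Type} [Cx M α] [Cx M β] [Cx M γ] [Cx M δ]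

theorem peval_mono (p : Polynomial M) {x y : M} (h : x ≤ y) : p.eval x ≤ p.eval y := by
  induction p using Polynomial.induction_on' with
  | add p q ihp ihq =>
    simp only [Polynomial.eval_add]
    exact add_le_add ihp ihq
  | monomial k a =>
    simp only [Polynomial.eval_monomial]
    exact mul_le_mul_right (pow_le_pow_left' h k) a

@[fun_prop]
theorem DF.id' : DF M (fun a : α => a) where
  sub _ _ _ hP := hP
  bdd := ⟨Polynomial.X, fun a => by simp⟩

@[fun_prop]
theorem DF.comp' {f : β → γ} {g : α → β} (hf : DF M f) (hg : DF M g) :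
    DF M (fun a => f (g a)) where
  sub δ _ P hP := hg.sub δ _ (hf.sub δ P hP)
  bdd := by
    obtain ⟨p, hp⟩ := hf.bdd
    obtain ⟨q, hq⟩ := hg.bdd
    refine ⟨p.comp q, fun a => (hp _).trans ?_⟩
    rw [Polynomial.eval_comp]
    exact peval_mono p (hq a)

@[fun_prop]
theorem DF.fst' : DF M (fun p : α × β => p.1) where
  sub δ _ P hP := fun m g hg => hP m (fun v => ((g v).1, (g v).2.1)) ⟨hg.1, hg.2.1⟩
  bdd := ⟨Polynomial.X, fun a => by
    change (Cx.sz a.1 : M) ≤ Polynomial.eval (Cx.sz a.1 + Cx.sz a.2 : M) Polynomial.X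
    rw [Polynomial.eval_X]
    exact le_self_add⟩

@[fun_prop]
theorem DF.snd' : DF M (fun p : α × β => p.2) where
  sub δ _ P hP := fun m g hg => hP m (fun v => ((g v).1, (g v).2.2)) ⟨hg.1, hg.2.2⟩
  bdd := ⟨Polynomial.X, fun a => by
    change (Cx.sz a.2 : M) ≤ Polynomial.eval (Cx.sz a.1 + Cx.sz a.2 : M) Polynomial.X
    rw [Polynomial.eval_X]
    exact le_add_self⟩

@[fun_prop]
theorem DF.prod {f : α → β} {g : α → γ} (hf : DF M f) (hg : DF M g) :
    DF M (fun a => (f a, g a)) where
  sub δ _ P hP := by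
    have h1 : DP M (fun q : (δ × γ) × β => P (q.1.1, (q.2, q.1.2))) :=
      fun m g hg => hP m (fun v => ((g v).1.1, ((g v).2, (g v).1.2))) ⟨hg.1.1, hg.2, hg.1.2⟩
    have h2 := hf.sub (δ × γ) _ h1
    have h3 : DP M (fun q : (δ × α) × γ => P (q.1.1, (f q.1.2, q.2))) :=
      fun m g hg => h2 m (fun v => (((g v).1.1, (g v).2), (g v).1.2)) ⟨⟨hg.1.1, hg.2⟩, hg.1.2⟩
    have h4 := hg.sub (δ × α) _ h3
    intro m g' hg'
    exact h4 m (fun v => (((g' v).1, (g' v).2), (g' v).2)) ⟨⟨hg'.1, hg'.2⟩, hg'.2⟩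
  bdd := by
    obtain ⟨p, hp⟩ := hf.bdd
    obtain ⟨q, hq⟩ := hg.bdd
    refine ⟨p + q, fun a => ?_⟩
    rw [Polynomial.eval_add]
    exact add_le_add (hp a) (hq a)

theorem DF.of_term {f : α → M}
    (h : ∀ (m : ℕ) (g : (Fin m → M) → α), Cx.T g → TM M (fun v => f (g v)))
    (hb : ∃ p : Polynomial M, ∀ a, f a ≤ p.eval (Cx.sz a)) : DF M f where
  sub δ _ P hP := fun m g hg => hP m (fun v => ((g v).1, f (g v).2)) ⟨hg.1, h m _ hg.2⟩
  bdd := hb

@[fun_prop]
theorem DF.const (c : M) : DF M (fun _ : α => c) :=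
  DF.of_term (fun _ _ _ => TM.const c) ⟨Polynomial.C c, fun a => by simp⟩

@[fun_prop]
theorem DF.add {f g : α → M} (hf : DF M f) (hg : DF M g) : DF M (fun a => f a + g a) := by
  have h : DF M (fun p : M × M => p.1 + p.2) :=
    DF.of_term (fun m g hg => hg.1.add hg.2) ⟨Polynomial.X, fun a => by
      rw [Polynomial.eval_X]
      exact le_rfl⟩
  exact DF.comp' h (hf.prod hg)

@[fun_prop]
theorem DF.mul {f g : α → M} (hf : DF M f) (hg : DF M g) : DF M (fun a => f a * g a) := by
  have h : DF M (fun p : M × M => p.1 * p.2) :=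
    DF.of_term (fun m g hg => hg.1.mul hg.2) ⟨Polynomial.X * Polynomial.X, fun a => by
      rw [Polynomial.eval_mul, Polynomial.eval_X]
      exact mul_le_mul' le_self_add le_add_self⟩
  exact DF.comp' h (hf.prod hg)

@[fun_prop]
theorem DF.npow {f : α → M} (hf : DF M f) : ∀ k : ℕ, DF M (fun a => f a ^ k)
  | 0 => by
    simp only [pow_zero]
    exact DF.const 1
  | k + 1 => by
    simp only [pow_succ]
    exact (DF.npow hf k).mul hf

@[fun_prop]
theorem DF.poly {f : α → M} (hf : DF M f) (p : Polynomial M) : DF M (fun a => p.eval (f a)) := by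
  have h : DF M (fun x : M => p.eval x) :=
    DF.of_term (fun m g hg => TM.poly hg p) ⟨p, fun a => le_rfl⟩
  exact DF.comp' h hf

theorem DP.eq {f g : α → M} (hf : DF M f) (hg : DF M g) : DP M (fun a => f a = g a) := by
  have h : DP M (fun p : M × M => p.1 = p.2) := fun m g hg => DM.eq hg.1 hg.2
  exact h.comp (hf.prod hg)

theorem DP.lt {f g : α → M} (hf : DF M f) (hg : DF M g) : DP M (fun a => f a < g a) := by
  have h : DP M (fun p : M × M => p.1 < p.2) := fun m g hg => DM.lt hg.1 hg.2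
  exact h.comp (hf.prod hg)

theorem DP.le {f g : α → M} (hf : DF M f) (hg : DF M g) : DP M (fun a => f a ≤ g a) :=
  (DP.lt hg hf).not.of_iff fun _ => not_lt.symm

theorem DP.bex {f : α → M} {Q : α → M → Prop} (hf : DF M f)
    (hQ : DP M (fun p : α × M => Q p.1 p.2)) : DP M (fun a => ∃ x, x < f a ∧ Q a x) := by
  have h0 : DP M (fun p : α × M => p.2 < f p.1 ∧ Q p.1 p.2) :=
    (DP.lt DF.snd' (DF.comp' hf DF.fst')).and hQ
  intro m g hg
  obtain ⟨p, hp⟩ := hf.bdd
  have ht : TM M (fun v => p.eval (Cx.sz (g v))) := TM.poly (Cx.T_sz hg) p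
  refine (DM.bex (Q := fun v x => x < f (g v) ∧ Q (g v) x) ht ?_).of_iff fun v => ?_
  · exact h0 (m + 1) (fun w => (g (Fin.init w), w (Fin.last m))) ⟨Cx.T_init hg, TM.last⟩
  · constructor
    · rintro ⟨x, h1, h2⟩
      exact ⟨x, lt_of_lt_of_le h1 (hp _), h1, h2⟩
    · rintro ⟨x, _, h1, h2⟩
      exact ⟨x, h1, h2⟩

theorem DP.ball {f : α → M} {Q : α → M → Prop} (hf : DF M f)
    (hQ : DP M (fun p : α × M => Q p.1 p.2)) : DP M (fun a => ∀ x, x < f a → Q a x) :=
  (DP.bex (Q := fun a x => ¬ Q a x) hf hQ.not).not.of_iff fun v => by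
    push Not
    rfl

end

section Discrete

variable {M : Type} [CommSemiring M] [LinearOrder M] [IsStrictOrderedRing M]
  [CanonicallyOrderedAdd M] {α β γ δ : Type} [Cx M α] [Cx M β] [Cx M γ] [Cx M δ]

/-- the order is discrete -/
class Disc (M : Type) [CommSemiring M] [LinearOrder M] : Prop where
  out : ∀ x : M, 0 < x → 1 ≤ x

variable [Disc M]

theorem lt_add_one_iff' {x y : M} : x < y + 1 ↔ x ≤ y := by
  constructor
  · intro h
    by_contra hc
    rw [not_le] at hc
    obtain ⟨c, hc'⟩ := le_iff_exists_add.1 hc.le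
    have hc0 : 0 < c := by
      rw [pos_iff_ne_zero]
      rintro rfl
      rw [add_zero] at hc'
      rw [hc'] at hc
      exact lt_irrefl _ hc
    have := Disc.out c hc0
    rw [hc'] at h
    exact absurd h (not_lt.2 (add_le_add le_rfl this))
  · intro h
    exact lt_of_le_of_lt h (lt_add_one y)

theorem add_one_le_iff' {x y : M} : x + 1 ≤ y ↔ x < y := by
  rw [← not_lt, lt_add_one_iff', not_le]

theorem DP.bexle {f : α → M} {Q : α → M → Prop} (hf : DF M f)
    (hQ : DP M (fun p : α × M => Q p.1 p.2)) : DP M (fun a => ∃ x, x ≤ f a ∧ Q a x) :=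
  (DP.bex (hf.add (DF.const 1)) hQ).of_iff fun v => by simp only [lt_add_one_iff']

theorem DP.balle {f : α → M} {Q : α → M → Prop} (hf : DF M f)
    (hQ : DP M (fun p : α × M => Q p.1 p.2)) : DP M (fun a => ∀ x, x ≤ f a → Q a x) :=
  (DP.ball (hf.add (DF.const 1)) hQ).of_iff fun v => by simp only [lt_add_one_iff']

end Discrete

end Pool.Agent.W894.EIP
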