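import Pool.Agent.W894.EIP.RC

/-!
Integer parts: an ordered field with the intermediate value property which is algebraic over a
discretely ordered subring with open induction has this subring as an integer part.
-/

set_option autoImplicit false
set_option linter.unusedSectionVars false
set_option linter.style.haveILetI false

namespace Pool.Agent.W894.EIP

open Polynomial

section

variable {K : Type*} [Field K] [LinearOrder K] [IsStrictOrderedRing K]

theorem lead_dom (f : K[X]) (hf : 0 < f.natDegree) (x : K) (hx1 : 1 ≤ |x|)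
    (hx : (∑ i ∈ Finset.range f.natDegree, |f.coeff i|) < |f.leadingCoeff| * |x|) :
    |f.eval x - f.leadingCoeff * x ^ f.natDegree| < |f.leadingCoeff * x ^ f.natDegree| := by
  obtain ⟨n, hn⟩ : ∃ n, f.natDegree = n + 1 := ⟨f.natDegree - 1, by omega⟩
  have h1 : f.eval x - f.leadingCoeff * x ^ f.natDegree =
      ∑ i ∈ Finset.range f.natDegree, f.coeff i * x ^ i := by
    rw [eval_eq_sum_range, Finset.sum_range_succ, coeff_natDegree, add_sub_cancel_right]
  rw [h1]
  calc |∑ i ∈ Finset.range f.natDegree, f.coeff i * x ^ i|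
      ≤ ∑ i ∈ Finset.range f.natDegree, |f.coeff i * x ^ i| := Finset.abs_sum_le_sum_abs _ _
    _ ≤ ∑ i ∈ Finset.range f.natDegree, |f.coeff i| * |x| ^ n := by
        refine Finset.sum_le_sum fun i hi => ?_
        rw [Finset.mem_range, hn] at hi
        rw [abs_mul, abs_pow]
        exact mul_le_mul_of_nonneg_left (pow_le_pow_right₀ hx1 (by omega)) (abs_nonneg _)
    _ = (∑ i ∈ Finset.range f.natDegree, |f.coeff i|) * |x| ^ n := by rw [Finset.sum_mul]
    _ < |f.leadingCoeff| * |x| * |x| ^ n := by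
        refine mul_lt_mul_of_pos_right hx (pow_pos (by linarith) n)
    _ = |f.leadingCoeff * x ^ f.natDegree| := by
        rw [abs_mul, abs_pow, hn, pow_succ]; ring

theorem isRealClosed_of_IVP (h : IVP K) : IsRealClosed K := by
  refine IsRealClosed.of_linearOrderedField ?_ ?_
  · intro x hx
    rcases hx.eq_or_lt with h0 | h0
    · rw [← h0]; exact ⟨0, by simp⟩
    · obtain ⟨c, h1, h2, h3⟩ := h (X ^ 2 - C x) 0 (x + 1) (by linarith) (by
        simp only [eval_sub, eval_pow, eval_X, eval_C]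
        refine mul_neg_of_neg_of_pos ?_ ?_
        · rw [zero_pow two_ne_zero, zero_sub]
          exact neg_neg_of_pos h0
        · nlinarith)
      refine ⟨c, ?_⟩
      simp only [eval_sub, eval_pow, eval_X, eval_C] at h3
      linarith [sq c]
  · intro f hodd
    have hpos : 0 < f.natDegree := hodd.pos
    have hlc : f.leadingCoeff ≠ 0 := by
      intro h0
      rw [leadingCoeff_eq_zero] at h0
      rw [h0] at hpos
      simp at hpos
    obtain ⟨S, hS⟩ : ∃ S, S = ∑ i ∈ Finset.range f.natDegree, |f.coeff i| := ⟨_, rfl⟩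
    have hS0 : 0 ≤ S := by rw [hS]; exact Finset.sum_nonneg fun i _ => abs_nonneg _
    have hl : 0 < |f.leadingCoeff| := abs_pos.2 hlc
    obtain ⟨B, hB⟩ : ∃ B, B = S / |f.leadingCoeff| + 1 := ⟨_, rfl⟩
    have hB1 : 1 ≤ B := by rw [hB]; linarith [div_nonneg hS0 hl.le]
    have hSB : S < |f.leadingCoeff| * B := by
      rw [hB, mul_add, mul_div_cancel₀ _ hl.ne']
      linarith
    have h1 := lead_dom f hpos B (by rw [abs_of_pos (by linarith)]; exact hB1)
      (by rw [← hS, abs_of_pos (by linarith : 0 < B)]; exact hSB)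
    have h2 := lead_dom f hpos (-B) (by rw [abs_neg, abs_of_pos (by linarith)]; exact hB1)
      (by rw [← hS, abs_neg, abs_of_pos (by linarith : 0 < B)]; exact hSB)
    rw [hodd.neg_pow, mul_neg, abs_neg, sub_neg_eq_add] at h2
    obtain ⟨L, hL⟩ : ∃ L, L = f.leadingCoeff * B ^ f.natDegree := ⟨_, rfl⟩
    rw [← hL] at h1 h2
    have hL0 : L ≠ 0 := by
      rw [hL]
      exact mul_ne_zero hlc (pow_ne_zero _ (by linarith))
    have hs : f.eval (-B) * f.eval B < 0 := by
      rcases lt_or_gt_of_ne hL0 with h3 | h3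
      · rw [abs_of_neg h3, abs_lt] at h1 h2
        exact mul_neg_of_pos_of_neg (by linarith) (by linarith)
      · rw [abs_of_pos h3, abs_lt] at h1 h2
        exact mul_neg_of_neg_of_pos (by linarith) (by linarith)
    obtain ⟨c, _, _, hc⟩ := h f (-B) B (by linarith) hs
    exact ⟨c, hc⟩

theorem derivative_sign {f q : K[X]} {x1 x2 : K}
    (hf : f = (X - C x1) * ((X - C x2) * q)) :
    (derivative f).eval x1 = (x1 - x2) * q.eval x1 ∧
      (derivative f).eval x2 = (x2 - x1) * q.eval x2 := by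
  rw [hf]
  constructor
  · simp [derivative_mul]
  · simp [derivative_mul]

/-- **Integer parts** -/
theorem ip (hI : IVP K) (Z : Subring K) (hdisc : ∀ z ∈ Z, 0 < z → 1 ≤ z)
    (halg : ∀ r : K, ∃ f : K[X], f ≠ 0 ∧ (∀ i, f.coeff i ∈ Z) ∧ f.eval r = 0)
    (hOI : ∀ f : K[X], (∀ i, f.coeff i ∈ Z) → ∀ n1 ∈ Z, ∀ n2 ∈ Z, n1 ≤ n2 → f.eval n1 < 0 →
      (∀ m ∈ Z, n1 ≤ m → m < n2 → f.eval m < 0 → f.eval (m + 1) < 0) → f.eval n2 < 0)
    (r : K) : ∃ z ∈ Z, z ≤ r ∧ r < z + 1 := by
  by_contra hcon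
  push Not at hcon
  have habsZ : ∀ z ∈ Z, |z| ∈ Z := by
    intro z hz
    rcases abs_choice z with h | h <;> rw [h]
    · exact hz
    · exact Z.neg_mem hz
  -- cofinality
  have hcof : ∃ B ∈ Z, |r| < B := by
    obtain ⟨f, hf0, hfZ, hfr⟩ := halg r
    obtain ⟨S, hS⟩ : ∃ S, S = ∑ i ∈ Finset.range f.natDegree, |f.coeff i| := ⟨_, rfl⟩
    have hSZ : S ∈ Z := by
      rw [hS]
      exact Z.sum_mem fun i _ => habsZ _ (hfZ i)
    have hS0 : 0 ≤ S := by rw [hS]; exact Finset.sum_nonneg fun i _ => abs_nonneg _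
    refine ⟨S + 1, Z.add_mem hSZ Z.one_mem, ?_⟩
    by_contra hc
    rw [not_lt] at hc
    have hl0 : f.leadingCoeff ≠ 0 := leadingCoeff_ne_zero.2 hf0
    have hl : 1 ≤ |f.leadingCoeff| := hdisc _ (habsZ _ (hfZ _)) (abs_pos.2 hl0)
    have hpos : 0 < f.natDegree := by
      by_contra h0
      have h1 : f.natDegree = 0 := by omega
      rw [eq_C_of_natDegree_eq_zero h1] at hfr hf0
      simp only [eval_C] at hfr
      exact hf0 (by rw [hfr, C_0])
    have h1 := lead_dom f hpos r (by linarith) (by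
      rw [← hS]
      calc S < S + 1 := by linarith
        _ ≤ |r| := hc
        _ = 1 * |r| := (one_mul _).symm
        _ ≤ |f.leadingCoeff| * |r| := mul_le_mul_of_nonneg_right hl (abs_nonneg _))
    rw [hfr, zero_sub, abs_neg] at h1
    exact lt_irrefl _ h1
  -- polynomials with a root in the gap
  obtain ⟨G, hG⟩ : ∃ G : K → Prop, G = fun x => ∀ z ∈ Z, z ≤ x ↔ z ≤ r := ⟨_, rfl⟩
  have hGr : G r := by rw [hG]; intro z _; rfl
  have hGconv : ∀ x y z, G x → G z → x ≤ y → y ≤ z → G y := by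
    intro x y z hx hz hxy hyz
    rw [hG] at hx hz ⊢
    intro w hw
    exact ⟨fun h => (hz w hw).1 (h.trans hyz), fun h => ((hx w hw).2 h).trans hxy⟩
  have hne : ({f : K[X] | f ≠ 0 ∧ (∀ i, f.coeff i ∈ Z) ∧ ∃ x, G x ∧ f.eval x = 0}).Nonempty := by
    obtain ⟨f, hf0, hfZ, hfr⟩ := halg r
    exact ⟨f, hf0, hfZ, r, hGr, hfr⟩
  obtain ⟨f, ⟨hf0, hfZ, x0, hGx0, hfx0⟩, hmin⟩ := (measure (fun f : K[X] => f.natDegree)).wf.has_min
    _ hne
  have hpos : 0 < f.natDegree := by
    by_contra h0
    have h1 : f.natDegree = 0 := by omega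
    rw [eq_C_of_natDegree_eq_zero h1] at hfx0 hf0
    simp only [eval_C] at hfx0
    exact hf0 (by rw [hfx0, C_0])
  have hd : ∀ x, G x → (derivative f).eval x ≠ 0 := by
    intro x hx h0
    have h1 : derivative f ≠ 0 := by
      intro h2
      have := derivative_eq_zero.1 h2
      omega
    have h2 : ∀ i, (derivative f).coeff i ∈ Z := by
      intro i
      rw [coeff_derivative]
      have : ((i : K) + 1) ∈ Z := Z.add_mem (natCast_mem Z i) Z.one_mem
      exact Z.mul_mem (hfZ _) this
    have h3 := hmin (derivative f) ⟨h1, h2, x, hx, h0⟩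
    exact h3 (natDegree_derivative_lt hpos.ne')
  -- uniqueness of the root in the gap
  have huniq : ∀ x1 x2, G x1 → G x2 → f.eval x1 = 0 → f.eval x2 = 0 → x1 < x2 → False := by
    intro x1 x2 hx1 hx2 h1 h2 h12
    classical
    obtain ⟨R, hR⟩ : ∃ R : Finset K, R = f.roots.toFinset.filter (fun y => x1 < y) := ⟨_, rfl⟩
    have hRm : ∀ y, y ∈ R ↔ f.eval y = 0 ∧ x1 < y := by
      intro y
      rw [hR, Finset.mem_filter, Multiset.mem_toFinset, mem_roots hf0]
      rfl
    have hRne : R.Nonempty := ⟨x2, (hRm _).2 ⟨h2, h12⟩⟩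
    obtain ⟨y, hy, hymin⟩ := R.exists_min_image id hRne
    rw [hRm] at hy
    have hyx2 : y ≤ x2 := hymin x2 ((hRm _).2 ⟨h2, h12⟩)
    have hGy : G y := hGconv x1 y x2 hx1 hx2 hy.2.le hyx2
    obtain ⟨q1, hq1⟩ := dvd_iff_isRoot.2 h1
    have h3 : q1.eval y = 0 := by
      have := hy.1
      rw [hq1, eval_mul] at this
      rcases mul_eq_zero.1 this with h4 | h4
      · simp only [eval_sub, eval_X, eval_C] at h4
        exact absurd (sub_eq_zero.1 h4) hy.2.ne'
      · exact h4
    obtain ⟨q, hq⟩ := dvd_iff_isRoot.2 h3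
    rw [hq] at hq1
    obtain ⟨e1, e2⟩ := derivative_sign hq1
    have hd1 := hd x1 hx1
    have hd2 := hd y hGy
    rw [e1] at hd1
    rw [e2] at hd2
    have hq10 : q.eval x1 ≠ 0 := fun h => hd1 (by rw [h, mul_zero])
    have hq20 : q.eval y ≠ 0 := fun h => hd2 (by rw [h, mul_zero])
    have hnoroot : ∀ c, x1 < c → c < y → f.eval c ≠ 0 := by
      intro c hc1 hc2 hc3
      exact absurd (hymin c ((hRm _).2 ⟨hc3, hc1⟩)) (not_le.2 hc2)
    have hqq : 0 < q.eval x1 * q.eval y := by
      by_contra hc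
      have hlt : q.eval x1 * q.eval y < 0 := lt_of_le_of_ne (not_lt.1 hc) (mul_ne_zero hq10 hq20)
      obtain ⟨c, hc1, hc2, hc3⟩ := hI q x1 y hy.2 hlt
      refine hnoroot c hc1 hc2 ?_
      rw [hq1, eval_mul, eval_mul, hc3]; simp
    have hlt : (derivative f).eval x1 * (derivative f).eval y < 0 := by
      rw [e1, e2]
      have h4 : 0 < y - x1 := sub_pos.2 hy.2
      have : (x1 - y) * q.eval x1 * ((y - x1) * q.eval y) =
        -((y - x1) * (y - x1) * (q.eval x1 * q.eval y)) := by ring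
      rw [this]
      have h5 : 0 < (y - x1) * (y - x1) * (q.eval x1 * q.eval y) := by positivity
      linarith
    obtain ⟨c, hc1, hc2, hc3⟩ := hI _ x1 y hy.2 hlt
    exact hd c (hGconv x1 c y hx1 hGy hc1.le hc2.le) hc3
  obtain ⟨q, hq⟩ := dvd_iff_isRoot.2 hfx0
  have hq0 : q ≠ 0 := by
    rintro rfl
    exact hf0 (by rw [hq, mul_zero])
  have hqG : ∀ x, G x → q.eval x ≠ 0 := by
    intro x hx h0
    have h1 : f.eval x = 0 := by rw [hq, eval_mul, h0, mul_zero]
    have h2 : x = x0 := by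
      rcases lt_trichotomy x x0 with h | h | h
      · exact (huniq x x0 hx hGx0 h1 hfx0 h).elim
      · exact h
      · exact (huniq x0 x hGx0 hx hfx0 h1 h).elim
    apply hd x0 hGx0
    rw [hq, derivative_mul]
    rw [h2] at h0
    simp [h0]
  -- the interval
  have hint : ∀ R : Finset K, (∀ y ∈ R, ¬ G y) →
      ∃ n1 ∈ Z, n1 ≤ r ∧ ∃ n2 ∈ Z, r < n2 ∧ ∀ y ∈ R, y < n1 ∨ n2 < y := by
    intro R
    induction R using Finset.induction_on with
    | empty =>
      intro _
      obtain ⟨B, hB, hrB⟩ := hcof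
      rw [abs_lt] at hrB
      exact ⟨-B, Z.neg_mem hB, hrB.1.le, B, hB, hrB.2, by simp⟩
    | insert y R _ ih =>
      intro hR
      obtain ⟨n1, h1, h2, n2, h3, h4, h5⟩ := ih (fun z hz => hR z (Finset.mem_insert_of_mem hz))
      have h6 := hR y (Finset.mem_insert_self _ _)
      rw [hG] at h6
      push Not at h6
      obtain ⟨z, hz, h7⟩ := h6
      rcases h7 with ⟨h7, h8⟩ | ⟨h7, h8⟩
      · -- `z ≤ y`, `r < z`
        have h9 : r < z - 1 := by
          by_contra hc
          rw [not_lt] at hc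
          have := hcon (z - 1) (Z.sub_mem hz Z.one_mem) hc
          linarith
        refine ⟨n1, h1, h2, min n2 (z - 1), ?_, lt_min h4 h9, ?_⟩
        · rcases min_choice n2 (z - 1) with h | h <;> rw [h]
          · exact h3
          · exact Z.sub_mem hz Z.one_mem
        · intro w hw
          rcases Finset.mem_insert.1 hw with rfl | hw
          · exact Or.inr (lt_of_le_of_lt (min_le_right _ _) (by linarith))
          · exact (h5 w hw).imp id (fun h => lt_of_le_of_lt (min_le_left _ _) h)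
      · refine ⟨max n1 z, ?_, max_le h2 h8, n2, h3, h4, ?_⟩
        · rcases max_choice n1 z with h | h <;> rw [h]
          · exact h1
          · exact hz
        · intro w hw
          rcases Finset.mem_insert.1 hw with rfl | hw
          · exact Or.inl (lt_of_lt_of_le h7 (le_max_right _ _))
          · exact (h5 w hw).imp (fun h => lt_of_lt_of_le h (le_max_left _ _)) id
  classical
  obtain ⟨n1, hn1, hn1r, n2, hn2, hrn2, hroots⟩ := hint q.roots.toFinset (fun y hy => by
    rw [Multiset.mem_toFinset, mem_roots hq0] at hy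
    exact fun h => hqG y h hy)
  have hqne : ∀ x, n1 ≤ x → x ≤ n2 → q.eval x ≠ 0 := by
    intro x h1 h2 h3
    rcases hroots x (by rw [Multiset.mem_toFinset, mem_roots hq0]; exact h3) with h | h
    · exact absurd h1 (not_le.2 h)
    · exact absurd h2 (not_le.2 h)
  have hn12 : n1 ≤ n2 := (lt_of_le_of_lt hn1r hrn2).le
  have hsign : ∀ x, n1 ≤ x → x ≤ n2 → 0 < q.eval n1 * q.eval x := by
    intro x h1 h2
    by_contra hc
    have hlt : q.eval n1 * q.eval x < 0 :=
      lt_of_le_of_ne (not_lt.1 hc) (mul_ne_zero (hqne n1 le_rfl hn12) (hqne x h1 h2))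
    have hne : n1 < x := by
      refine lt_of_le_of_ne h1 ?_
      rintro rfl
      nlinarith [mul_self_nonneg (q.eval n1)]
    obtain ⟨c, hc1, hc2, hc3⟩ := hI q n1 x hne hlt
    exact hqne c hc1.le (hc2.le.trans h2) hc3
  have hlow : ∀ m ∈ Z, n1 ≤ m → m ≤ n2 → m ≤ r → m < x0 := by
    intro m hm _ _ h3
    have h4 := hcon m hm h3
    rw [hG] at hGx0
    have := (hGx0 (m + 1) (Z.add_mem hm Z.one_mem)).2 h4
    linarith
  have hupp : ∀ m ∈ Z, n1 ≤ m → m ≤ n2 → r < m → x0 < m := by
    intro m hm _ _ h3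
    rw [hG] at hGx0
    by_contra hc
    exact absurd ((hGx0 m hm).1 (not_lt.1 hc)) (not_le.2 h3)
  have hev : ∀ x, f.eval x = (x - x0) * q.eval x := by
    intro x
    nth_rewrite 1 [hq]
    simp
  rcases lt_or_gt_of_ne (hqne n1 le_rfl hn12) with hq1 | hq1
  · -- `q < 0`: use `-f`
    have hqneg : ∀ x, n1 ≤ x → x ≤ n2 → q.eval x < 0 := by
      intro x h1 h2
      exact neg_of_mul_pos_right (hsign x h1 h2) hq1.le
    have := hOI (-f) (fun i => by rw [coeff_neg]; exact Z.neg_mem (hfZ i)) n1 hn1 n2 hn2 hn12 ?_ ?_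
    · rw [eval_neg, hev] at this
      have h1 := hupp n2 hn2 hn12 le_rfl hrn2
      have h2 := hqneg n2 hn12 le_rfl
      nlinarith
    · rw [eval_neg, hev]
      have h1 := hlow n1 hn1 le_rfl hn12 hn1r
      nlinarith
    · intro m hm h1 h2 h3
      have h4 : m ≤ r := by
        by_contra hc
        have h5 := hupp m hm h1 h2.le (not_le.1 hc)
        have h6 := hqneg m h1 h2.le
        rw [eval_neg, hev] at h3
        nlinarith
      have h5 := hcon m hm h4
      have h6 : m + 1 ≤ n2 := (h5.trans_lt hrn2).le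
      have h7 := hlow (m + 1) (Z.add_mem hm Z.one_mem) (by linarith) h6 h5
      have h8 := hqneg (m + 1) (by linarith) h6
      rw [eval_neg, hev]
      nlinarith
  · have hqpos : ∀ x, n1 ≤ x → x ≤ n2 → 0 < q.eval x := by
      intro x h1 h2
      exact pos_of_mul_pos_right (hsign x h1 h2) hq1.le
    have := hOI f hfZ n1 hn1 n2 hn2 hn12 ?_ ?_
    · rw [hev] at this
      have h1 := hupp n2 hn2 hn12 le_rfl hrn2
      have h2 := hqpos n2 hn12 le_rfl
      nlinarith
    · rw [hev]
      have h1 := hlow n1 hn1 le_rfl hn12 hn1r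
      nlinarith
    · intro m hm h1 h2 h3
      have h4 : m ≤ r := by
        by_contra hc
        have h5 := hupp m hm h1 h2.le (not_le.1 hc)
        have h6 := hqpos m h1 h2.le
        rw [hev] at h3
        nlinarith
      have h5 := hcon m hm h4
      have h6 : m + 1 ≤ n2 := (h5.trans_lt hrn2).le
      have h7 := hlow (m + 1) (Z.add_mem hm Z.one_mem) (by linarith) h6 h5
      have h8 := hqpos (m + 1) (by linarith) h6
      rw [hev]
      nlinarith

end

end Pool.Agent.W894.EIP
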