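import Pool.Agent.W894.EIP.ZM
import Pool.Agent.W894.EIP.Ar
import Pool.Agent.W894.EIP.IP

/-!
A countable real closed field of which a given countable model of induction for bounded formulas
is an integer part.
-/

set_option autoImplicit false
set_option linter.unusedSectionVars false
set_option linter.style.haveILetI false

namespace Pool.Agent.W894.EIP

open Polynomial

section

variable {M : Type} [CommSemiring M] [LinearOrder M] [IsStrictOrderedRing M]
  [CanonicallyOrderedAdd M] [IDel M]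

/-- the subring of differences -/
def Zs {K : Type} [Field K] (ι : M →+* K) : Subring K where
  carrier := {z | ∃ a b : M, z = ι a - ι b}
  mul_mem' := by
    rintro _ _ ⟨a, b, rfl⟩ ⟨c, d, rfl⟩
    exact ⟨a * c + b * d, a * d + b * c, by simp only [map_add, map_mul]; ring⟩
  one_mem' := ⟨1, 0, by simp⟩
  add_mem' := by
    rintro _ _ ⟨a, b, rfl⟩ ⟨c, d, rfl⟩
    exact ⟨a + c, b + d, by simp only [map_add]; ring⟩
  zero_mem' := ⟨0, 0, by simp⟩
  neg_mem' := by
    rintro _ ⟨a, b, rfl⟩
    exact ⟨b, a, by ring⟩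

theorem mem_Zs {K : Type} [Field K] {ι : M →+* K} {z : K} :
    z ∈ Zs ι ↔ ∃ a b : M, z = ι a - ι b := Iff.rfl

theorem Zs_cases {K : Type} [Field K] {ι : M →+* K} {z : K} (h : z ∈ Zs ι) :
    ∃ a : M, z = ι a ∨ z = -ι a := by
  obtain ⟨a, b, rfl⟩ := h
  rcases le_total b a with h | h
  · obtain ⟨c, rfl⟩ := le_iff_exists_add.1 h
    exact ⟨c, Or.inl (by rw [map_add]; ring)⟩
  · obtain ⟨c, rfl⟩ := le_iff_exists_add.1 h
    exact ⟨c, Or.inr (by rw [map_add]; ring)⟩

theorem poly_split {K : Type} [Field K] {ι : M →+* K} (f : K[X]) (hf : ∀ i, f.coeff i ∈ Zs ι) :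
    ∃ p q : M[X], ∀ m : M, f.eval (ι m) = ι (p.eval m) - ι (q.eval m) := by
  choose a b hab using hf
  refine ⟨∑ i ∈ Finset.range (f.natDegree + 1), monomial i (a i),
    ∑ i ∈ Finset.range (f.natDegree + 1), monomial i (b i), fun m => ?_⟩
  rw [eval_eq_sum_range]
  simp only [eval_finsetSum, eval_monomial, map_sum, map_mul, map_pow]
  rw [← Finset.sum_sub_distrib]
  refine Finset.sum_congr rfl fun i _ => ?_
  rw [hab i]; ring

theorem exists_R (M : Type) [CommSemiring M] [LinearOrder M] [IsStrictOrderedRing M]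
    [CanonicallyOrderedAdd M] [IDel M] [Countable M] :
    ∃ (R : Type) (_ : Field R) (_ : LinearOrder R) (_ : IsStrictOrderedRing R) (_ : Countable R)
      (ι : M →+* R), IsRealClosed R ∧ StrictMono ι ∧
        ∀ r : R, 0 ≤ r → ∃ m : M, ι m ≤ r ∧ r < ι m + 1 := by
  obtain ⟨Ω, _, _, _, _, ι0, hinj, halg⟩ := exists_field M
  -- quotients of elements of `M`
  obtain ⟨T0, hT0⟩ : ∃ T0 : Set Ω, T0 = {z | ∃ a b : M, b ≠ 0 ∧ z = ι0 a / ι0 b} := ⟨_, rfl⟩
  have hne : ∀ b : M, b ≠ 0 → ι0 b ≠ 0 := by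
    intro b hb h
    exact hb (hinj (by rw [h, map_zero]))
  have hP : Pos T0 := by
    constructor
    · rw [hT0]; exact ⟨0, 1, one_ne_zero, by simp⟩
    · rw [hT0]; exact ⟨1, 1, one_ne_zero, by simp⟩
    · intro x hx y hy
      rw [hT0] at hx hy ⊢
      obtain ⟨a, b, hb, rfl⟩ := hx
      obtain ⟨c, d, hd, rfl⟩ := hy
      have h1 := hne b hb
      have h2 := hne d hd
      refine ⟨a * d + c * b, b * d, mul_ne_zero hb hd, ?_⟩
      simp only [map_add, map_mul]
      field_simp
    · intro x hx y hy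
      rw [hT0] at hx hy ⊢
      obtain ⟨a, b, hb, rfl⟩ := hx
      obtain ⟨c, d, hd, rfl⟩ := hy
      have h1 := hne b hb
      have h2 := hne d hd
      refine ⟨a * c, b * d, mul_ne_zero hb hd, ?_⟩
      simp only [map_mul]
      field_simp
    · intro h
      rw [hT0] at h
      obtain ⟨a, b, hb, h⟩ := h
      have h1 := hne b hb
      have h2 : ι0 (a + b) = 0 := by
        rw [map_add]
        field_simp at h
        linear_combination -h
      have h3 : a + b = 0 := hinj (by rw [h2, map_zero])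
      exact hb (by simpa using (add_eq_zero.1 h3).2)
    · intro x hx y hy
      rw [hT0] at hx hy ⊢
      obtain ⟨a, b, hb, rfl⟩ := hx
      obtain ⟨c, d, hd, rfl⟩ := hy
      have h1 := hne b hb
      have h2 := hne d hd
      obtain ⟨k, hk⟩ := Zs_cases (ι := ι0) (z := ι0 (a * d) - ι0 (c * b)) ⟨_, _, rfl⟩
      refine ⟨k ^ 2, (b * d) ^ 2, pow_ne_zero _ (mul_ne_zero hb hd), ?_⟩
      have h3 : (ι0 a / ι0 b - ι0 c / ι0 d) ^ 2 =
          (ι0 (a * d) - ι0 (c * b)) ^ 2 / ι0 ((b * d) ^ 2) := by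
        simp only [map_pow, map_mul]
        field_simp
      rw [h3, map_pow ι0 k]
      rcases hk with hk | hk <;> rw [hk]
      rw [neg_sq]
    · intro x hx
      rw [hT0] at hx ⊢
      obtain ⟨a, b, hb, rfl⟩ := hx
      rcases eq_or_ne a 0 with rfl | ha
      · exact ⟨0, 1, one_ne_zero, by simp⟩
      · exact ⟨b, a, ha, by rw [inv_div]⟩
  obtain ⟨T, hTT, hT, hmax⟩ := exists_max hP
  letI := ordKT hT hmax
  haveI := ordKT_strict hT hmax
  have hivp := ivp_KT hT hmax
  have hmem : ∀ a : M, ι0 a ∈ T := fun a => hTT (by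
    rw [hT0]; exact ⟨a, 1, one_ne_zero, by simp⟩)
  obtain ⟨ι, hι⟩ : ∃ ι : M →+* KT hT, ∀ a, (ι a : Ω) = ι0 a :=
    ⟨ι0.codRestrict (KT hT) (fun a => sub_KT hT (hmem a)), fun a => rfl⟩
  have hιinj : Function.Injective ι := by
    intro a b h
    apply hinj
    rw [← hι, ← hι, h]
  have hι0 : ∀ a : M, 0 ≤ ι a := by
    intro a
    change (ι a : Ω) - ((0 : KT hT) : Ω) ∈ T
    have e : (ι a : Ω) - ((0 : KT hT) : Ω) = ι0 a := by rw [hι]; simp
    rw [e]
    exact hmem a
  have hmono : StrictMono ι := by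
    intro a b hab
    obtain ⟨c, rfl⟩ := le_iff_exists_add.1 hab.le
    refine lt_of_le_of_ne ?_ (fun h => hab.ne (hιinj h))
    rw [map_add]
    exact le_add_of_nonneg_right (hι0 c)
  have hpos : ∀ z ∈ Zs ι, 0 ≤ z → ∃ a : M, z = ι a := by
    intro z hz h
    obtain ⟨a, ha | ha⟩ := Zs_cases hz
    · exact ⟨a, ha⟩
    · refine ⟨0, ?_⟩
      rw [map_zero]
      refine le_antisymm ?_ h
      rw [ha]
      exact neg_nonpos_of_nonneg (hι0 a)
  haveI : Countable (KT hT) := inferInstance
  refine ⟨KT hT, inferInstance, inferInstance, inferInstance, inferInstance, ι,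
    isRealClosed_of_IVP hivp, hmono, ?_⟩
  intro r hr
  have key := ip hivp (Zs ι) ?_ ?_ ?_ r
  · obtain ⟨z, hz, h1, h2⟩ := key
    obtain ⟨a, ha | ha⟩ := Zs_cases hz
    · exact ⟨a, by rwa [← ha], by rwa [← ha]⟩
    · rcases zero_or_succ a with rfl | ⟨b, rfl⟩
      · refine ⟨0, ?_, ?_⟩
        · rw [map_zero]; exact hr
        · rw [ha] at h2
          simpa using h2
      · exfalso
        rw [ha, map_add, map_one] at h2
        have := hι0 b
        have h3 : -(ι b + 1) + 1 ≤ 0 := by
          have : -(ι b + 1) + 1 = - ι b := by ring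
          rw [this]
          exact neg_nonpos_of_nonneg (hι0 b)
        exact absurd (hr.trans_lt h2) (not_lt.2 h3)
  · intro z hz h
    obtain ⟨a, rfl⟩ := hpos z hz h.le
    have h1 : a ≠ 0 := by
      rintro rfl
      rw [map_zero] at h
      exact lt_irrefl _ h
    have h2 := hmono.monotone (Disc.out a (pos_iff_ne_zero.2 h1))
    rwa [map_one] at h2
  · intro r
    obtain ⟨f, hf0, hfc, hfr⟩ := halg r
    have hlift : f ∈ Polynomial.lifts (algebraMap (KT hT) Ω) := by
      rw [Polynomial.lifts_iff_coeff_lifts]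
      intro n
      obtain ⟨a, b, hab⟩ := hfc n
      exact ⟨ι a - ι b, by
        rw [map_sub, hab, ← hι, ← hι]
        rfl⟩
    rw [Polynomial.mem_lifts] at hlift
    obtain ⟨g, hg⟩ := hlift
    refine ⟨g, ?_, ?_, ?_⟩
    · rintro rfl
      rw [Polynomial.map_zero] at hg
      exact hf0 hg.symm
    · intro i
      obtain ⟨a, b, hab⟩ := hfc i
      refine ⟨a, b, ?_⟩
      apply Subtype.ext
      have h1 : algebraMap (KT hT) Ω (g.coeff i) = f.coeff i := by rw [← coeff_map, hg]
      change algebraMap (KT hT) Ω (g.coeff i) = _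
      rw [h1, hab, ← hι, ← hι]
      rfl
    · have h1 : algebraMap (KT hT) Ω (g.eval r) = 0 := by
        rw [← aeval_algebraMap_apply_eq_algebraMap_eval, aeval_def, ← eval_map, hg]
        exact hfr
      exact (map_eq_zero _).1 h1
  · intro f hf n1 hn1 n2 hn2 hn12 h1 h2
    -- shift
    obtain ⟨N, hN⟩ := hpos (n2 - n1) ((Zs ι).sub_mem hn2 hn1) (sub_nonneg.2 hn12)
    have hlift : f ∈ Polynomial.lifts (Zs ι).subtype := by
      rw [Polynomial.lifts_iff_coeff_lifts]
      intro n
      exact ⟨⟨_, hf n⟩, rfl⟩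
    rw [Polynomial.mem_lifts] at hlift
    obtain ⟨g, hg⟩ := hlift
    obtain ⟨p, q, hpq⟩ := poly_split (ι := ι) ((g.comp (X + C ⟨n1, hn1⟩)).map (Zs ι).subtype) (by
      intro i
      rw [coeff_map]
      exact ((g.comp (X + C ⟨n1, hn1⟩)).coeff i).2)
    have hev : ∀ m : M, f.eval (ι m + n1) = ι (p.eval m) - ι (q.eval m) := by
      intro m
      rw [← hpq m, Polynomial.map_comp, hg, eval_comp]
      simp
    have hlt : ∀ m : M, f.eval (ι m + n1) < 0 ↔ p.eval m < q.eval m := by
      intro m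
      rw [hev, sub_neg]
      exact hmono.lt_iff_lt
    have hall : ∀ x : M, x ≤ N → p.eval x < q.eval x := by
      refine IDel.ind (fun x => x ≤ N → p.eval x < q.eval x) (DP.imp (DP.le (by fun_prop)
        (by fun_prop)) (DP.lt (DF.poly (by fun_prop) _) (DF.poly (by fun_prop) _))) ?_ ?_
      · intro _
        rw [← hlt, map_zero, zero_add]
        exact h1
      · intro x ih hx
        have h3 : x < N := add_one_le_iff'.1 hx
        have h4 := ih h3.le
        rw [← hlt] at h4 ⊢
        have h5 := h2 (ι x + n1) ((Zs ι).add_mem ⟨x, 0, by simp⟩ hn1)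
          (le_add_of_nonneg_left (hι0 x)) (by
            have := hmono h3
            rw [← hN] at this
            exact lt_sub_iff_add_lt.1 this) h4
        rw [map_add, map_one]
        have e : ι x + 1 + n1 = ι x + n1 + 1 := by ring
        rw [e]
        exact h5
    have h3 := hall N le_rfl
    rw [← hlt, ← hN, sub_add_cancel] at h3
    exact h3

end

end Pool.Agent.W894.EIP
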