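import Pool.Agent.W894.EIP.Ov

/-!
Consequences of overspill: ratios of logarithms, exponentials and logarithms of finite numbers.
-/

set_option autoImplicit false
set_option linter.unusedSectionVars false
set_option linter.unusedVariables false

namespace Pool.Agent.W894.EIP

section

variable {M : Type} [CommSemiring M] [LinearOrder M] [IsStrictOrderedRing M]
  [CanonicallyOrderedAdd M] [IDel M] [NPB M]

theorem lt_of_mul_b {b : M} {x y : ℕ} (h : (x : M) * b < y * b) : x < y := by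
  by_contra hc
  rw [not_lt] at hc
  have : (y : M) ≤ x := by exact_mod_cast hc
  exact absurd (mul_le_mul_left this b) (not_le.2 h)

theorem wrat {p : M} (hp : Pw p) (hinf : Inf p) {a b : M} (hb : 0 < b) {K : ℕ}
    (hab : a ≤ K * b) :
    ∃ q, Pw q ∧ ∀ n : ℕ, 0 < n → ∀ u : ℕ, u * b ≤ n * a → n * a < (u + 1) * b →
      q ^ n ≤ p ^ (u + 1) ∧ p ^ u ≤ q ^ n * p ^ 2 := by
  obtain ⟨X, B, hX, hSP⟩ := exists_SP (p ^ (K + 1))
  have hp1 : 1 ≤ p := hinf.one_lt.le
  have hpX : p ≤ X := (le_pow_self hp.1 (Nat.succ_pos K)).trans hX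
  have hustd : ∀ n u : ℕ, (u : M) * b ≤ n * a → u ≤ n * K := by
    intro n u h
    by_contra hc
    rw [not_le] at hc
    have h1 : ((n * K + 1 : ℕ) : M) * b ≤ u * b := by
      refine mul_le_mul_left ?_ b
      exact_mod_cast hc
    have h2 : (n : M) * a ≤ n * (K * b) := mul_le_mul_right hab _
    have h3 := h1.trans (h.trans h2)
    have h4 : ((n * K : ℕ) : M) * b < ((n * K + 1 : ℕ) : M) * b := by
      refine mul_lt_mul_of_pos_right ?_ hb
      exact_mod_cast Nat.lt_succ_self _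
    have h5 : (n : M) * (K * b) = ((n * K : ℕ) : M) * b := by push_cast; ring
    rw [h5] at h3
    exact absurd h4 (not_lt.2 h3)
  obtain ⟨c, hc, _, hall⟩ := spill (P := fun x : M => ∃ q, q ≤ X ∧ (Pw q ∧ ∀ n : M, n ≤ x → (1 ≤ n →
      ∀ u : M, u ≤ n * a → (u * b ≤ n * a → (n * a < (u + 1) * b → ∃ y, y ≤ B ∧ ∃ y1, y1 ≤ B ∧
        ∃ y2, y2 ≤ B ∧ (Pow B q n y ∧ (Pow B p u y1 ∧ (Pow B p (u + 1) y2 ∧
          (y ≤ y2 ∧ y1 ≤ y * p ^ 2)))))))))  (by
    refine DP.bexle (by fun_prop) (DP.and (DP.pw (by fun_prop)) ?_)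
    refine DP.balle (by fun_prop) (DP.imp (DP.le (by fun_prop) (by fun_prop)) ?_)
    refine DP.balle (by fun_prop) (DP.imp (DP.le (by fun_prop) (by fun_prop)) ?_)
    refine DP.imp (DP.lt (by fun_prop) (by fun_prop)) ?_
    refine DP.bexle (by fun_prop) (DP.bexle (by fun_prop) (DP.bexle (by fun_prop) ?_))
    refine DP.and (DP.power (by fun_prop) (by fun_prop) (by fun_prop) (by fun_prop)) ?_
    refine DP.and (DP.power (by fun_prop) (by fun_prop) (by fun_prop) (by fun_prop)) ?_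
    refine DP.and (DP.power (by fun_prop) (by fun_prop) (by fun_prop) (by fun_prop)) ?_
    exact DP.and (DP.le (by fun_prop) (by fun_prop)) (DP.le (by fun_prop) (by fun_prop))) (by
    intro n
    rcases Nat.eq_zero_or_pos n with rfl | hn
    · refine ⟨1, hp1.trans hpX, Pw.one, fun k hk hk1 => ?_⟩
      rw [Nat.cast_zero] at hk
      exact absurd (hk1.trans hk) (not_le.2 one_pos)
    obtain ⟨s, hs, i, hi, hps⟩ := hp.root hn
    -- `U` is the integral part of `n a / b`
    obtain ⟨U', _, _, hr, hU⟩ := division (n * a) b hb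
    obtain ⟨U, _, rfl⟩ : ∃ U : ℕ, U ≤ n * K ∧ U' = U := by
      have h1 : U' * b ≤ n * (K * b) := by
        calc U' * b ≤ n * a := by rw [hU, mul_comm]; exact le_self_add
          _ ≤ n * (K * b) := mul_le_mul_right hab _
      have h2 : U' ≤ (n * K : ℕ) := by
        refine le_of_mul_le_mul_right ?_ hb
        calc U' * b ≤ n * (K * b) := h1
          _ = ((n * K : ℕ) : M) * b := by push_cast; ring
      exact eq_natCast_of_le h2
    have hU1 : (U : M) * b ≤ n * a := by rw [hU, mul_comm]; exact le_self_add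
    have hU2 : (n : M) * a < (U + 1) * b := by
      rw [hU, add_mul, one_mul, mul_comm b]
      gcongr
    have hs1 : 1 ≤ s := Disc.out s hs.1
    have hkey : ∀ v u : ℕ, 0 < v → v ≤ n → (u : M) * b ≤ v * a → (v : M) * a < (u + 1) * b →
        (s ^ U) ^ v ≤ p ^ (u + 1) ∧ p ^ u ≤ (s ^ U) ^ v * p ^ 2 := by
      intro v u hv hvn h1 h2
      have h3 : v * U < n * (u + 1) := by
        apply lt_of_mul_b (b := b)
        calc ((v * U : ℕ) : M) * b = v * (U * b) := by push_cast; ring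
          _ ≤ v * (n * a) := mul_le_mul_right hU1 _
          _ = n * (v * a) := by ring
          _ < n * ((u + 1) * b) := mul_lt_mul_of_pos_left h2 (by exact_mod_cast hn)
          _ = ((n * (u + 1) : ℕ) : M) * b := by push_cast; ring
      have h4 : n * u < v * (U + 1) := by
        apply lt_of_mul_b (b := b)
        calc ((n * u : ℕ) : M) * b = n * (u * b) := by push_cast; ring
          _ ≤ n * (v * a) := mul_le_mul_right h1 _
          _ = v * (n * a) := by ring
          _ < v * ((U + 1) * b) := mul_lt_mul_of_pos_left hU2 (by exact_mod_cast hv)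
          _ = ((v * (U + 1) : ℕ) : M) * b := by push_cast; ring
      constructor
      · calc (s ^ U) ^ v = s ^ (v * U) := by rw [← pow_mul, mul_comm]
          _ ≤ s ^ (n * (u + 1)) := pow_le_pow_right₀ hs1 h3.le
          _ = (s ^ n) ^ (u + 1) := by rw [pow_mul]
          _ ≤ p ^ (u + 1) := by
              refine pow_le_pow_left' ?_ _
              rw [hps]
              exact le_mul_of_one_le_right zero_le (one_le_pow₀ one_le_two)
      · have h5 : n * u ≤ v * U + n := by nlinarith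
        calc p ^ u = s ^ (n * u) * 2 ^ (i * u) := by
              rw [hps, mul_pow, ← pow_mul, ← pow_mul]
          _ ≤ s ^ (v * U + n) * 2 ^ (i * u) := mul_le_mul_left (pow_le_pow_right₀ hs1 h5) _
          _ = (s ^ U) ^ v * s ^ n * 2 ^ (i * u) := by rw [pow_add, ← pow_mul, mul_comm v]
          _ ≤ (s ^ U) ^ v * p * p := by
              refine mul_le_mul' (mul_le_mul' le_rfl ?_) (hinf.two_pow _).le
              rw [hps]
              exact le_mul_of_one_le_right zero_le (one_le_pow₀ one_le_two)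
          _ = (s ^ U) ^ v * p ^ 2 := by ring
    have hqX : s ^ U ≤ X := by
      obtain ⟨u1', _, _, hr1, hu1⟩ := division a b hb
      obtain ⟨u1, hu1K, rfl⟩ : ∃ U : ℕ, U ≤ K ∧ u1' = U := by
        have h2 : u1' ≤ K := by
          refine le_of_mul_le_mul_right ?_ hb
          calc u1' * b ≤ a := by
                nth_rewrite 1 [hu1]
                rw [mul_comm]; exact le_self_add
            _ ≤ K * b := hab
        exact eq_natCast_of_le h2
      have h3 := (hkey 1 u1 one_pos hn (by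
        rw [Nat.cast_one, one_mul]
        nth_rewrite 1 [hu1]
        rw [mul_comm]; exact le_self_add) (by
        rw [Nat.cast_one, one_mul]
        nth_rewrite 1 [hu1]
        rw [add_mul, one_mul, mul_comm b]
        gcongr)).1
      rw [pow_one] at h3
      exact (h3.trans (pow_le_pow_right₀ hp1 (by omega))).trans hX
    refine ⟨s ^ U, hqX, hs.pow U, fun k hk hk1 u' _ hu1 hu2 => ?_⟩
    obtain ⟨v, hv, rfl⟩ := eq_natCast_of_le hk
    have hv0 : 0 < v := by exact_mod_cast lt_of_lt_of_le one_pos hk1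
    obtain ⟨u, rfl⟩ : ∃ u : ℕ, u' = u := by
      have h2 : u' ≤ (v * K : ℕ) := by
        refine le_of_mul_le_mul_right ?_ hb
        calc u' * b ≤ v * a := hu1
          _ ≤ v * (K * b) := mul_le_mul_right hab _
          _ = ((v * K : ℕ) : M) * b := by push_cast; ring
      obtain ⟨k, _, hk⟩ := eq_natCast_of_le h2
      exact ⟨k, hk⟩
    obtain ⟨h1, h2⟩ := hkey v u hv0 hv hu1 hu2
    refine ⟨(s ^ U) ^ v, hSP.pow_le hqX v, p ^ u, hSP.pow_le hpX _, p ^ (u + 1),
      hSP.pow_le hpX _, Pow.mk hSP hqX v, Pow.mk hSP hpX u, ?_, h1, h2⟩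
    have := Pow.mk hSP hpX (u + 1)
    rwa [Nat.cast_succ] at this) hSP.inf
  obtain ⟨q, hqX, hq, hq2⟩ := hall c le_rfl
  refine ⟨q, hq, fun n hn u h1 h2 => ?_⟩
  have hu : (u : M) ≤ n * a := by
    refine le_trans ?_ h1
    exact le_mul_of_one_le_right zero_le (Disc.out b hb)
  obtain ⟨y, _, y1, _, y2, _, g1, g2, g3, g4, g5⟩ := hq2 n (hc n).le (by exact_mod_cast hn) u hu h1 h2
  rw [← Nat.cast_succ] at g3
  rw [g1.eq, g3.eq] at g4
  rw [g1.eq, g2.eq] at g5
  exact ⟨g4, g5⟩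

theorem lt_of_pow_lt {P : M} (hP : 1 ≤ P) {x y : ℕ} (h : P ^ x < P ^ y) : x < y := by
  by_contra hc
  rw [not_lt] at hc
  exact absurd (pow_le_pow_right₀ hP hc) (not_le.2 h)

theorem zrat {P : M} (hP : 2 ≤ P) {a b : M} (hb : 0 < b) (hba : b ≤ a) {K : ℕ}
    (hab : a < P ^ K * b) :
    ∃ n c : M, Inf n ∧ ∀ m : ℕ, 0 < m → ∀ t : ℕ, P ^ t * b ^ m ≤ a ^ m → a ^ m < P ^ (t + 1) * b ^ m →
      c * m ≤ t * n + n + m ∧ t * n ≤ c * m + n + m := by
  obtain ⟨X, B, hX, hSP⟩ := exists_SP (P + a + b)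
  have hP1 : 1 ≤ P := one_le_two.trans hP
  have hPX : P ≤ X := (le_self_add.trans le_self_add).trans hX
  have haX : a ≤ X := (le_add_self.trans le_self_add).trans hX
  have hbX : b ≤ X := le_add_self.trans hX
  have htK : ∀ m t : ℕ, P ^ t * b ^ m ≤ a ^ m → t ≤ K * m := by
    intro m t h
    rcases Nat.eq_zero_or_pos m with rfl | hm
    · rw [pow_zero, pow_zero, mul_one] at h
      rcases Nat.eq_zero_or_pos t with rfl | ht
      · exact Nat.zero_le _
      · have h1 : P ≤ P ^ t := le_pow_self (lt_of_lt_of_le two_pos hP) ht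
        exact absurd (hP.trans (h1.trans h)) (not_le.2 one_lt_two)
    · have h1 : P ^ t * b ^ m < P ^ (K * m) * b ^ m := by
        refine lt_of_le_of_lt h ?_
        rw [pow_mul, ← mul_pow]
        exact pow_lt_pow_left₀ hab zero_le hm.ne'
      exact (lt_of_pow_lt hP1 (lt_of_mul_lt_mul_right h1 zero_le)).le
  obtain ⟨n, hn, _, hall⟩ := spill (P := fun x : M => ∃ c : M, c ≤ (K : M) * x ∧ ∀ m : M, m ≤ x → (1 ≤ m →
      ∀ t : M, t ≤ (K : M) * m → ∀ y1, y1 ≤ B → ∀ y2, y2 ≤ B → ∀ y3, y3 ≤ B → (Pow B P t y1 → (Pow B b m y2 →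
        (Pow B a m y3 → (y1 * y2 ≤ y3 → (y3 < P * y1 * y2 →
          (c * m ≤ t * x + x + m ∧ t * x ≤ c * m + x + m)))))))) (by
    refine DP.bexle (by fun_prop) (DP.balle (by fun_prop) (DP.imp
      (DP.le (by fun_prop) (by fun_prop)) (DP.balle (by fun_prop) (DP.balle (by fun_prop)
        (DP.balle (by fun_prop) (DP.balle (by fun_prop) (DP.imp (DP.power (by fun_prop)
          (by fun_prop) (by fun_prop) (by fun_prop)) (DP.imp (DP.power (by fun_prop)
          (by fun_prop) (by fun_prop) (by fun_prop)) (DP.imp (DP.power (by fun_prop)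
          (by fun_prop) (by fun_prop) (by fun_prop)) (DP.imp (DP.le (by fun_prop) (by fun_prop))
            (DP.imp (DP.lt (by fun_prop) (by fun_prop)) (DP.and (DP.le (by fun_prop)
            (by fun_prop)) (DP.le (by fun_prop) (by fun_prop)))))))))))))) ) (by
    intro n
    rcases Nat.eq_zero_or_pos n with rfl | hn
    · refine ⟨0, zero_le, fun k hk hk1 => ?_⟩
      rw [Nat.cast_zero] at hk
      exact absurd (hk1.trans hk) (not_le.2 one_pos)
    -- the exponent for `n`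
    obtain ⟨c, hcK, hc1, hc2⟩ : ∃ c : ℕ, c ≤ K * n ∧ P ^ c * b ^ n ≤ a ^ n ∧
        a ^ n < P ^ (c + 1) * b ^ n := by
      classical
      have h0 : P ^ 0 * b ^ n ≤ a ^ n := by
        rw [pow_zero, one_mul]; exact pow_le_pow_left' hba n
      have hex := Nat.findGreatest_spec (P := fun c => P ^ c * b ^ n ≤ a ^ n)
        (Nat.zero_le (K * n)) h0
      refine ⟨_, Nat.findGreatest_le (K * n), hex, ?_⟩
      by_contra hcon
      rw [not_lt] at hcon
      have h2 := htK n _ hcon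
      have h3 := Nat.le_findGreatest (P := fun c => P ^ c * b ^ n ≤ a ^ n) h2 hcon
      omega
    refine ⟨c, by exact_mod_cast hcK, fun k hk hk1 t' ht' y1 _ y2 _ y3 _ h1 h2 h3 h4 h5 => ?_⟩
    obtain ⟨m, hm, rfl⟩ := eq_natCast_of_le hk
    have hm0 : 0 < m := by exact_mod_cast lt_of_lt_of_le one_pos hk1
    obtain ⟨t, _, rfl⟩ : ∃ t : ℕ, t ≤ K * m ∧ t' = t :=
      eq_natCast_of_le (n := K * m) (by rwa [Nat.cast_mul])
    rw [h1.eq, h2.eq, h3.eq] at h4
    rw [h1.eq, h2.eq, h3.eq, ← pow_succ'] at h5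
    have hbm : ∀ j : ℕ, 0 < b ^ j := fun j => pow_pos hb j
    have e1 : c * m < (t + 1) * n := by
      apply lt_of_pow_lt hP1
      refine lt_of_mul_lt_mul_right (a := b ^ (n * m)) ?_ zero_le
      calc P ^ (c * m) * b ^ (n * m) = (P ^ c * b ^ n) ^ m := by
            rw [mul_pow, ← pow_mul, ← pow_mul]
        _ ≤ (a ^ n) ^ m := pow_le_pow_left' hc1 m
        _ = (a ^ m) ^ n := by rw [← pow_mul, ← pow_mul, mul_comm]
        _ < (P ^ (t + 1) * b ^ m) ^ n := pow_lt_pow_left₀ h5 zero_le hn.ne'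
        _ = P ^ ((t + 1) * n) * b ^ (n * m) := by
            rw [mul_pow, ← pow_mul, ← pow_mul, mul_comm m n]
    have e2 : t * n < (c + 1) * m := by
      apply lt_of_pow_lt hP1
      refine lt_of_mul_lt_mul_right (a := b ^ (n * m)) ?_ zero_le
      calc P ^ (t * n) * b ^ (n * m) = (P ^ t * b ^ m) ^ n := by
            rw [mul_pow, ← pow_mul, ← pow_mul, mul_comm m n]
        _ ≤ (a ^ m) ^ n := pow_le_pow_left' h4 n
        _ = (a ^ n) ^ m := by rw [← pow_mul, ← pow_mul, mul_comm]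
        _ < (P ^ (c + 1) * b ^ n) ^ m := pow_lt_pow_left₀ hc2 zero_le hm0.ne'
        _ = P ^ ((c + 1) * m) * b ^ (n * m) := by rw [mul_pow, ← pow_mul, ← pow_mul]
    constructor
    · have : c * m ≤ t * n + n + m := by nlinarith
      exact_mod_cast this
    · have : t * n ≤ c * m + n + m := by nlinarith
      exact_mod_cast this) hSP.inf
  obtain ⟨c, _, hc⟩ := hall n le_rfl
  refine ⟨n, c, hn, fun m hm t h1 h2 => ?_⟩
  refine hc m (hn m).le (by exact_mod_cast hm) t ?_ (P ^ t) (hSP.pow_le hPX t) (b ^ m)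
    (hSP.pow_le hbX m) (a ^ m) (hSP.pow_le haX m) (Pow.mk hSP hPX t) (Pow.mk hSP hbX m)
    (Pow.mk hSP haX m) h1 (by rwa [← pow_succ'])
  rw [← Nat.cast_mul]
  exact_mod_cast htK m t h1

theorem uexp {a b : M} (hb : 0 < b) {K : ℕ} (hab : a ≤ K * b) :
    ∃ n c : M, Inf n ∧ ∀ m : ℕ, 0 < m → ∀ u : ℕ, u * b ≤ m * a → m * a < (u + 1) * b →
      2 ^ u * n ^ m ≤ (c + 1) ^ m ∧ c ^ m ≤ 2 ^ (u + 1) * n ^ m := by
  obtain ⟨X, B, hX, hSP⟩ := exists_SP (1 : M)
  have hXnat : ∀ k : ℕ, (k : M) ≤ X := fun k => (hSP.1 k).le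
  have huK : ∀ m u : ℕ, (u : M) * b ≤ m * a → u ≤ K * m := by
    intro m u h
    have h2 : (u : M) ≤ (K * m : ℕ) := by
      refine le_of_mul_le_mul_right ?_ hb
      calc (u : M) * b ≤ m * a := h
        _ ≤ m * (K * b) := mul_le_mul_right hab _
        _ = ((K * m : ℕ) : M) * b := by push_cast; ring
    exact_mod_cast h2
  obtain ⟨n, hn, _, hall⟩ := spill (P := fun x : M => ∃ c : M, c ≤ 2 ^ (K + 1) * x ∧
      ∀ m : M, m ≤ x → (1 ≤ m → ∀ u : M, u ≤ (K : M) * m → (u * b ≤ m * a → (m * a < (u + 1) * b →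
        ∃ y1, y1 ≤ B ∧ ∃ y2, y2 ≤ B ∧ ∃ y3, y3 ≤ B ∧ ∃ y4, y4 ≤ B ∧ (Pow B 2 u y1 ∧
          (Pow B x m y2 ∧ (Pow B (c + 1) m y3 ∧ (Pow B c m y4 ∧
            (y1 * y2 ≤ y3 ∧ y4 ≤ 2 * y1 * y2))))))))) (by
    refine DP.bexle (by fun_prop) (DP.balle (by fun_prop) ?_)
    refine DP.imp (DP.le (by fun_prop) (by fun_prop)) (DP.balle (by fun_prop) ?_)
    refine DP.imp (DP.le (by fun_prop) (by fun_prop)) ?_
    refine DP.imp (DP.lt (by fun_prop) (by fun_prop)) ?_
    refine DP.bexle (by fun_prop) (DP.bexle (by fun_prop) (DP.bexle (by fun_prop)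
      (DP.bexle (by fun_prop) ?_)))
    refine DP.and (DP.power (by fun_prop) (by fun_prop) (by fun_prop) (by fun_prop)) ?_
    refine DP.and (DP.power (by fun_prop) (by fun_prop) (by fun_prop) (by fun_prop)) ?_
    refine DP.and (DP.power (by fun_prop) (by fun_prop) (by fun_prop) (by fun_prop)) ?_
    refine DP.and (DP.power (by fun_prop) (by fun_prop) (by fun_prop) (by fun_prop)) ?_
    exact DP.and (DP.le (by fun_prop) (by fun_prop)) (DP.le (by fun_prop) (by fun_prop))) (by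
    intro n
    rcases Nat.eq_zero_or_pos n with rfl | hn
    · refine ⟨0, zero_le, fun k hk hk1 => ?_⟩
      rw [Nat.cast_zero] at hk
      exact absurd (hk1.trans hk) (not_le.2 one_pos)
    obtain ⟨Cnd, hCnd⟩ : ∃ Cnd : ℕ → Prop, Cnd = fun c => ∀ m ≤ n, 0 < m → ∀ u : ℕ,
      (u : M) * b ≤ m * a → (m : M) * a < (u + 1) * b → c ^ m ≤ 2 ^ (u + 1) * n ^ m := ⟨_, rfl⟩
    obtain ⟨c, hcK, hc, hcmax⟩ : ∃ c : ℕ, c ≤ 2 ^ (K + 1) * n ∧ Cnd c ∧
        (c + 1 ≤ 2 ^ (K + 1) * n → ¬ Cnd (c + 1)) := by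
      classical
      have h0 : Cnd 0 := by
        rw [hCnd]
        intro m _ hm u _ _
        rw [zero_pow hm.ne']
        exact Nat.zero_le _
      refine ⟨_, Nat.findGreatest_le (2 ^ (K + 1) * n),
        Nat.findGreatest_spec (P := Cnd) (Nat.zero_le (2 ^ (K + 1) * n)) h0, ?_⟩
      intro h1 h2
      have h3 := Nat.le_findGreatest (P := Cnd) h1 h2
      omega
    have hlow : ∀ m ≤ n, 0 < m → ∀ u : ℕ, (u : M) * b ≤ m * a → (m : M) * a < (u + 1) * b →
        2 ^ u * n ^ m ≤ (c + 1) ^ m := by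
      intro m1 hm1 hm10 u1 h1 h2
      by_contra hcon
      rw [not_le] at hcon
      by_cases hc1 : c + 1 ≤ 2 ^ (K + 1) * n
      · have h3 := hcmax hc1
        rw [hCnd] at h3
        push Not at h3
        obtain ⟨m2, hm2, hm20, u2, h4, h5, h6⟩ := h3
        have e1 : (c + 1) ^ (m1 * m2) < 2 ^ (u1 * m2) * n ^ (m1 * m2) := by
          have := Nat.pow_lt_pow_left hcon hm20.ne'
          rwa [mul_pow, ← pow_mul, ← pow_mul, ← pow_mul] at this
        have e2 : 2 ^ ((u2 + 1) * m1) * n ^ (m1 * m2) < (c + 1) ^ (m1 * m2) := by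
          have := Nat.pow_lt_pow_left h6 hm10.ne'
          rwa [mul_pow, ← pow_mul, ← pow_mul, ← pow_mul, mul_comm m2 m1] at this
        have e3 : 2 ^ ((u2 + 1) * m1) < 2 ^ (u1 * m2) := by
          exact lt_of_mul_lt_mul_right (e2.trans e1) (Nat.zero_le _)
        have e4 : (u2 + 1) * m1 < u1 * m2 := (Nat.pow_lt_pow_iff_right (by norm_num)).1 e3
        have e5 : m2 * u1 < m1 * (u2 + 1) := by
          apply lt_of_mul_b (b := b)
          calc ((m2 * u1 : ℕ) : M) * b = m2 * (u1 * b) := by push_cast; ring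
            _ ≤ m2 * (m1 * a) := mul_le_mul_right h1 _
            _ = m1 * (m2 * a) := by ring
            _ < m1 * ((u2 + 1) * b) := mul_lt_mul_of_pos_left h5 (by exact_mod_cast hm10)
            _ = ((m1 * (u2 + 1) : ℕ) : M) * b := by push_cast; ring
        nlinarith
      · have h3 : 2 ^ (K + 1) * n ≤ c + 1 := by omega
        have h4 := Nat.pow_le_pow_left h3 m1
        have h5 : 2 ^ u1 * n ^ m1 ≤ (2 ^ (K + 1) * n) ^ m1 := by
          rw [mul_pow, ← pow_mul]
          refine Nat.mul_le_mul_right _ (Nat.pow_le_pow_right (by norm_num) ?_)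
          have := huK m1 u1 h1
          nlinarith
        omega
    refine ⟨c, by exact_mod_cast hcK, fun k hk hk1 u' hu' h1 h2 => ?_⟩
    obtain ⟨m, hm, rfl⟩ := eq_natCast_of_le hk
    have hm0 : 0 < m := by exact_mod_cast lt_of_lt_of_le one_pos hk1
    obtain ⟨u, _, rfl⟩ : ∃ t : ℕ, t ≤ K * m ∧ u' = t :=
      eq_natCast_of_le (n := K * m) (by rwa [Nat.cast_mul])
    have h3 := hlow m hm hm0 u h1 h2
    have h4 : c ^ m ≤ 2 ^ (u + 1) * n ^ m := by
      rw [hCnd] at hc
      exact hc m hm hm0 u h1 h2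
    refine ⟨2 ^ u, hSP.pow_le (by exact_mod_cast hXnat 2) u, (n : M) ^ m,
      hSP.pow_le (hXnat n) m, ((c + 1 : ℕ) : M) ^ m, hSP.pow_le (hXnat _) m, (c : M) ^ m,
      hSP.pow_le (hXnat c) m, Pow.mk hSP (by exact_mod_cast hXnat 2) u,
      Pow.mk hSP (hXnat n) m, ?_, Pow.mk hSP (hXnat c) m, ?_, ?_⟩
    · have := Pow.mk hSP (hXnat (c + 1)) m
      rwa [Nat.cast_succ] at this ⊢
    · exact_mod_cast h3
    · have h5 : c ^ m ≤ 2 * 2 ^ u * n ^ m := by
        rwa [← pow_succ']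
      exact_mod_cast h5) hSP.inf
  obtain ⟨c, _, hc⟩ := hall n le_rfl
  refine ⟨n, c, hn, fun m hm u h1 h2 => ?_⟩
  obtain ⟨y1, _, y2, _, y3, _, y4, _, g1, g2, g3, g4, g5, g6⟩ := hc m (hn m).le
    (by exact_mod_cast hm) u (by
      rw [← Nat.cast_mul]
      exact_mod_cast huK m u h1) h1 h2
  rw [g1.eq, g2.eq, g3.eq] at g5
  rw [g1.eq, g2.eq, g4.eq, ← pow_succ'] at g6
  exact ⟨g5, g6⟩

end

end Pool.Agent.W894.EIP
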