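import Pool.Agent.W894.EIP.ZG
import Pool.Agent.W894.EIP.Ov2
import Pool.Agent.W894.EIP.ER

/-!
The ordered group of integers and the ordered group of powers of two are isomorphic.
-/

set_option autoImplicit false
set_option linter.unusedSectionVars false
set_option linter.unusedVariables false

namespace Pool.Agent.W894.EIP

section Val

variable {R : Type} [Field R] [LinearOrder R] [IsStrictOrderedRing R]

/-- the field element of an element of a group of positive elements -/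
def val {G : Subgroup {x : R // 0 < x}} (w : Additive G) : R :=
  ((Additive.toMul w : G) : {x : R // 0 < x})

variable {G : Subgroup {x : R // 0 < x}}

theorem val_pos (w : Additive G) : 0 < val w := ((Additive.toMul w : G) : {x : R // 0 < x}).2
theorem val_add (a b : Additive G) : val (a + b) = val a * val b := rfl
theorem val_zero : val (0 : Additive G) = 1 := rfl
theorem val_neg (a : Additive G) : val (-a) = (val a)⁻¹ := rfl
theorem val_le {a b : Additive G} : val a ≤ val b ↔ a ≤ b := Iff.rfl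
theorem val_lt {a b : Additive G} : val a < val b ↔ a < b := Iff.rfl
theorem val_inj {a b : Additive G} (h : val a = val b) : a = b :=
  le_antisymm (val_le.1 h.le) (val_le.1 h.ge)
theorem val_nsmul (n : ℕ) (a : Additive G) : val (n • a) = val a ^ n := by
  induction n with
  | zero => simp [val_zero]
  | succ n ih => rw [succ_nsmul, val_add, ih, pow_succ]

end Val

section

variable {M : Type} [CommSemiring M] [LinearOrder M] [IsStrictOrderedRing M]
  [CanonicallyOrderedAdd M] [IDel M] [NPB M]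
  {R : Type} [Field R] [LinearOrder R] [IsStrictOrderedRing R] {ι : M →+* R}

/-- the integer `m` -/
def zof (ι : M →+* R) (m : M) : Zs ι := ⟨ι m, m, 0, by simp⟩

theorem zof_val (m : M) : (zof ι m : R) = ι m := rfl

theorem zof_add (a b : M) : zof ι (a + b) = zof ι a + zof ι b := Subtype.ext (by
  push_cast; simp [zof_val])

theorem zof_zero : zof ι 0 = 0 := Subtype.ext (by simp [zof_val])

theorem zof_one : zof ι 1 = 1 := Subtype.ext (by simp [zof_val])

theorem zof_nsmul (n : ℕ) (a : M) : zof ι (n * a) = n • zof ι a := by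
  induction n with
  | zero => rw [Nat.cast_zero, zero_mul, zero_smul, zof_zero]
  | succ n ih => rw [Nat.cast_succ, add_mul, one_mul, zof_add, ih, succ_nsmul]

theorem zof_natCast (n : ℕ) : zof ι (n : M) = (n : ℤ) • (1 : Zs ι) := by
  have := zof_nsmul (ι := ι) n 1
  rwa [mul_one, zof_one, ← natCast_zsmul] at this

theorem zof_le (hι : StrictMono ι) {a b : M} : zof ι a ≤ zof ι b ↔ a ≤ b := hι.le_iff_le

theorem zof_lt (hι : StrictMono ι) {a b : M} : zof ι a < zof ι b ↔ a < b := hι.lt_iff_lt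

theorem zof_pos (hι : StrictMono ι) {a : M} : 0 < zof ι a ↔ 0 < a := by
  rw [← zof_zero (ι := ι), zof_lt hι]

theorem exists_zof (hι : StrictMono ι) {z : Zs ι} (hz : 0 ≤ z) : ∃ m, z = zof ι m := by
  obtain ⟨a, ha | ha⟩ := Zs_cases z.2
  · exact ⟨a, Subtype.ext ha⟩
  · refine ⟨0, ?_⟩
    rw [zof_zero]
    refine le_antisymm ?_ hz
    have h1 : (z : R) ≤ 0 := by
      rw [ha]
      have : 0 ≤ ι a := by
        have := hι.monotone (zero_le (a := a))
        rwa [map_zero] at this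
      linarith
    exact h1

theorem zof_nonneg (hι : StrictMono ι) (a : M) : 0 ≤ zof ι a := by
  rw [← zof_zero (ι := ι), zof_le hι]
  exact zero_le

theorem BO_zof (hι : StrictMono ι) {a b : M} : BO (zof ι a) (zof ι b) ↔ ∃ n : ℕ, a ≤ n * b := by
  unfold BO
  refine exists_congr fun n => ?_
  rw [abs_of_nonneg (zof_nonneg hι a), abs_of_nonneg (zof_nonneg hι b), ← zof_nsmul, zof_le hι]

/-- the group of powers of two -/
def Gp (hι : StrictMono ι) : Subgroup {x : R // 0 < x} where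
  carrier := {x | ∃ p : M, Pw p ∧ (x.1 = ι p ∨ x.1 = (ι p)⁻¹)}
  mul_mem' := by
    have key : ∀ p q : M, Pw p → Pw q → ∃ r : M, Pw r ∧ (ι p * (ι q)⁻¹ = ι r ∨
        ι p * (ι q)⁻¹ = (ι r)⁻¹) := by
      intro p q hp hq
      have hp0 : ι p ≠ 0 := (by
        have := hι hp.1
        rw [map_zero] at this
        exact this.ne')
      have hq0 : ι q ≠ 0 := (by
        have := hι hq.1
        rw [map_zero] at this
        exact this.ne')
      rcases le_total p q with h | h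
      · obtain ⟨r, hr⟩ := hp.dvd_of_le hq h
        refine ⟨r, hq.of_dvd ⟨p, by rw [hr, mul_comm]⟩, Or.inr ?_⟩
        rw [hr, map_mul, mul_inv, ← mul_assoc, mul_inv_cancel₀ hp0, one_mul]
      · obtain ⟨r, hr⟩ := hq.dvd_of_le hp h
        refine ⟨r, hp.of_dvd ⟨q, by rw [hr, mul_comm]⟩, Or.inl ?_⟩
        rw [hr, map_mul, mul_comm (ι q), mul_assoc, mul_inv_cancel₀ hq0, mul_one]
    rintro ⟨x, hx⟩ ⟨y, hy⟩ ⟨p, hp, h1⟩ ⟨q, hq, h2⟩
    change x = ι p ∨ x = (ι p)⁻¹ at h1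
    change y = ι q ∨ y = (ι q)⁻¹ at h2
    change ∃ r : M, Pw r ∧ (x * y = ι r ∨ x * y = (ι r)⁻¹)
    rcases h1 with rfl | rfl <;> rcases h2 with rfl | rfl
    · exact ⟨p * q, hp.mul hq, Or.inl (map_mul ι p q).symm⟩
    · exact key p q hp hq
    · rw [mul_comm]; exact key q p hq hp
    · exact ⟨p * q, hp.mul hq, Or.inr (by rw [map_mul, mul_inv])⟩
  one_mem' := ⟨1, Pw.one, Or.inl (map_one ι).symm⟩
  inv_mem' := by
    rintro ⟨x, hx⟩ ⟨p, hp, h1⟩
    change x = ι p ∨ x = (ι p)⁻¹ at h1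
    change ∃ r : M, Pw r ∧ (x⁻¹ = ι r ∨ x⁻¹ = (ι r)⁻¹)
    rcases h1 with rfl | rfl
    · exact ⟨p, hp, Or.inr rfl⟩
    · exact ⟨p, hp, Or.inl (inv_inv _)⟩

theorem ι_pos (hι : StrictMono ι) {a : M} (ha : 0 < a) : 0 < ι a := by
  have := hι ha
  rwa [map_zero] at this

/-- the power of two `p` -/
def wof (hι : StrictMono ι) (p : M) (hp : Pw p) : Additive (Gp hι) :=
  Additive.ofMul ⟨⟨ι p, ι_pos hι hp.1⟩, p, hp, Or.inl rfl⟩

variable (hι : StrictMono ι)
include hι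

theorem val_wof (p : M) (hp : Pw p) : val (wof hι p hp) = ι p := rfl

theorem wof_mul (p q : M) (hp : Pw p) (hq : Pw q) :
    wof hι (p * q) (hp.mul hq) = wof hι p hp + wof hι q hq := val_inj (by
  rw [val_add, val_wof, val_wof, val_wof, map_mul])

theorem wof_congr {p q : M} (hp : Pw p) (hq : Pw q) (h : p = q) : wof hι p hp = wof hι q hq := by
  subst h; rfl

theorem wof_pow (p : M) (hp : Pw p) (n : ℕ) : wof hι (p ^ n) (hp.pow n) = n • wof hι p hp :=
  val_inj (by rw [val_nsmul, val_wof, val_wof, map_pow])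

theorem wof_le {p q : M} (hp : Pw p) (hq : Pw q) : wof hι p hp ≤ wof hι q hq ↔ p ≤ q := hι.le_iff_le

theorem wof_lt {p q : M} (hp : Pw p) (hq : Pw q) : wof hι p hp < wof hι q hq ↔ p < q := hι.lt_iff_lt

theorem wof_one : wof hι 1 Pw.one = 0 := val_inj (by rw [val_wof, val_zero, map_one])

theorem wof_nonneg (p : M) (hp : Pw p) : 0 ≤ wof hι p hp := by
  rw [← wof_one, wof_le]
  exact Disc.out p hp.1

theorem wof_pos {p : M} (hp : Pw p) : 0 < wof hι p hp ↔ 1 < p := by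
  rw [← wof_one, wof_lt]

theorem exists_wof {w : Additive (Gp hι)} (hw : 0 ≤ w) : ∃ p, ∃ hp : Pw p, w = wof hι p hp := by
  obtain ⟨p, hp, h1 | h1⟩ := (Additive.toMul w : Gp hι).2
  · exact ⟨p, hp, val_inj h1⟩
  · have h2 : (1 : R) ≤ val w := by rw [← val_zero (G := Gp hι)]; exact hw
    have h3 : val w = (ι p)⁻¹ := h1
    have h4 : 0 < ι p := ι_pos hι hp.1
    have h5 : 1 ≤ ι p := by
      have := hι.monotone (Disc.out p hp.1)
      rwa [map_one] at this
    refine ⟨1, Pw.one, val_inj ?_⟩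
    rw [val_wof, map_one]
    refine le_antisymm ?_ h2
    rw [h3]
    exact inv_le_one_of_one_le₀ h5

theorem BO_wof {p q : M} (hp : Pw p) (hq : Pw q) :
    BO (wof hι p hp) (wof hι q hq) ↔ ∃ n : ℕ, p ≤ q ^ n := by
  unfold BO
  refine exists_congr fun n => ?_
  rw [abs_of_nonneg (wof_nonneg hι p hp), abs_of_nonneg (wof_nonneg hι q hq), ← wof_pow, wof_le]

theorem inf_iff_z {m : M} : Inf m ↔ ¬ BO (zof ι m) 1 := by
  rw [← zof_one (ι := ι), BO_zof hι]
  push Not
  constructor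
  · intro h n
    rw [mul_one]
    exact h n
  · intro h n
    have := h n
    rwa [mul_one] at this

theorem inf_iff_w {p : M} (hp : Pw p) : Inf p ↔ ¬ BO (wof hι p hp) (wof hι 2 Pw.two) := by
  rw [BO_wof]
  push Not
  constructor
  · intro h n
    exact h.two_pow n
  · intro h n
    refine lt_trans ?_ (h n)
    exact_mod_cast Nat.lt_two_pow_self

theorem base_z (x : Zs ι) (h : BO x 1) : ∃ k : ℤ, x = k • (1 : Zs ι) := by
  have key : ∀ x : Zs ι, 0 ≤ x → BO x 1 → ∃ k : ℤ, x = k • (1 : Zs ι) := by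
    intro x hx h
    obtain ⟨m, rfl⟩ := exists_zof hι hx
    rw [← zof_one (ι := ι), BO_zof hι] at h
    obtain ⟨n, hn⟩ := h
    rw [mul_one] at hn
    obtain ⟨k, _, rfl⟩ := eq_natCast_of_le hn
    exact ⟨k, zof_natCast k⟩
  rcases le_total 0 x with hx | hx
  · exact key x hx h
  · obtain ⟨k, hk⟩ := key (-x) (neg_nonneg.2 hx) h.neg
    exact ⟨-k, by rw [neg_smul, ← hk, neg_neg]⟩

theorem base_w (x : Additive (Gp hι)) (h : BO x (wof hι 2 Pw.two)) :
    ∃ k : ℤ, x = k • wof hι 2 Pw.two := by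
  have key : ∀ x : Additive (Gp hι), 0 ≤ x → BO x (wof hι 2 Pw.two) →
      ∃ k : ℤ, x = k • wof hι 2 Pw.two := by
    intro x hx h
    obtain ⟨p, hp, rfl⟩ := exists_wof hι hx
    rw [BO_wof] at h
    obtain ⟨n, hn⟩ := h
    obtain ⟨i, _, rfl⟩ := hp.eq_two_pow (n := n + 1) (lt_of_le_of_lt hn (by
      exact_mod_cast Nat.pow_lt_pow_right (by norm_num) (Nat.lt_succ_self n)))
    refine ⟨i, ?_⟩
    rw [natCast_zsmul]
    exact wof_pow hι 2 Pw.two i
  rcases le_total 0 x with hx | hx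
  · exact key x hx h
  · obtain ⟨k, hk⟩ := key (-x) (neg_nonneg.2 hx) h.neg
    exact ⟨-k, by rw [neg_smul, ← hk, neg_neg]⟩

theorem w_two_pos : 0 < wof hι 2 Pw.two := by
  rw [wof_pos]
  exact one_lt_two

theorem z_one_pos : (0 : Zs ι) < 1 := by
  rw [← zof_one (ι := ι), zof_pos hι]
  exact one_pos

theorem mem_S_of {m p : M} (hp : Pw p) (h : ∀ n : ℕ, 0 < n → ∃ s, Pw s ∧ ∃ i < n, ∃ q,
    m = n * q + i ∧ p = s ^ n * 2 ^ i) :
    (zof ι m, wof hι p hp) ∈ Srel (1 : Zs ι) (wof hι 2 Pw.two) := by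
  rw [mem_Srel]
  intro n hn
  obtain ⟨s, hs, i, _, q, h1, h2⟩ := h n hn
  refine ⟨i, ⟨zof ι q, ?_⟩, wof hι s hs, ?_⟩
  · rw [h1, zof_add, zof_nsmul, zof_natCast]
  · rw [natCast_zsmul, ← wof_pow, ← wof_pow, ← wof_mul]
    exact wof_congr hι _ _ h2

theorem res_zw (z : Zs ι) (hz : 0 ≤ z) (w0 : Additive (Gp hι)) (hw0 : 0 < w0)
    (hw1 : ¬ BO w0 (wof hι 2 Pw.two)) :
    ∃ w, (z, w) ∈ Srel (1 : Zs ι) (wof hι 2 Pw.two) ∧ ¬ BO w0 (w - w0) := by
  obtain ⟨m, rfl⟩ := exists_zof hι hz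
  obtain ⟨p0, hp0, rfl⟩ := exists_wof hι hw0.le
  rw [← inf_iff_w] at hw1
  obtain ⟨v, hv, hv1, hv2⟩ := wres hp0 hw1 m
  refine ⟨wof hι (p0 * v) (hp0.mul hv), mem_S_of hι _ hv2, ?_⟩
  rw [wof_mul hι p0 v hp0 hv, add_sub_cancel_left, BO_wof]
  push Not
  exact hv1

theorem res_wz (w : Additive (Gp hι)) (hw : 0 ≤ w) (z0 : Zs ι) (hz0 : 0 < z0)
    (hz1 : ¬ BO z0 1) :
    ∃ z, (z, w) ∈ Srel (1 : Zs ι) (wof hι 2 Pw.two) ∧ ¬ BO z0 (z - z0) := by
  obtain ⟨m0, rfl⟩ := exists_zof hι hz0.le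
  obtain ⟨p, hp, rfl⟩ := exists_wof hι hw
  rw [← inf_iff_z hι] at hz1
  obtain ⟨v, hv1, hv2⟩ := zres hp hz1
  refine ⟨zof ι (m0 + v), mem_S_of hι _ hv2, ?_⟩
  rw [zof_add, add_sub_cancel_left, BO_zof hι]
  push Not
  exact hv1

theorem exists_inf_z : ∃ z : Zs ι, 0 < z ∧ ¬ BO z 1 := by
  obtain ⟨x, hx⟩ := exists_inf (M := M)
  exact ⟨zof ι x, (zof_pos hι).2 (one_pos.trans hx.one_lt), (inf_iff_z hι).1 hx⟩

theorem exists_inf_w : ∃ w : Additive (Gp hι), 0 < w ∧ ¬ BO w (wof hι 2 Pw.two) := by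
  obtain ⟨q, hq, hq2⟩ := wtop (2 : M)
  have hinf : Inf q := by
    rw [inf_iff_w hι hq, BO_wof]
    push Not
    exact hq2
  exact ⟨wof hι q hq, (wof_pos hι hq).2 hinf.one_lt, (inf_iff_w hι hq).1 hinf⟩

end

end Pool.Agent.W894.EIP
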