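import Pool.Agent.W894.EIP.GP

/-!
The ordered group of integers and the ordered group of powers of two are isomorphic.
-/

set_option autoImplicit false
set_option linter.unusedSectionVars false
set_option linter.unusedVariables false

namespace Pool.Agent.W894.EIP

section

variable {M : Type} [CommSemiring M] [LinearOrder M] [IsStrictOrderedRing M]
  [CanonicallyOrderedAdd M] [IDel M] [NPB M]
  {R : Type} [Field R] [LinearOrder R] [IsStrictOrderedRing R] {ι : M →+* R}

theorem exists_floor {a b : M} (hb : 0 < b) {K : ℕ} (hab : a ≤ K * b) (n : ℕ) :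
    ∃ u : ℕ, u * b ≤ n * a ∧ n * a < (u + 1) * b := by
  obtain ⟨U, r, _, hr, hU⟩ := division (n * a) b hb
  have h2 : U ≤ (n * K : ℕ) := by
    refine le_of_mul_le_mul_right ?_ hb
    calc U * b ≤ n * a := by rw [hU, mul_comm]; exact le_self_add
      _ ≤ n * (K * b) := mul_le_mul_right hab _
      _ = ((n * K : ℕ) : M) * b := by push_cast; ring
  obtain ⟨u, _, rfl⟩ := eq_natCast_of_le h2
  refine ⟨u, by rw [hU, mul_comm]; exact le_self_add, ?_⟩
  rw [hU, add_mul, one_mul, mul_comm b]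
  gcongr

theorem exists_log {P x : M} (hP : 1 ≤ P) (hx : 1 ≤ x) {K : ℕ} (h : x < P ^ K) :
    ∃ t : ℕ, P ^ t ≤ x ∧ x < P ^ (t + 1) := by
  classical
  have h0 : P ^ 0 ≤ x := by rw [pow_zero]; exact hx
  have hex := Nat.findGreatest_spec (P := fun c => P ^ c ≤ x) (Nat.zero_le K) h0
  refine ⟨_, hex, ?_⟩
  by_contra hcon
  rw [not_lt] at hcon
  by_cases hK : Nat.findGreatest (fun c => P ^ c ≤ x) K + 1 ≤ K
  · have h3 := Nat.le_findGreatest (P := fun c => P ^ c ≤ x) hK hcon
    omega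
  · have h4 : P ^ K ≤ P ^ (Nat.findGreatest (fun c => P ^ c ≤ x) K + 1) :=
      pow_le_pow_right₀ hP (by omega)
    exact absurd h (not_lt.2 (h4.trans hcon))

variable (hι : StrictMono ι)
include hι

theorem rat_zw (d b : Zs ι) (hb : 0 < b) (hb1 : ¬ BO b 1) (ρ : ℝ) (hρ : ρ ≠ 0)
    (hr : Ratio d b ρ) (b' : Additive (Gp hι)) (hb' : 0 < b')
    (hb1' : ¬ BO b' (wof hι 2 Pw.two)) : ∃ d', Ratio d' b' ρ := by
  have key : ∀ (d : Zs ι) (ρ : ℝ), 0 ≤ d → Ratio d b ρ → ∃ d', Ratio d' b' ρ := by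
    intro d ρ hd hr
    have hBO := BO_of_ratio hb hr
    obtain ⟨a, rfl⟩ := exists_zof hι hd
    obtain ⟨b0, rfl⟩ := exists_zof hι hb.le
    obtain ⟨p, hp, rfl⟩ := exists_wof hι hb'.le
    rw [BO_zof hι] at hBO
    obtain ⟨K, hK⟩ := hBO
    rw [← inf_iff_w] at hb1'
    have hb0 : 0 < b0 := (zof_pos hι).1 hb
    obtain ⟨q, hq, H⟩ := wrat hp hb1' hb0 hK
    refine ⟨wof hι q hq, ratio_of_approx hb' 3 fun n hn => ?_⟩
    obtain ⟨u, hu1, hu2⟩ := exists_floor hb0 hK n
    obtain ⟨h1, h2⟩ := H n hn u hu1 hu2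
    refine ⟨u, ?_, ?_, ?_⟩
    · have g1 : ¬ (n * ρ < u) := by
        intro g
        have := (hr u n hn).2 (by exact_mod_cast g)
        rw [natCast_zsmul, ← zof_nsmul, ← zof_nsmul, zof_lt hι] at this
        exact absurd hu1 (not_le.2 this)
      have g2 : ¬ ((u : ℝ) + 1 < n * ρ) := by
        intro g
        have := (hr (u + 1) n hn).1 (by push_cast; exact g)
        have e : ((u : ℤ) + 1) • zof ι b0 = (u + 1) • zof ι b0 := by
          rw [← natCast_zsmul]; push_cast; rfl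
        rw [e, ← zof_nsmul, ← zof_nsmul, zof_lt hι] at this
        push_cast at this
        exact absurd this (not_lt.2 hu2.le)
      rw [abs_le]
      push_cast
      constructor <;> linarith
    · -- `(u - 3) P ≤ n Q`
      have g1 : u • wof hι p hp ≤ n • wof hι q hq + 2 • wof hι p hp := by
        rw [← wof_pow, ← wof_pow, ← wof_pow, ← wof_mul, wof_le]
        exact h2
      have g2 : ((u : ℤ) - 3) • wof hι p hp ≤ ((u : ℤ) - 2) • wof hι p hp :=
        zsmul_le_zsmul_left hb'.le (by omega)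
      refine g2.trans ?_
      rw [sub_smul, natCast_zsmul]
      have e : (2 : ℤ) • wof hι p hp = 2 • wof hι p hp := by
        rw [← natCast_zsmul]; rfl
      rw [e, sub_le_iff_le_add]
      exact g1
    · have g1 : n • wof hι q hq ≤ (u + 1) • wof hι p hp := by
        rw [← wof_pow, ← wof_pow, wof_le]
        exact h1
      refine g1.trans ?_
      have e : (u + 1) • wof hι p hp = ((u : ℤ) + 1) • wof hι p hp := by
        rw [← natCast_zsmul]; push_cast; rfl
      rw [e]
      exact zsmul_le_zsmul_left hb'.le (by push_cast; omega)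
  rcases le_total 0 d with hd | hd
  · exact key d ρ hd hr
  · obtain ⟨d', hd'⟩ := key (-d) (-ρ) (neg_nonneg.2 hd) hr.neg
    exact ⟨-d', by simpa using hd'.neg⟩

theorem rat_wz (d b : Additive (Gp hι)) (hb : 0 < b) (hb1 : ¬ BO b (wof hι 2 Pw.two)) (ρ : ℝ)
    (hρ : ρ ≠ 0) (hr : Ratio d b ρ) (b' : Zs ι) (hb' : 0 < b') (hb1' : ¬ BO b' 1) :
    ∃ d', Ratio d' b' ρ := by
  have key : ∀ (d : Additive (Gp hι)) (ρ : ℝ), 0 ≤ d → Ratio d b ρ → ∃ d', Ratio d' b' ρ := by
    intro d ρ hd hr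
    have hBO := BO_of_ratio hb hr
    obtain ⟨q, hq, rfl⟩ := exists_wof hι hd
    obtain ⟨p, hp, rfl⟩ := exists_wof hι hb.le
    obtain ⟨m', rfl⟩ := exists_zof hι hb'.le
    rw [BO_wof hι] at hBO
    obtain ⟨K, hK⟩ := hBO
    rw [← inf_iff_z hι] at hb1'
    rw [← inf_iff_w] at hb1
    have hp1 : 1 < p := hb1.one_lt
    have hp2 : 2 ≤ p := by
      have := (hb1 2).le
      exact_mod_cast this
    have hq1 : 1 ≤ q := Disc.out q hq.1
    have hqK : q < p ^ (K + 1) := lt_of_le_of_lt hK (pow_lt_pow_right₀ hp1 (Nat.lt_succ_self K))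
    obtain ⟨n, c, hn, H⟩ := zrat hp2 (a := q) (b := 1) one_pos hq1 (K := K + 1)
      (by rw [mul_one]; exact hqK)
    have hn0 : 0 < n := one_pos.trans hn.one_lt
    obtain ⟨e, r, _, hr', he⟩ := division (c * m') n hn0
    refine ⟨zof ι e, ratio_of_approx hb' 3 fun k hk => ?_⟩
    obtain ⟨t, ht1, ht2⟩ := exists_log (x := q ^ k) hp1.le (one_le_pow₀ hq1) (K := (K + 1) * k) (by
      rw [pow_mul]
      exact pow_lt_pow_left₀ hqK zero_le hk.ne')
    obtain ⟨h1, h2⟩ := H k hk t (by rw [one_pow, mul_one]; exact ht1)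
      (by rw [one_pow, mul_one]; exact ht2)
    have hkn : (k : M) ≤ n := (hn k).le
    have hkm : (k : M) ≤ m' := (hb1' k).le
    refine ⟨t, ?_, ?_, ?_⟩
    · have g1 : ¬ (k * ρ < t) := by
        intro g
        have := (hr t k hk).2 (by exact_mod_cast g)
        rw [natCast_zsmul, ← wof_pow, ← wof_pow, wof_lt] at this
        exact absurd ht1 (not_le.2 this)
      have g2 : ¬ ((t : ℝ) + 1 < k * ρ) := by
        intro g
        have := (hr (t + 1) k hk).1 (by push_cast; exact g)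
        have e : ((t : ℤ) + 1) • wof hι p hp = (t + 1) • wof hι p hp := by
          rw [← natCast_zsmul]; push_cast; rfl
        rw [e, ← wof_pow, ← wof_pow, wof_lt] at this
        exact absurd this (not_lt.2 ht2.le)
      rw [abs_le]
      push_cast
      constructor <;> linarith
    · -- `t m' ≤ k e + 3 m'`
      have g1 : (t : M) * m' ≤ k * e + 3 * m' := by
        refine le_of_mul_le_mul_left ?_ hn0
        calc n * (t * m') = (t * n) * m' := by ring
          _ ≤ (c * k + n + k) * m' := mul_le_mul_left h2 _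
          _ = k * (c * m') + n * m' + k * m' := by ring
          _ = k * (n * e + r) + n * m' + k * m' := by rw [he]
          _ = n * (k * e) + k * r + n * m' + k * m' := by ring
          _ ≤ n * (k * e) + m' * n + n * m' + n * m' := by gcongr
          _ = n * (k * e + 3 * m') := by ring
      have g2 : t • zof ι m' ≤ k • zof ι e + 3 • zof ι m' := by
        rw [← zof_nsmul, ← zof_nsmul, ← zof_nsmul, ← zof_add, zof_le hι]
        exact_mod_cast g1
      rw [sub_smul, natCast_zsmul, sub_le_iff_le_add]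
      have e3 : ((3 : ℕ) : ℤ) • zof ι m' = 3 • zof ι m' := natCast_zsmul _ _
      rw [e3]
      exact g2
    · have g1 : (k : M) * e ≤ (t + 2) * m' := by
        refine le_of_mul_le_mul_left ?_ hn0
        calc n * (k * e) = k * (n * e) := by ring
          _ ≤ k * (n * e + r) := mul_le_mul_right le_self_add _
          _ = c * k * m' := by rw [← he]; ring
          _ ≤ (t * n + n + k) * m' := mul_le_mul_left h1 _
          _ ≤ (t * n + n + n) * m' := by gcongr
          _ = n * ((t + 2) * m') := by ring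
      have g2 : k • zof ι e ≤ (t + 2) • zof ι m' := by
        rw [← zof_nsmul, ← zof_nsmul, zof_le hι]
        push_cast
        exact g1
      refine g2.trans ?_
      have e3 : (t + 2) • zof ι m' = ((t : ℤ) + 2) • zof ι m' := by
        rw [← natCast_zsmul]; push_cast; rfl
      rw [e3]
      exact zsmul_le_zsmul_left hb'.le (by push_cast; omega)
  rcases le_total 0 d with hd | hd
  · exact key d ρ hd hr
  · obtain ⟨d', hd'⟩ := key (-d) (-ρ) (neg_nonneg.2 hd) hr.neg
    exact ⟨-d', by simpa using hd'.neg⟩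

theorem mid_z (lo hi : Zs ι) (h1 : BO 1 lo) (h2 : ¬ BO hi lo) :
    ∃ d' : Zs ι, 0 < d' ∧ ¬ BO d' lo ∧ ¬ BO hi d' := by
  obtain ⟨a, ha⟩ := exists_zof hι (abs_nonneg lo)
  obtain ⟨b, hb⟩ := exists_zof hι (abs_nonneg hi)
  have h1' := h1.abs_right
  rw [ha, ← zof_one (ι := ι), BO_zof hι] at h1'
  obtain ⟨n0, hn0⟩ := h1'
  have ha0 : 0 < a := by
    rw [pos_iff_ne_zero]
    rintro rfl
    rw [mul_zero] at hn0
    exact absurd hn0 (not_le.2 one_pos)
  have h2' : ∀ n : ℕ, (n : M) * a < b := by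
    by_contra hcon
    push Not at hcon
    apply h2
    apply BO.of_abs_left
    apply BO.of_abs_right
    rw [ha, hb, BO_zof hι]
    exact hcon
  obtain ⟨c, _, _, hc1, hc2⟩ := greatest (P := fun c => c * c ≤ a * b)
    (DP.le (by fun_prop) (by fun_prop)) (a := 0) (b := a * b) (by simp) zero_le
  have hc3 : a * b < (c + 1) * (c + 1) := by
    by_contra hcon
    rw [not_lt] at hcon
    refine hc2 (c + 1) (lt_add_one c) ?_ hcon
    refine le_trans ?_ hcon
    exact le_mul_of_one_le_right zero_le le_add_self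
  have hb0 : 0 < b := lt_of_le_of_lt zero_le (h2' 0)
  have hac : ∀ n : ℕ, (n : M) * a < c := by
    intro n
    by_contra hcon
    rw [not_lt] at hcon
    have e1 : c + 1 ≤ (n + 1) * a := by
      calc c + 1 ≤ n * a + a := add_le_add hcon (Disc.out a ha0)
        _ = (n + 1) * a := by ring
    have e2 : a * b < a * ((((n + 1) * (n + 1) : ℕ) : M) * a) := by
      calc a * b < (c + 1) * (c + 1) := hc3
        _ ≤ ((n + 1) * a) * ((n + 1) * a) := mul_le_mul' e1 e1
        _ = a * ((((n + 1) * (n + 1) : ℕ) : M) * a) := by push_cast; ring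
    have e3 := lt_of_mul_lt_mul_left e2 zero_le
    exact absurd (h2' _) (not_lt.2 e3.le)
  have hcb : ∀ n : ℕ, (n : M) * c < b := by
    intro n
    by_contra hcon
    rw [not_lt] at hcon
    have e1 : b * b ≤ b * (((n * n : ℕ) : M) * a) := by
      calc b * b ≤ (n * c) * (n * c) := mul_le_mul' hcon hcon
        _ = ((n * n : ℕ) : M) * (c * c) := by push_cast; ring
        _ ≤ ((n * n : ℕ) : M) * (a * b) := mul_le_mul_right hc1 _
        _ = b * (((n * n : ℕ) : M) * a) := by ring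
    have e2 := le_of_mul_le_mul_left e1 hb0
    exact absurd (h2' _) (not_lt.2 e2)
  refine ⟨zof ι c, (zof_pos hι).2 (lt_of_le_of_lt zero_le (hac 0)), ?_, ?_⟩
  · intro h
    have := h.abs_right
    rw [ha, BO_zof hι] at this
    obtain ⟨n, hn⟩ := this
    exact absurd (hac n) (not_lt.2 hn)
  · intro h
    have := h.abs_left
    rw [hb, BO_zof hι] at this
    obtain ⟨n, hn⟩ := this
    exact absurd (hcb n) (not_lt.2 hn)

theorem top_z (lo : Zs ι) : ∃ d' : Zs ι, 0 < d' ∧ ¬ BO d' lo := by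
  obtain ⟨a, ha⟩ := exists_zof hι (abs_nonneg lo)
  obtain ⟨x, hx⟩ := exists_inf (M := M)
  have hx0 : 0 < x := one_pos.trans hx.one_lt
  refine ⟨zof ι ((a + 1) * x), (zof_pos hι).2 (mul_pos (lt_of_lt_of_le one_pos le_add_self) hx0), ?_⟩
  intro h
  have := h.abs_right
  rw [ha, BO_zof hι] at this
  obtain ⟨n, hn⟩ := this
  have h1 : (n : M) * a ≤ a * x := by
    rw [mul_comm]
    exact mul_le_mul_right (hx n).le a
  have h2 : a * x < (a + 1) * x := mul_lt_mul_of_pos_right (lt_add_one a) hx0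
  exact absurd (hn.trans h1) (not_le.2 h2)

theorem mid_w (lo hi : Additive (Gp hι)) (h1 : BO (wof hι 2 Pw.two) lo) (h2 : ¬ BO hi lo) :
    ∃ d' : Additive (Gp hι), 0 < d' ∧ ¬ BO d' lo ∧ ¬ BO hi d' := by
  obtain ⟨p, hp, hlo⟩ := exists_wof hι (abs_nonneg lo)
  obtain ⟨q, hq, hhi⟩ := exists_wof hι (abs_nonneg hi)
  have h1' := h1.abs_right
  rw [hlo, BO_wof hι] at h1'
  obtain ⟨n0, hn0⟩ := h1'
  have hp1 : p ≠ 1 := by
    rintro rfl
    rw [one_pow] at hn0
    exact absurd hn0 (not_le.2 one_lt_two)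
  have hp1' : 1 < p := lt_of_le_of_ne (Disc.out p hp.1) (Ne.symm hp1)
  have hp2 : 2 ≤ p := by
    have := add_one_le_iff'.2 hp1'
    rwa [one_add_one_eq_two] at this
  have h2' : ∀ n : ℕ, p ^ n < q := by
    by_contra hcon
    push Not at hcon
    apply h2
    apply BO.of_abs_left
    apply BO.of_abs_right
    rw [hlo, hhi, BO_wof hι]
    exact hcon
  obtain ⟨s, hs, H⟩ := wmid hp hp2 h2'
  have hs1 : 1 < s := hp1'.trans_le (by
    have := (H 1).1
    rwa [pow_one] at this)
  refine ⟨wof hι s hs, (wof_pos hι hs).2 hs1, ?_, ?_⟩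
  · intro h
    have := h.abs_right
    rw [hlo, BO_wof hι] at this
    obtain ⟨n, hn⟩ := this
    have h3 : p ^ n < p ^ (n + 1) := pow_lt_pow_right₀ hp1' (Nat.lt_succ_self n)
    exact absurd (hn.trans_lt h3) (not_lt.2 (H (n + 1)).1)
  · intro h
    have := h.abs_left
    rw [hhi, BO_wof hι] at this
    obtain ⟨n, hn⟩ := this
    have h3 : s ^ n < s ^ (n + 1) := pow_lt_pow_right₀ hs1 (Nat.lt_succ_self n)
    exact absurd (hn.trans_lt h3) (not_lt.2 (H (n + 1)).2)

theorem top_w (lo : Additive (Gp hι)) : ∃ d' : Additive (Gp hι), 0 < d' ∧ ¬ BO d' lo := by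
  obtain ⟨p, hp, hlo⟩ := exists_wof hι (abs_nonneg lo)
  obtain ⟨q, hq, H⟩ := wtop p
  refine ⟨wof hι q hq, (wof_pos hι hq).2 (by
    have := H 0
    rwa [pow_zero] at this), ?_⟩
  intro h
  have := h.abs_right
  rw [hlo, BO_wof hι] at this
  obtain ⟨n, hn⟩ := this
  exact absurd (H n) (not_lt.2 hn)

theorem tot_of_res {V W : Type} [AddCommGroup V] [LinearOrder V] [IsOrderedAddMonoid V]
    [AddCommGroup W] [LinearOrder W] [IsOrderedAddMonoid W] {S : Submodule ℤ (V × W)} {v : W}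
    (h : ∀ z : V, ∀ w0 : W, 0 < w0 → ¬ BO w0 v → ∃ w, (z, w) ∈ S ∧ ¬ BO w0 (w - w0))
    (hW : ∃ w0 : W, 0 < w0 ∧ ¬ BO w0 v) (z : V) : ∃ w, (z, w) ∈ S := by
  obtain ⟨w0, h1, h2⟩ := hW
  obtain ⟨w, h3, _⟩ := h z w0 h1 h2
  exact ⟨w, h3⟩

theorem half_zw : Half (Srel (1 : Zs ι) (wof hι 2 Pw.two)) ⊤ ⊤ (1 : Zs ι) (wof hι 2 Pw.two) := by
  have hres := res_all (u := (1 : Zs ι)) (v := wof hι 2 Pw.two) (z_one_pos hι) (res_zw hι)
    (res_wz hι) (exists_inf_z hι)
  constructor
  · exact tot_of_res hι hres (exists_inf_w hι)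
  · exact fun n hn x y h => div_gen (z_one_pos hι) (base_z hι) n hn x y h
  · intro x y _
    simp
  · intro x y _ h
    exact absurd (AddSubgroup.mem_top x) h
  · intro x y _ _
    exact AddSubgroup.mem_top x
  · exact AddSubgroup.mem_top _
  · exact base_z hι
  · intro z _ w0 _ h1 h2
    obtain ⟨w, h3, h4⟩ := hres z w0 h1 h2
    exact ⟨w, AddSubgroup.mem_top _, h3, h4⟩
  · intro d _ b _ hb hb1 ρ hρ hr b' _ hb' hb1'
    obtain ⟨d', h⟩ := rat_zw hι d b hb hb1 ρ hρ hr b' hb' hb1'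
    exact ⟨d', AddSubgroup.mem_top _, h⟩
  · intro lo _ hi _ h1 h2
    obtain ⟨d', h⟩ := mid_w hι lo hi h1 h2
    exact ⟨d', AddSubgroup.mem_top _, h⟩
  · intro lo _
    obtain ⟨d', h⟩ := top_w hι lo
    exact ⟨d', AddSubgroup.mem_top _, h⟩

theorem half_wz : Half (sw (Srel (1 : Zs ι) (wof hι 2 Pw.two))) ⊤ ⊤ (wof hι 2 Pw.two)
    (1 : Zs ι) := by
  rw [sw_Srel]
  have hsw : ∀ {z : Zs ι} {w : Additive (Gp hι)}, (z, w) ∈ Srel (1 : Zs ι) (wof hι 2 Pw.two) ↔
      (w, z) ∈ Srel (wof hι 2 Pw.two) (1 : Zs ι) := by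
    intro z w
    rw [← sw_Srel, mem_sw]
  have hres := res_all (u := wof hι 2 Pw.two) (v := (1 : Zs ι)) (w_two_pos hι)
    (fun w hw z0 h1 h2 => by
      obtain ⟨z, h3, h4⟩ := res_wz hι w hw z0 h1 h2
      exact ⟨z, hsw.1 h3, h4⟩)
    (fun z hz w0 h1 h2 => by
      obtain ⟨w, h3, h4⟩ := res_zw hι z hz w0 h1 h2
      exact ⟨w, hsw.1 h3, h4⟩) (exists_inf_w hι)
  constructor
  · exact tot_of_res hι hres (exists_inf_z hι)
  · exact fun n hn x y h => div_gen (w_two_pos hι) (base_w hι) n hn x y h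
  · intro x y _
    simp
  · intro x y _ h
    exact absurd (AddSubgroup.mem_top x) h
  · intro x y _ _
    exact AddSubgroup.mem_top x
  · exact AddSubgroup.mem_top _
  · exact base_w hι
  · intro z _ w0 _ h1 h2
    obtain ⟨w, h3, h4⟩ := hres z w0 h1 h2
    exact ⟨w, AddSubgroup.mem_top _, h3, h4⟩
  · intro d _ b _ hb hb1 ρ hρ hr b' _ hb' hb1'
    obtain ⟨d', h⟩ := rat_wz hι d b hb hb1 ρ hρ hr b' hb' hb1'
    exact ⟨d', AddSubgroup.mem_top _, h⟩
  · intro lo _ hi _ h1 h2
    obtain ⟨d', h⟩ := mid_z hι lo hi h1 h2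
    exact ⟨d', AddSubgroup.mem_top _, h⟩
  · intro lo _
    obtain ⟨d', h⟩ := top_z hι lo
    exact ⟨d', AddSubgroup.mem_top _, h⟩

/-- the isomorphism between the integers and the powers of two -/
theorem exists_g [Countable R] : ∃ g : Zs ι ≃+ Additive (Gp hι), StrictMono g ∧
    g 1 = wof hι 2 Pw.two := by
  have : Countable (Additive (Gp hι)) := by
    have h1 : Function.Injective (fun w : Additive (Gp hι) => val w) := fun a b h => val_inj h
    exact h1.countable
  obtain ⟨f, h1, _, h2⟩ := bf (half_zw hι) (half_wz hι) (base_mem_Srel _ _) (z_one_pos hι).le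
    (w_two_pos hι).le (by simp only [z_one_pos hι, w_two_pos hι])
  exact ⟨f, h1, h2⟩

end

end Pool.Agent.W894.EIP
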