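import Pool.Agent.W894.EIP.St

/-!
The group of finite elements and the group of finite positive units are isomorphic.
-/

set_option autoImplicit false
set_option linter.unusedSectionVars false
set_option linter.unusedVariables false

namespace Pool.Agent.W894.EIP

section

variable {R : Type} [Field R] [LinearOrder R] [IsStrictOrderedRing R]

theorem exists_mid [IsRealClosed R] {l h : R} (hl : 0 ≤ l) (hh : Ifl h) (hh0 : 0 < h)
    (H : ∀ n : ℕ, (n : R) * l < h) :
    ∃ g, 0 < g ∧ Ifl g ∧ (∀ n : ℕ, (n : R) * l < g) ∧ ∀ n : ℕ, (n : R) * g < h := by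
  rcases hl.eq_or_lt with h0 | h0
  · subst h0
    refine ⟨h * h, mul_pos hh0 hh0, hh.mul hh.1, fun n => by rw [mul_zero]; exact mul_pos hh0 hh0,
      fun n => ?_⟩
    have h1 := ifl_iff.1 hh n
    rw [abs_of_pos hh0] at h1
    calc (n : R) * (h * h) = (n * h) * h := by ring
      _ < 1 * h := mul_lt_mul_of_pos_right h1 hh0
      _ = h := one_mul h
  · obtain ⟨g0, hg0⟩ := IsRealClosed.exists_eq_pow_of_nonneg (mul_pos h0 hh0).le two_ne_zero
    obtain ⟨g, hg⟩ : ∃ g, g = |g0| := ⟨_, rfl⟩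
    have hg2 : l * h = g ^ 2 := by rw [hg, sq_abs, hg0]
    have hgn : 0 ≤ g := by rw [hg]; exact abs_nonneg _
    have hgp : 0 < g := by
      refine lt_of_le_of_ne hgn ?_
      rintro rfl
      have := mul_pos h0 hh0
      rw [hg2] at this
      norm_num at this
    have h1 : ∀ n : ℕ, (n : R) * l < g := by
      intro n
      refine lt_of_pow_lt_pow_left₀ 2 hgn ?_
      rw [← hg2]
      have h2 := H (n * n)
      push_cast at h2
      calc (n * l) ^ 2 = l * (n * n * l) := by ring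
        _ < l * h := mul_lt_mul_of_pos_left h2 h0
    have h2 : ∀ n : ℕ, (n : R) * g < h := by
      intro n
      refine lt_of_pow_lt_pow_left₀ 2 hh0.le ?_
      have h2 := H (n * n)
      push_cast at h2
      calc (n * g) ^ 2 = n * n * g ^ 2 := by ring
        _ = (n * n * l) * h := by rw [← hg2]; ring
        _ < h * h := mul_lt_mul_of_pos_right h2 hh0
        _ = h ^ 2 := by ring
    refine ⟨g, hgp, hh.mono ?_, h1, h2⟩
    rw [abs_of_pos hgp, abs_of_pos hh0]
    have := (h2 1).le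
    rwa [Nat.cast_one, one_mul] at this

theorem exists_top [IsRealClosed R] {l : R} (hl : 0 ≤ l) (hl' : Ifl l) (hx : ∃ x : R, 0 < x ∧ Ifl x) :
    ∃ g, 0 < g ∧ Ifl g ∧ ∀ n : ℕ, (n : R) * l < g := by
  rcases hl.eq_or_lt with h0 | h0
  · subst h0
    obtain ⟨x, h1, h2⟩ := hx
    exact ⟨x, h1, h2, fun n => by rw [mul_zero]; exact h1⟩
  · obtain ⟨g0, hg0⟩ := IsRealClosed.exists_eq_pow_of_nonneg hl two_ne_zero
    obtain ⟨g, hg⟩ : ∃ g, g = |g0| := ⟨_, rfl⟩
    have hg2 : l = g ^ 2 := by rw [hg, sq_abs, hg0]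
    have hgn : 0 ≤ g := by rw [hg]; exact abs_nonneg _
    have hgp : 0 < g := by
      refine lt_of_le_of_ne hgn ?_
      rintro rfl
      rw [hg2] at h0
      norm_num at h0
    have hgi : ∀ n : ℕ, (n : R) * g < 1 := by
      intro n
      refine lt_of_pow_lt_pow_left₀ 2 zero_le_one ?_
      have h2 := ifl_iff.1 hl' (n * n)
      rw [abs_of_pos h0] at h2
      push_cast at h2
      calc (n * g) ^ 2 = n * n * l := by rw [hg2]; ring
        _ < 1 ^ 2 := by rw [one_pow]; exact h2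
    refine ⟨g, hgp, ifl_iff.2 fun n => by rw [abs_of_pos hgp]; exact hgi n, fun n => ?_⟩
    calc (n : R) * l = (n * g) * g := by rw [hg2]; ring
      _ < 1 * g := mul_lt_mul_of_pos_right (hgi n) hgp
      _ = g := one_mul g

theorem ratio_unique {V : Type*} [AddCommGroup V] [LinearOrder V] [IsOrderedAddMonoid V] {x b : V}
    {ρ ρ' : ℝ} (h : Ratio x b ρ) (h' : Ratio x b ρ') : ρ = ρ' := by
  have key : ∀ ρ ρ' : ℝ, Ratio x b ρ → Ratio x b ρ' → ¬ ρ < ρ' := by
    intro ρ ρ' h h' hlt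
    obtain ⟨q, hq1, hq2⟩ := exists_rat_btwn hlt
    have hqd : (0 : ℝ) < q.den := by exact_mod_cast q.den_pos
    have hq3 : (q : ℝ) = q.num / q.den := by
      exact_mod_cast (Rat.num_div_den q).symm
    rw [hq3] at hq1 hq2
    rw [lt_div_iff₀ hqd] at hq1
    rw [div_lt_iff₀ hqd] at hq2
    have h1 := (h q.num q.den q.den_pos).2 (by linarith)
    have h2 := (h' q.num q.den q.den_pos).1 (by linarith)
    exact absurd h1 (not_lt.2 h2.le)
  rcases lt_trichotomy ρ ρ' with h1 | h1 | h1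
  · exact absurd h1 (key _ _ h h')
  · exact h1
  · exact absurd h1 (key _ _ h' h)

/-- the group of finite elements -/
def Vf (R : Type) [Field R] [LinearOrder R] [IsStrictOrderedRing R] : AddSubgroup R where
  carrier := {x | Fi x}
  add_mem' h h' := Fi.add h h'
  zero_mem' := Fi.zero
  neg_mem' h := Fi.neg h

/-- the group of finite positive units -/
def Uf (R : Type) [Field R] [LinearOrder R] [IsStrictOrderedRing R] :
    Subgroup {x : R // 0 < x} where
  carrier := {x | st x.1 ≠ 0}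
  mul_mem' := by
    rintro ⟨x, hx⟩ ⟨y, hy⟩ h h'
    change st (x * y) ≠ 0
    change st x ≠ 0 at h
    change st y ≠ 0 at h'
    rw [st_mul (Fi.of_st h) (Fi.of_st h')]
    exact mul_ne_zero h h'
  one_mem' := by
    change st (1 : R) ≠ 0
    rw [st_one]; exact one_ne_zero
  inv_mem' := by
    rintro ⟨x, hx⟩ h
    change st x⁻¹ ≠ 0
    change st x ≠ 0 at h
    rw [st_inv]
    exact inv_ne_zero h

/-- the unit `x` -/
def uof (x : R) (hx : 0 < x) (h : st x ≠ 0) : Additive (Uf R) := Additive.ofMul ⟨⟨x, hx⟩, h⟩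

theorem val_uof (x : R) (hx : 0 < x) (h : st x ≠ 0) : val (uof x hx h) = x := rfl

theorem Uf.st_ne (w : Additive (Uf R)) : st (val w) ≠ 0 := (Additive.toMul w : Uf R).2

theorem Uf.fi (w : Additive (Uf R)) : Fi (val w) := Fi.of_st (Uf.st_ne w)

theorem Uf.st_pos (w : Additive (Uf R)) : 0 < st (val w) :=
  lt_of_le_of_ne (st_nonneg (val_pos w).le) (Uf.st_ne w).symm

/-- integer multiples, that is, powers, of units near one -/
theorem zsmul_ifl {w : Additive (Uf R)} (hw : Ifl (val w - 1)) (u : ℤ) :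
    ∃ ε, Ifl ε ∧ val (u • w) - 1 = u * (val w - 1) * (1 + ε) := by
  obtain ⟨δ, hδ⟩ : ∃ δ, δ = val w - 1 := ⟨_, rfl⟩
  rw [← hδ] at hw ⊢
  have hv : val w = 1 + δ := by rw [hδ]; ring
  obtain ⟨n, rfl | rfl⟩ := u.eq_nat_or_neg
  · obtain ⟨ε, h1, h2⟩ := pow_ifl hw n
    refine ⟨ε, h1, ?_⟩
    rw [natCast_zsmul, val_nsmul, hv, h2]
    push_cast
    ring
  · obtain ⟨ε, h1, h2⟩ := pow_ifl hw n
    have h3 : Ifl (n * δ * (1 + ε)) := (Ifl.mul' (Fi.nat n) hw).mul (Fi.one.add h1.1)
    obtain ⟨ε', h4, h5⟩ := inv_ifl h3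
    refine ⟨ε + (1 + ε) * ε', h1.add (Ifl.mul' (Fi.one.add h1.1) h4), ?_⟩
    rw [neg_smul, natCast_zsmul, val_neg, val_nsmul, hv, h2, h5]
    push_cast
    ring

theorem val_one_lt {w : Additive (Uf R)} : 0 < val w - 1 ↔ 0 < w := by
  rw [sub_pos, ← val_zero (G := Uf R), val_lt]

theorem ratio_v {d b q : R} (hb : 0 < b) (hq : Fi q) (h : d = b * q) (u : ℤ) (n : ℕ) (hn : 0 < n) :
    ((u : ℝ) < n * st q → u * b < n * d) ∧ (n * st q < u → n * d < u * b) := by
  have hu : Fi (u : R) := by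
    obtain ⟨k, rfl | rfl⟩ := u.eq_nat_or_neg
    · push_cast; exact Fi.nat k
    · push_cast; exact (Fi.nat k).neg
  have hsu : st (u : R) = u := by
    obtain ⟨k, rfl | rfl⟩ := u.eq_nat_or_neg
    · push_cast; exact st_nat k
    · push_cast; rw [st_neg, st_nat]
  have hnq : st (n * q) = n * st q := by rw [st_mul (Fi.nat n) hq, st_nat]
  constructor
  · intro h1
    have h2 : (u : R) < n * q := lt_of_st hu ((Fi.nat n).mul hq) (by rw [hsu, hnq]; exact h1)
    calc (u : R) * b < (n * q) * b := mul_lt_mul_of_pos_right h2 hb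
      _ = n * d := by rw [h]; ring
  · intro h1
    have h2 : n * q < (u : R) := lt_of_st ((Fi.nat n).mul hq) hu (by rw [hsu, hnq]; exact h1)
    calc n * d = (n * q) * b := by rw [h]; ring
      _ < u * b := mul_lt_mul_of_pos_right h2 hb

theorem fi_int (u : ℤ) : Fi (u : R) := by
  obtain ⟨k, rfl | rfl⟩ := u.eq_nat_or_neg
  · push_cast; exact Fi.nat k
  · push_cast; exact (Fi.nat k).neg

theorem st_int (u : ℤ) : st (u : R) = u := by
  obtain ⟨k, rfl | rfl⟩ := u.eq_nat_or_neg
  · push_cast; exact st_nat k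
  · push_cast; rw [st_neg, st_nat]

theorem ratio_w {d b : Additive (Uf R)} (hb : Ifl (val b - 1)) (hb0 : 0 < b) {q : R} (hq : Fi q)
    (h : val d - 1 = (val b - 1) * q) : Ratio d b (st q) := by
  have hd : Ifl (val d - 1) := by rw [h]; exact hb.mul hq
  have hb1 : 0 < val b - 1 := val_one_lt.2 hb0
  intro u n hn
  obtain ⟨ε1, h1, h1'⟩ := zsmul_ifl hd n
  obtain ⟨ε2, h2, h2'⟩ := zsmul_ifl hb u
  rw [natCast_zsmul] at h1'
  rw [h] at h1'
  have f1 : Fi ((n : R) * q * (1 + ε1)) := ((Fi.nat n).mul hq).mul (Fi.one.add h1.1)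
  have f2 : Fi ((u : R) * (1 + ε2)) := (fi_int u).mul (Fi.one.add h2.1)
  have s1 : st ((n : R) * q * (1 + ε1)) = n * st q := by
    rw [st_mul ((Fi.nat n).mul hq) (Fi.one.add h1.1), st_mul (Fi.nat n) hq, st_nat, st_one_add h1,
      mul_one]
  have s2 : st ((u : R) * (1 + ε2)) = u := by
    rw [st_mul (fi_int u) (Fi.one.add h2.1), st_int, st_one_add h2, mul_one]
  constructor
  · intro h3
    rw [← val_lt, ← sub_lt_sub_iff_right (1 : R), h1', h2']
    have h4 := lt_of_st f2 f1 (by rw [s1, s2]; exact h3)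
    have := mul_lt_mul_of_pos_left h4 hb1
    calc (u : R) * (val b - 1) * (1 + ε2) = (val b - 1) * (u * (1 + ε2)) := by ring
      _ < (val b - 1) * (n * q * (1 + ε1)) := this
      _ = ((n : ℤ) : R) * ((val b - 1) * q) * (1 + ε1) := by push_cast; ring
  · intro h3
    rw [← val_lt, ← sub_lt_sub_iff_right (1 : R), h1', h2']
    have h4 := lt_of_st f1 f2 (by rw [s1, s2]; exact h3)
    have := mul_lt_mul_of_pos_left h4 hb1
    calc ((n : ℤ) : R) * ((val b - 1) * q) * (1 + ε1) = (val b - 1) * (n * q * (1 + ε1)) := by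
          push_cast; ring
      _ < (val b - 1) * (u * (1 + ε2)) := this
      _ = (u : R) * (val b - 1) * (1 + ε2) := by ring

/-- comparison of units near one -/
theorem BO_w {w w' : Additive (Uf R)} (hw : Ifl (val w - 1)) (hw0 : 0 ≤ w)
    (hw' : Ifl (val w' - 1)) (hw0' : 0 ≤ w') :
    BO w w' ↔ ∃ n : ℕ, val w - 1 ≤ n * (val w' - 1) := by
  have h0' : 0 ≤ val w' - 1 := by
    rw [sub_nonneg, ← val_zero (G := Uf R), val_le]; exact hw0'
  constructor
  · rintro ⟨n, hn⟩
    rw [abs_of_nonneg hw0, abs_of_nonneg hw0'] at hn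
    obtain ⟨ε, h1, h2⟩ := zsmul_ifl hw' n
    rw [natCast_zsmul] at h2
    refine ⟨n * 2, ?_⟩
    have h3 : val w - 1 ≤ val (n • w') - 1 := by
      rw [sub_le_sub_iff_right, val_le]; exact hn
    rw [h2] at h3
    refine h3.trans ?_
    have h4 : 1 + ε ≤ 2 := by
      have := (abs_lt.1 h1.lt_one).2
      linarith
    push_cast
    calc (n : R) * (val w' - 1) * (1 + ε) ≤ n * (val w' - 1) * 2 := by
          apply mul_le_mul_of_nonneg_left h4
          exact mul_nonneg (Nat.cast_nonneg n) h0'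
      _ = n * 2 * (val w' - 1) := by ring
  · rintro ⟨n, hn⟩
    refine ⟨n * 2, ?_⟩
    rw [abs_of_nonneg hw0, abs_of_nonneg hw0']
    obtain ⟨ε, h1, h2⟩ := zsmul_ifl hw' (n * 2 : ℕ)
    rw [natCast_zsmul] at h2
    rw [← val_le, ← sub_le_sub_iff_right (1 : R), h2]
    refine hn.trans ?_
    have h4 : 1 / 2 ≤ 1 + ε := by
      have h5 := (abs_lt.1 (h1.lt (y := 1 / 2) ?_ ?_)).1
      · linarith
      · exact Fi.mono Fi.one (by rw [abs_one, abs_of_pos] <;> norm_num)
      · rw [one_div, st_inv]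
        have := st_nat (R := R) 2
        push_cast at this
        rw [this]
        norm_num
    push_cast
    calc (n : R) * (val w' - 1) = n * 2 * (val w' - 1) * (1 / 2) := by ring
      _ ≤ n * 2 * (val w' - 1) * (1 + ε) := by
          apply mul_le_mul_of_nonneg_left h4
          exact mul_nonneg (mul_nonneg (Nat.cast_nonneg n) zero_le_two) h0'

end

end Pool.Agent.W894.EIP
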