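import Pool.Agent.W894.EIP.Hp

/-!
The group of finite elements and the group of finite positive units are isomorphic.
-/

set_option autoImplicit false
set_option linter.unusedSectionVars false
set_option linter.unusedVariables false

namespace Pool.Agent.W894.EIP

section

variable {R : Type} [Field R] [LinearOrder R] [IsStrictOrderedRing R]

/-- the relation between finite elements and units: the unit is the exponential, up to
infinitesimals -/
def Sst (R : Type) [Field R] [LinearOrder R] [IsStrictOrderedRing R] :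
    Submodule ℤ (Vf R × Additive (Uf R)) :=
  AddSubgroup.toIntSubmodule
    { carrier := {p | (2 : ℝ) ^ (st (p.1 : R)) = st (val p.2)}
      add_mem' := by
        rintro ⟨x, y⟩ ⟨x', y'⟩ h h'
        change (2 : ℝ) ^ (st ((x : R) + (x' : R))) = st (val y * val y')
        change (2 : ℝ) ^ (st (x : R)) = st (val y) at h
        change (2 : ℝ) ^ (st (x' : R)) = st (val y') at h'
        rw [st_add x.2 x'.2, st_mul (Uf.fi y) (Uf.fi y'), Real.rpow_add two_pos, h, h']
      zero_mem' := by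
        change (2 : ℝ) ^ (st (0 : R)) = st (1 : R)
        rw [st_zero, st_one, Real.rpow_zero]
      neg_mem' := by
        rintro ⟨x, y⟩ h
        change (2 : ℝ) ^ (st (-(x : R))) = st (val y)⁻¹
        change (2 : ℝ) ^ (st (x : R)) = st (val y) at h
        rw [st_neg, st_inv, Real.rpow_neg two_pos.le, h] }

theorem mem_Sst {x : Vf R} {y : Additive (Uf R)} :
    (x, y) ∈ Sst R ↔ (2 : ℝ) ^ (st (x : R)) = st (val y) := Iff.rfl

/-- infinitesimals -/
def V0s (R : Type) [Field R] [LinearOrder R] [IsStrictOrderedRing R] : AddSubgroup (Vf R) where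
  carrier := {x | Ifl (x : R)}
  add_mem' h h' := Ifl.add h h'
  zero_mem' := Ifl.zero
  neg_mem' h := Ifl.neg h

theorem mem_V0s {x : Vf R} : x ∈ V0s R ↔ Ifl (x : R) := Iff.rfl

theorem mem_V0s' {x : Vf R} : x ∈ V0s R ↔ st (x : R) = 0 := ⟨fun h => h.2, fun h => ⟨x.2, h⟩⟩

/-- units near one -/
def W0s (R : Type) [Field R] [LinearOrder R] [IsStrictOrderedRing R] :
    AddSubgroup (Additive (Uf R)) where
  carrier := {w | st (val w) = 1}
  add_mem' := by
    intro a b h h'
    change st (val a * val b) = 1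
    change st (val a) = 1 at h
    change st (val b) = 1 at h'
    rw [st_mul (Uf.fi a) (Uf.fi b), h, h', one_mul]
  zero_mem' := st_one
  neg_mem' := by
    intro a h
    change st (val a)⁻¹ = 1
    change st (val a) = 1 at h
    rw [st_inv, h, inv_one]

theorem mem_W0s' {w : Additive (Uf R)} : w ∈ W0s R ↔ st (val w) = 1 := Iff.rfl

theorem mem_W0s {w : Additive (Uf R)} : w ∈ W0s R ↔ Ifl (val w - 1) := by
  rw [mem_W0s']
  constructor
  · exact fun h => Ifl.of_st_one (Uf.fi w) h
  · intro h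
    have h1 := h.2
    rw [st_sub (Uf.fi w) Fi.one, st_one] at h1
    linarith

theorem coe_abs (x : Vf R) : ((|x| : Vf R) : R) = |(x : R)| := by
  rcases le_total 0 x with h | h
  · have h' : 0 ≤ (x : R) := h
    rw [abs_of_nonneg h, abs_of_nonneg h']
  · have h' : (x : R) ≤ 0 := h
    rw [abs_of_nonpos h, abs_of_nonpos h']
    rfl

theorem BO_vf {x y : Vf R} : BO x y ↔ ∃ n : ℕ, |(x : R)| ≤ n * |(y : R)| := by
  unfold BO
  refine exists_congr fun n => ?_
  rw [← coe_abs, ← coe_abs, ← nsmul_eq_mul]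
  rfl

theorem ratio_vf {d b : Vf R} (hb : 0 < b) {q : R} (hq : Fi q) (h : (d : R) = b * q) :
    Ratio d b (st q) := by
  intro u n hn
  have h1 := ratio_v (d := (d : R)) (b := (b : R)) hb hq h u n hn
  have e1 : ((u • b : Vf R) : R) = u * (b : R) := by
    rw [← zsmul_eq_mul]; rfl
  have e2 : ((n • d : Vf R) : R) = n * (d : R) := by
    rw [← nsmul_eq_mul]; rfl
  rw [← e1, ← e2] at h1
  exact h1

/-- elements of `W0s` from infinitesimals -/
theorem exists_w {δ : R} (hδ : Ifl δ) : ∃ w ∈ W0s R, val w - 1 = δ := by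
  have h1 : st (1 + δ) = 1 := st_one_add hδ
  refine ⟨uof (1 + δ) hδ.one_add_pos (by rw [h1]; exact one_ne_zero), ?_, ?_⟩
  · rw [mem_W0s', val_uof, h1]
  · rw [val_uof]; ring

theorem W0s_abs {w : Additive (Uf R)} (h : w ∈ W0s R) : |w| ∈ W0s R := by
  rcases abs_choice w with h4 | h4 <;> rw [h4]
  · exact h
  · exact (W0s R).neg_mem h

theorem sub_one_nonneg {w : Additive (Uf R)} (h : 0 ≤ w) : 0 ≤ val w - 1 := by
  rw [sub_nonneg, ← val_zero (G := Uf R), val_le]; exact h

theorem half_vw_sm {x : Vf R} {y : Additive (Uf R)} (h : (x, y) ∈ Sst R) :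
    x ∈ V0s R ↔ y ∈ W0s R := by
  rw [mem_Sst] at h
  rw [mem_V0s', mem_W0s', ← h]
  constructor
  · intro h1
    rw [h1, Real.rpow_zero]
  · intro h1
    rcases lt_trichotomy (st (x : R)) 0 with h2 | h2 | h2
    · exact absurd h1 (Real.rpow_lt_one_of_one_lt_of_neg one_lt_two h2).ne
    · exact h2
    · exact absurd h1 (Real.one_lt_rpow one_lt_two h2).ne'

theorem half_vw_sgn {x : Vf R} {y : Additive (Uf R)} (h : (x, y) ∈ Sst R) (hx : x ∉ V0s R) :
    0 < x ↔ 0 < y := by
  rw [mem_Sst] at h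
  rw [mem_V0s'] at hx
  have hx1 : 0 < x ↔ 0 < st (x : R) := by
    constructor
    · intro h1
      have h1' : 0 ≤ (x : R) := le_of_lt h1
      exact lt_of_le_of_ne (st_nonneg h1') (Ne.symm hx)
    · intro h1
      have : (0 : R) < x := lt_of_st Fi.zero x.2 (by rw [st_zero]; exact h1)
      exact this
  have hy1 : 0 < y ↔ 1 < st (val y) := by
    rw [← val_lt, val_zero]
    constructor
    · intro h1
      have h2 := st_mono Fi.one (Uf.fi y) h1.le
      rw [st_one] at h2
      refine lt_of_le_of_ne h2 ?_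
      intro h3
      rw [← h3] at h
      apply hx
      rcases lt_trichotomy (st (x : R)) 0 with h2 | h2 | h2
      · exact absurd h (Real.rpow_lt_one_of_one_lt_of_neg one_lt_two h2).ne
      · exact h2
      · exact absurd h (Real.one_lt_rpow one_lt_two h2).ne'
    · intro h1
      exact lt_of_st Fi.one (Uf.fi y) (by rw [st_one]; exact h1)
  rw [hx1, hy1, ← h]
  constructor
  · intro h1
    exact Real.one_lt_rpow one_lt_two h1
  · intro h1
    by_contra hcon
    rw [not_lt] at hcon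
    exact absurd h1 (not_lt.2 (Real.rpow_le_one_of_one_le_of_nonpos one_le_two hcon))

theorem half_vw [IsRealClosed R] (hinf : ∃ x : R, 0 < x ∧ Ifl x)
    (hexp : ∀ x : R, Fi x → ∃ y : R, 0 < y ∧ st y = (2 : ℝ) ^ st x) :
    Half (Sst R) (V0s R) (W0s R) 0 0 := by
  constructor
  · intro x
    obtain ⟨y, h1, h2⟩ := hexp x x.2
    refine ⟨uof y h1 (by rw [h2]; exact (Real.rpow_pos_of_pos two_pos _).ne'), ?_⟩
    rw [mem_Sst, val_uof, h2]
  · intro n hn x y' h
    rw [mem_Sst] at h
    have e1 : ((n • x : Vf R) : R) = n * (x : R) := by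
      rw [← nsmul_eq_mul]; rfl
    rw [e1, st_mul (Fi.nat n) x.2, st_nat, mul_comm, Real.rpow_mul two_pos.le,
      Real.rpow_natCast] at h
    obtain ⟨r0, hr0⟩ := IsRealClosed.exists_eq_pow_of_nonneg (val_pos y').le hn.ne'
    -- a positive root
    have hroot : ∃ r : R, 0 < r ∧ r ^ n = val y' := by
      have h0 : val y' = |r0| ^ n := by
        rw [← abs_pow, ← hr0, abs_of_pos (val_pos y')]
      refine ⟨|r0|, ?_, h0.symm⟩
      refine lt_of_le_of_ne (abs_nonneg _) ?_
      intro h1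
      have := val_pos y'
      rw [h0, ← h1, zero_pow hn.ne'] at this
      exact lt_irrefl _ this
    obtain ⟨r, hr, hrn⟩ := hroot
    have hfr : Fi r := by
      obtain ⟨k, hk⟩ := fi_iff.1 (Uf.fi y')
      rw [abs_of_pos (val_pos y')] at hk
      refine fi_iff.2 ⟨k + 1, ?_⟩
      rw [abs_of_pos hr]
      by_contra hcon
      rw [not_le] at hcon
      have hk1 : (1 : R) ≤ ((k + 1 : ℕ) : R) := by
        push_cast
        have : (0 : R) ≤ k := Nat.cast_nonneg k
        linarith
      have h1 : ((k + 1 : ℕ) : R) ≤ ((k + 1 : ℕ) : R) ^ n := le_self_pow₀ hk1 hn.ne'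
      have h2 : ((k + 1 : ℕ) : R) ^ n ≤ r ^ n := pow_le_pow_left₀ (zero_le_one.trans hk1) hcon.le n
      rw [hrn] at h2
      have h3 := (h1.trans h2).trans hk
      push_cast at h3
      linarith
    have hsr : st r ^ n = st (val y') := by rw [← st_pow hfr, hrn]
    have hsr0 : st r ≠ 0 := by
      intro h0
      rw [h0, zero_pow hn.ne'] at hsr
      exact (Uf.st_ne y') hsr.symm
    refine ⟨uof r hr hsr0, val_inj ?_, ?_⟩
    · rw [val_nsmul, val_uof, hrn]
    · rw [mem_Sst, val_uof]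
      rw [← hsr] at h
      exact (pow_left_inj₀ (Real.rpow_pos_of_pos two_pos _).le (st_nonneg hr.le) hn.ne').1 h
  · intro x y h
    exact half_vw_sm h
  · intro x y h hx
    exact half_vw_sgn h hx
  · intro x y hy hxy
    rw [mem_V0s] at hy ⊢
    refine hy.mono ?_
    rw [← coe_abs, ← coe_abs]
    exact hxy
  · exact (V0s R).zero_mem
  · intro x hx
    exact ⟨0, by rw [hx.of_zero, smul_zero]⟩
  · intro z hz w0 hw0 h1 h2
    refine ⟨w0, hw0, ?_, ?_⟩
    · rw [mem_Sst, mem_V0s'.1 hz, Real.rpow_zero, mem_W0s'.1 hw0]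
    · rw [sub_self]
      intro h3
      exact h1.ne' h3.of_zero
  · intro d hd b hb hb0 hb1 ρ hρ hr b' hb' hb0' hb1'
    have hbR : (0 : R) < b := hb0
    have hfq : Fi ((d : R) / b) := by
      obtain ⟨n, hn⟩ := BO_vf.1 (BO_of_ratio hb0 hr)
      refine fi_iff.2 ⟨n, ?_⟩
      rw [abs_div, div_le_iff₀ (abs_pos.2 hbR.ne')]
      exact hn
    have h1 : (d : R) = b * ((d : R) / b) := by
      rw [mul_div_cancel₀ _ hbR.ne']
    have h2 : ρ = st ((d : R) / b) := ratio_unique hr (ratio_vf hb0 hfq h1)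
    have hb2 := mem_W0s.1 hb'
    obtain ⟨d', h3, h4⟩ := exists_w (hb2.mul hfq)
    refine ⟨d', h3, ?_⟩
    rw [h2]
    exact ratio_w hb2 hb0' hfq h4
  · intro lo hlo hi hhi _ h2
    have a1 := mem_W0s.1 (W0s_abs hlo)
    have a2 := mem_W0s.1 (W0s_abs hhi)
    have a3 := sub_one_nonneg (abs_nonneg lo)
    have h2' : ¬ BO |hi| |lo| := fun h => h2 (h.of_abs_left.of_abs_right)
    rw [BO_w a2 (abs_nonneg _) a1 (abs_nonneg _)] at h2'
    push Not at h2'
    have a4 : 0 < val |hi| - 1 := by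
      have := h2' 0
      rwa [Nat.cast_zero, zero_mul] at this
    obtain ⟨g, g1, g2, g3, g4⟩ := exists_mid a3 a2 a4 h2'
    obtain ⟨w, hw, hwg⟩ := exists_w g2
    have hw0 : 0 < w := by rw [← val_one_lt, hwg]; exact g1
    refine ⟨w, hw, hw0, ?_, ?_⟩
    · intro h3
      have h4 := (BO_w (mem_W0s.1 hw) hw0.le a1 (abs_nonneg _)).1 h3.abs_right
      obtain ⟨n, hn⟩ := h4
      rw [hwg] at hn
      exact absurd (g3 n) (not_lt.2 hn)
    · intro h3
      have h4 := (BO_w a2 (abs_nonneg _) (mem_W0s.1 hw) hw0.le).1 h3.abs_left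
      obtain ⟨n, hn⟩ := h4
      rw [hwg] at hn
      exact absurd (g4 n) (not_lt.2 hn)
  · intro lo hlo
    have a1 := mem_W0s.1 (W0s_abs hlo)
    have a3 := sub_one_nonneg (abs_nonneg lo)
    obtain ⟨g, g1, g2, g3⟩ := exists_top a3 a1 hinf
    obtain ⟨w, hw, hwg⟩ := exists_w g2
    have hw0 : 0 < w := by rw [← val_one_lt, hwg]; exact g1
    refine ⟨w, hw, hw0, ?_⟩
    intro h3
    have h4 := (BO_w (mem_W0s.1 hw) hw0.le a1 (abs_nonneg _)).1 h3.abs_right
    obtain ⟨n, hn⟩ := h4
    rw [hwg] at hn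
    exact absurd (g3 n) (not_lt.2 hn)

theorem half_wv [IsRealClosed R] (hinf : ∃ x : R, 0 < x ∧ Ifl x)
    (hlog : ∀ y : R, 0 < y → st y ≠ 0 → ∃ x : R, Fi x ∧ (2 : ℝ) ^ st x = st y) :
    Half (sw (Sst R)) (W0s R) (V0s R) 0 0 := by
  constructor
  · intro y
    obtain ⟨x, h1, h2⟩ := hlog (val y) (val_pos y) (Uf.st_ne y)
    exact ⟨⟨x, h1⟩, mem_sw.2 h2⟩
  · intro n hn y x' h
    rw [mem_sw, mem_Sst, val_nsmul, st_pow (Uf.fi y)] at h
    have hn' : (n : R) ≠ 0 := by exact_mod_cast hn.ne'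
    have hni : Fi (n : R)⁻¹ := Fi.inv (by rw [st_nat]; exact_mod_cast hn.ne')
    have hf : Fi ((x' : R) * (n : R)⁻¹) := Fi.mul x'.2 hni
    have hs : st ((x' : R) * (n : R)⁻¹) = st (x' : R) * (n : ℝ)⁻¹ := by
      rw [st_mul x'.2 hni, st_inv, st_nat]
    refine ⟨⟨(x' : R) * (n : R)⁻¹, hf⟩, ?_, ?_⟩
    · apply Subtype.ext
      change n • ((x' : R) * (n : R)⁻¹) = x'
      rw [nsmul_eq_mul]
      field_simp
    · rw [mem_sw, mem_Sst]
      change (2 : ℝ) ^ st ((x' : R) * (n : R)⁻¹) = st (val y)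
      rw [hs, Real.rpow_mul two_pos.le, h, Real.pow_rpow_inv_natCast (Uf.st_pos y).le hn.ne']
  · intro y x h
    have := (half_vw_sm (mem_sw.1 h))
    exact this.symm
  · intro y x h hy
    exact (half_vw_sgn (mem_sw.1 h) (fun h1 => hy ((half_vw_sm (mem_sw.1 h)).1 h1))).symm
  · intro x y hy hxy
    have h1 := mem_W0s.1 (W0s_abs hy)
    have h2 := sub_one_nonneg (abs_nonneg x)
    have h3 : val |x| - 1 ≤ val |y| - 1 := by
      rw [sub_le_sub_iff_right, val_le]; exact hxy
    have h4 : |x| ∈ W0s R := mem_W0s.2 (h1.mono (by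
      rw [abs_of_nonneg h2, abs_of_nonneg (h2.trans h3)]; exact h3))
    rcases abs_choice x with h5 | h5 <;> rw [h5] at h4
    · exact h4
    · exact neg_mem_iff.1 h4
  · exact (W0s R).zero_mem
  · intro x hx
    exact ⟨0, by rw [hx.of_zero, smul_zero]⟩
  · intro y hy z0 hz0 h1 h2
    refine ⟨z0, hz0, ?_, ?_⟩
    · rw [mem_sw, mem_Sst, mem_V0s'.1 hz0, Real.rpow_zero, mem_W0s'.1 hy]
    · rw [sub_self]
      intro h3
      exact h1.ne' h3.of_zero
  · intro d hd b hb hb0 hb1 ρ hρ hr b' hb' hb0' hb1'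
    have hb2 := mem_W0s.1 hb
    have hb3 : 0 < val b - 1 := val_one_lt.2 hb0
    have hd2 := mem_W0s.1 hd
    have hfq : Fi ((val d - 1) / (val b - 1)) := by
      have h0 := BO_of_ratio hb0 hr
      have h1 := (BO_w (mem_W0s.1 (W0s_abs hd)) (abs_nonneg d) hb2 hb0.le).1 h0.abs_left
      obtain ⟨n, hn⟩ := h1
      refine fi_iff.2 ⟨2 * n, ?_⟩
      rw [abs_div, abs_of_pos hb3, div_le_iff₀ hb3]
      have h2 : |val d - 1| ≤ 2 * (val |d| - 1) := by
        rcases le_total 0 d with h3 | h3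
        · have h4 := sub_one_nonneg h3
          rw [abs_of_nonneg h3, abs_of_nonneg h4]
          linarith
        · have h4 : val d - 1 ≤ 0 := by
            rw [sub_nonpos, ← val_zero (G := Uf R), val_le]; exact h3
          rw [abs_of_nonpos h3, abs_of_nonpos h4, val_neg]
          obtain ⟨ε, e1, e2⟩ := inv_ifl hd2
          have e3 : (1 : R) + (val d - 1) = val d := by ring
          rw [e3] at e2
          rw [e2]
          have e4 : 1 / 2 ≤ 1 + ε := by
            have h5 := (abs_lt.1 (e1.lt (y := 1 / 2) ?_ ?_)).1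
            · linarith
            · exact Fi.mono Fi.one (by rw [abs_one, abs_of_pos] <;> norm_num)
            · rw [one_div, st_inv]
              have := st_nat (R := R) 2
              push_cast at this
              rw [this]
              norm_num
          have e5 : 0 ≤ -(val d - 1) := by linarith
          nlinarith
      calc |val d - 1| ≤ 2 * (val |d| - 1) := h2
        _ ≤ 2 * (n * (val b - 1)) := by linarith
        _ = ((2 * n : ℕ) : R) * (val b - 1) := by push_cast; ring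
    have h1 : val d - 1 = (val b - 1) * ((val d - 1) / (val b - 1)) := by
      rw [mul_div_cancel₀ _ hb3.ne']
    have h2 : ρ = st ((val d - 1) / (val b - 1)) := ratio_unique hr (ratio_w hb2 hb0 hfq h1)
    have h3 : Ifl ((b' : R) * ((val d - 1) / (val b - 1))) := Ifl.mul hb' hfq
    refine ⟨⟨(b' : R) * ((val d - 1) / (val b - 1)), h3.1⟩, h3, ?_⟩
    rw [h2]
    exact ratio_vf hb0' hfq rfl
  · intro lo hlo hi hhi _ h2
    have a2 : Ifl |(hi : R)| := Ifl.abs hhi
    rw [BO_vf] at h2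
    push Not at h2
    have a4 : 0 < |(hi : R)| := by
      have := h2 0
      rwa [Nat.cast_zero, zero_mul] at this
    obtain ⟨g, g1, g2, g3, g4⟩ := exists_mid (abs_nonneg (lo : R)) a2 a4 h2
    refine ⟨⟨g, g2.1⟩, g2, g1, ?_, ?_⟩
    · rw [BO_vf]
      push Not
      intro n
      rw [abs_of_pos (show (0 : R) < ((⟨g, g2.1⟩ : Vf R) : R) from g1)]
      exact g3 n
    · rw [BO_vf]
      push Not
      intro n
      rw [abs_of_pos (show (0 : R) < ((⟨g, g2.1⟩ : Vf R) : R) from g1)]
      exact g4 n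
  · intro lo hlo
    obtain ⟨g, g1, g2, g3⟩ := exists_top (abs_nonneg (lo : R)) (Ifl.abs hlo) hinf
    refine ⟨⟨g, g2.1⟩, g2, g1, ?_⟩
    rw [BO_vf]
    push Not
    intro n
    rw [abs_of_pos (show (0 : R) < ((⟨g, g2.1⟩ : Vf R) : R) from g1)]
    exact g3 n

end

end Pool.Agent.W894.EIP
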