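import Pool.Agent.W894.EIP.Hp2

/-!
The group of finite elements and the group of finite positive units are isomorphic.
-/

set_option autoImplicit false
set_option linter.unusedSectionVars false
set_option linter.unusedVariables false

namespace Pool.Agent.W894.EIP

section

variable {M : Type} [CommSemiring M] [LinearOrder M] [IsStrictOrderedRing M]
  [CanonicallyOrderedAdd M] [IDel M] [NPB M]
  {R : Type} [Field R] [LinearOrder R] [IsStrictOrderedRing R] {ι : M →+* R}

theorem exists_log2 {P x z : M} (hP : 1 ≤ P) (hx : z ≤ x) {K : ℕ} (h : x < P ^ K * z) :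
    ∃ t : ℕ, P ^ t * z ≤ x ∧ x < P ^ (t + 1) * z := by
  classical
  have h0 : P ^ 0 * z ≤ x := by rw [pow_zero, one_mul]; exact hx
  have hex := Nat.findGreatest_spec (P := fun c => P ^ c * z ≤ x) (Nat.zero_le K) h0
  refine ⟨_, hex, ?_⟩
  by_contra hcon
  rw [not_lt] at hcon
  by_cases hK : Nat.findGreatest (fun c => P ^ c * z ≤ x) K + 1 ≤ K
  · have h3 := Nat.le_findGreatest (P := fun c => P ^ c * z ≤ x) hK hcon
    omega
  · have h4 : P ^ K * z ≤ P ^ (Nat.findGreatest (fun c => P ^ c * z ≤ x) K + 1) * z :=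
      mul_le_mul_left (pow_le_pow_right₀ hP (by omega)) z
    exact absurd h (not_lt.2 (h4.trans hcon))

variable (hι : StrictMono ι)
include hι

theorem ι_nonneg (a : M) : 0 ≤ ι a := by
  have := hι.monotone (zero_le (a := a))
  rwa [map_zero] at this

theorem ifl_inv {n : M} (hn : Inf n) : Ifl (ι n)⁻¹ := by
  have h0 : 0 < ι n := ι_pos hι (one_pos.trans hn.one_lt)
  rw [ifl_iff]
  intro k
  rw [abs_of_pos (inv_pos.2 h0), ← div_eq_mul_inv, div_lt_one h0]
  have := hι (hn k)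
  rwa [map_natCast] at this

theorem exists_ifl : ∃ x : R, 0 < x ∧ Ifl x := by
  obtain ⟨n, hn⟩ := exists_inf (M := M)
  exact ⟨(ι n)⁻¹, inv_pos.2 (ι_pos hι (one_pos.trans hn.one_lt)), ifl_inv hι hn⟩

variable (hfl : ∀ r : R, 0 ≤ r → ∃ m, ι m ≤ r ∧ r < ι m + 1)
include hfl

/-- approximation by a quotient of integers -/
theorem approx {x : R} (hx : 0 ≤ x) {b : M} (hb : Inf b) :
    ∃ a : M, ι a ≤ x * ι b ∧ x * ι b < ι a + 1 ∧ Ifl (x - ι a * (ι b)⁻¹) := by
  have hb0 : 0 < ι b := ι_pos hι (one_pos.trans hb.one_lt)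
  obtain ⟨a, h1, h2⟩ := hfl (x * ι b) (mul_nonneg hx hb0.le)
  refine ⟨a, h1, h2, (ifl_inv hι hb).mono ?_⟩
  have e : x - ι a * (ι b)⁻¹ = (x * ι b - ι a) * (ι b)⁻¹ := by
    field_simp
  rw [e, abs_mul]
  refine mul_le_of_le_one_left (abs_nonneg _) ?_
  rw [abs_le]
  constructor <;> linarith

theorem exp_nonneg {x : R} (hx : 0 ≤ x) (hf : Fi x) : ∃ y : R, 0 < y ∧ st y = (2 : ℝ) ^ st x := by
  obtain ⟨b, hb⟩ := exists_inf (M := M)
  have hb0 : 0 < b := one_pos.trans hb.one_lt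
  have hbR : 0 < ι b := ι_pos hι hb0
  obtain ⟨a, ha1, ha2, hq⟩ := approx hι hfl hx hb
  obtain ⟨q, hqd⟩ : ∃ q, q = ι a * (ι b)⁻¹ := ⟨_, rfl⟩
  rw [← hqd] at hq
  have hqa : q * ι b = ι a := by rw [hqd]; field_simp
  have hfq : Fi q := by
    have : q = x - (x - q) := by ring
    rw [this]
    exact hf.sub hq.1
  have hsq : st q = st x := by
    have h1 := hq.2
    rw [st_sub hf hfq] at h1
    linarith
  obtain ⟨K0, hK0⟩ := fi_iff.1 hf
  rw [abs_of_nonneg hx] at hK0
  have hab : a ≤ K0 * b := by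
    rw [← hι.le_iff_le, map_mul, map_natCast]
    exact ha1.trans (mul_le_mul_of_nonneg_right hK0 hbR.le)
  obtain ⟨n, c, hn, H⟩ := uexp hb0 hab
  have hn0 : 0 < n := one_pos.trans hn.one_lt
  have hnR : 0 < ι n := ι_pos hι hn0
  obtain ⟨y, hyd⟩ : ∃ y, y = ι c * (ι n)⁻¹ := ⟨_, rfl⟩
  have hyc : y * ι n = ι c := by rw [hyd]; field_simp
  have hy0 : 0 ≤ y := by
    rw [hyd]
    exact mul_nonneg (ι_nonneg hι c) (inv_nonneg.2 hnR.le)
  -- the inequalities
  have key : ∀ m : ℕ, 0 < m → ∃ u : ℕ, (u : R) ≤ m * q ∧ m * q ≤ u + 1 ∧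
      2 ^ u ≤ (y + (ι n)⁻¹) ^ m ∧ y ^ m ≤ 2 ^ (u + 1) := by
    intro m hm
    obtain ⟨u, hu1, hu2⟩ := exists_floor hb0 hab m
    obtain ⟨h1, h2⟩ := H m hm u hu1 hu2
    refine ⟨u, ?_, ?_, ?_, ?_⟩
    · have := hι.monotone hu1
      simp only [map_mul, map_natCast] at this
      refine le_of_mul_le_mul_right ?_ hbR
      rw [mul_assoc, hqa]
      exact this
    · have := (hι hu2).le
      simp only [map_mul, map_natCast, map_add, map_one] at this
      refine le_of_mul_le_mul_right ?_ hbR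
      rw [mul_assoc, hqa]
      exact this
    · have := hι.monotone h1
      simp only [map_mul, map_pow, map_ofNat, map_add, map_one] at this
      refine le_of_mul_le_mul_right ?_ (pow_pos hnR m)
      rw [← mul_pow, add_mul, hyc, inv_mul_cancel₀ hnR.ne']
      exact this
    · have := hι.monotone h2
      simp only [map_mul, map_pow, map_ofNat] at this
      refine le_of_mul_le_mul_right ?_ (pow_pos hnR m)
      rw [← mul_pow, hyc]
      exact this
  have hfy : Fi y := by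
    obtain ⟨u, _, _, _, h⟩ := key 1 one_pos
    rw [pow_one] at h
    refine fi_iff.2 ⟨2 ^ (u + 1), ?_⟩
    rw [abs_of_nonneg hy0]
    push_cast
    exact h
  have hin : Ifl (ι n)⁻¹ := ifl_inv hι hn
  have hsyn : st (y + (ι n)⁻¹) = st y := by rw [st_add hfy hin.1, hin.2, add_zero]
  have hst2 : ∀ k : ℕ, st ((2 : R) ^ k) = 2 ^ k := by
    intro k
    have := st_nat (R := R) (2 ^ k)
    push_cast at this
    exact this
  have hf2 : ∀ k : ℕ, Fi ((2 : R) ^ k) := by
    intro k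
    have := Fi.nat (R := R) (2 ^ k)
    push_cast at this
    exact this
  have key2 : ∀ m : ℕ, 0 < m → ∃ u : ℕ, (u : ℝ) ≤ m * st x ∧ m * st x ≤ u + 1 ∧
      2 ^ u ≤ st y ^ m ∧ st y ^ m ≤ 2 ^ (u + 1) := by
    intro m hm
    obtain ⟨u, h1, h2, h3, h4⟩ := key m hm
    refine ⟨u, ?_, ?_, ?_, ?_⟩
    · have := st_mono (Fi.nat u) ((Fi.nat m).mul hfq) h1
      rwa [st_nat, st_mul (Fi.nat m) hfq, st_nat, hsq] at this
    · have := st_mono ((Fi.nat m).mul hfq) ((Fi.nat u).add Fi.one) h2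
      rwa [st_mul (Fi.nat m) hfq, st_nat, hsq, st_add (Fi.nat u) Fi.one, st_nat, st_one] at this
    · have := st_mono (hf2 u) ((hfy.add hin.1).pow m) h3
      rwa [hst2, st_pow (hfy.add hin.1), hsyn] at this
    · have := st_mono (hfy.pow m) (hf2 (u + 1)) h4
      rwa [hst2, st_pow hfy] at this
  have hσ : 0 < st y := by
    obtain ⟨u, _, _, h3, _⟩ := key2 1 one_pos
    rw [pow_one] at h3
    exact lt_of_lt_of_le (by positivity) h3
  refine ⟨y, ?_, ?_⟩
  · refine lt_of_le_of_ne hy0 ?_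
    rintro h0
    rw [← h0, st_zero] at hσ
    exact lt_irrefl _ hσ
  · have h0 : Real.logb 2 (st y) - st x = 0 := by
      refine eq_zero_of_bdd (C := 1) fun m hm => ?_
      obtain ⟨u, h1, h2, h3, h4⟩ := key2 m hm
      have hp : 0 < st y ^ m := pow_pos hσ m
      have g1 : (u : ℝ) ≤ m * Real.logb 2 (st y) := by
        rw [← Real.logb_pow, Real.le_logb_iff_rpow_le one_lt_two hp, Real.rpow_natCast]
        exact h3
      have g2 : m * Real.logb 2 (st y) ≤ u + 1 := by
        rw [← Real.logb_pow, Real.logb_le_iff_le_rpow one_lt_two hp]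
        have : ((u : ℝ) + 1) = ((u + 1 : ℕ) : ℝ) := by push_cast; ring
        rw [this, Real.rpow_natCast]
        exact h4
      rw [abs_le]
      constructor <;> nlinarith
    rw [← sub_eq_zero.1 h0, Real.rpow_logb two_pos (by norm_num) hσ]

theorem exp_fin {x : R} (hf : Fi x) : ∃ y : R, 0 < y ∧ st y = (2 : ℝ) ^ st x := by
  rcases le_total 0 x with hx | hx
  · exact exp_nonneg hι hfl hx hf
  · obtain ⟨y, h1, h2⟩ := exp_nonneg hι hfl (neg_nonneg.2 hx) hf.neg
    refine ⟨y⁻¹, inv_pos.2 h1, ?_⟩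
    rw [st_inv, h2, st_neg, Real.rpow_neg two_pos.le, inv_inv]

theorem log_ge_one {y : R} (hy : 1 ≤ y) (hf : Fi y) :
    ∃ x : R, Fi x ∧ (2 : ℝ) ^ st x = st y := by
  obtain ⟨b, hb⟩ := exists_inf (M := M)
  have hb0 : 0 < b := one_pos.trans hb.one_lt
  have hbR : 0 < ι b := ι_pos hι hb0
  have hy0 : 0 ≤ y := zero_le_one.trans hy
  obtain ⟨a, ha1, ha2, hq⟩ := approx hι hfl hy0 hb
  obtain ⟨q, hqd⟩ : ∃ q, q = ι a * (ι b)⁻¹ := ⟨_, rfl⟩
  rw [← hqd] at hq
  have hqa : q * ι b = ι a := by rw [hqd]; field_simp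
  have hfq : Fi q := by
    have : q = y - (y - q) := by ring
    rw [this]
    exact hf.sub hq.1
  have hsq : st q = st y := by
    have h1 := hq.2
    rw [st_sub hf hfq] at h1
    linarith
  have hσ : 0 < st y := by
    have := st_mono Fi.one hf hy
    rw [st_one] at this
    linarith
  obtain ⟨K0, hK0⟩ := fi_iff.1 hf
  rw [abs_of_nonneg hy0] at hK0
  have hba : b ≤ a := by
    have h1 : ι b < ι (a + 1) := by
      rw [map_add, map_one]
      refine lt_of_le_of_lt ?_ ha2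
      exact le_mul_of_one_le_left hbR.le hy
    exact lt_add_one_iff'.1 (hι.lt_iff_lt.1 h1)
  have hab : a < 2 ^ K0 * b := by
    rw [← hι.lt_iff_lt, map_mul, map_pow, map_ofNat]
    refine lt_of_le_of_lt (ha1.trans (mul_le_mul_of_nonneg_right hK0 hbR.le)) ?_
    refine mul_lt_mul_of_pos_right ?_ hbR
    exact_mod_cast Nat.lt_two_pow_self
  obtain ⟨n, c, hn, H⟩ := zrat (le_refl (2 : M)) hb0 hba hab
  have hn0 : 0 < n := one_pos.trans hn.one_lt
  have hnR : 0 < ι n := ι_pos hι hn0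
  obtain ⟨x, hxd⟩ : ∃ x, x = ι c * (ι n)⁻¹ := ⟨_, rfl⟩
  have hxc : x * ι n = ι c := by rw [hxd]; field_simp
  have hx0 : 0 ≤ x := by
    rw [hxd]
    exact mul_nonneg (ι_nonneg hι c) (inv_nonneg.2 hnR.le)
  have hin : Ifl (ι n)⁻¹ := ifl_inv hι hn
  have key : ∀ m : ℕ, 0 < m → ∃ t : ℕ, 2 ^ t ≤ q ^ m ∧ q ^ m ≤ 2 ^ (t + 1) ∧
      m * x ≤ t + 1 + m * (ι n)⁻¹ ∧ t ≤ m * x + 1 + m * (ι n)⁻¹ := by
    intro m hm
    obtain ⟨t, ht1, ht2⟩ := exists_log2 (P := (2 : M)) (x := a ^ m) (z := b ^ m) one_le_two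
      (pow_le_pow_left₀ zero_le hba m) (K := K0 * m) (by
        rw [pow_mul, ← mul_pow]
        exact pow_lt_pow_left₀ hab zero_le hm.ne')
    obtain ⟨h1, h2⟩ := H m hm t ht1 ht2
    refine ⟨t, ?_, ?_, ?_, ?_⟩
    · have := hι.monotone ht1
      simp only [map_mul, map_pow, map_ofNat] at this
      refine le_of_mul_le_mul_right ?_ (pow_pos hbR m)
      rw [← mul_pow, hqa]
      exact this
    · have := (hι ht2).le
      simp only [map_mul, map_pow, map_ofNat] at this
      refine le_of_mul_le_mul_right ?_ (pow_pos hbR m)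
      rw [← mul_pow, hqa]
      exact this
    · have := hι.monotone h1
      simp only [map_mul, map_add, map_natCast] at this
      refine le_of_mul_le_mul_right ?_ hnR
      have e1 : (m : R) * x * ι n = ι c * m := by rw [mul_assoc, hxc]; ring
      have e2 : ((t : R) + 1 + m * (ι n)⁻¹) * ι n = t * ι n + ι n + m := by field_simp
      rw [e1, e2]
      exact this
    · have := hι.monotone h2
      simp only [map_mul, map_add, map_natCast] at this
      refine le_of_mul_le_mul_right ?_ hnR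
      have e2 : ((m : R) * x + 1 + m * (ι n)⁻¹) * ι n = ι c * m + ι n + m := by
        rw [← hxc]; field_simp
      rw [e2]
      exact this
  have hfx : Fi x := by
    obtain ⟨t, _, _, h, _⟩ := key 1 one_pos
    refine fi_iff.2 ⟨t + 2, ?_⟩
    rw [abs_of_nonneg hx0]
    have h1 := (abs_lt.1 hin.lt_one).2
    push_cast at h ⊢
    linarith
  have hst2 : ∀ k : ℕ, st ((2 : R) ^ k) = 2 ^ k := by
    intro k
    have := st_nat (R := R) (2 ^ k)
    push_cast at this
    exact this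
  have hf2 : ∀ k : ℕ, Fi ((2 : R) ^ k) := by
    intro k
    have := Fi.nat (R := R) (2 ^ k)
    push_cast at this
    exact this
  have hmin : ∀ m : ℕ, Ifl ((m : R) * (ι n)⁻¹) := fun m => Ifl.mul' (Fi.nat m) hin
  have key2 : ∀ m : ℕ, 0 < m → ∃ t : ℕ, 2 ^ t ≤ st y ^ m ∧ st y ^ m ≤ 2 ^ (t + 1) ∧
      m * st x ≤ t + 1 ∧ t ≤ m * st x + 1 := by
    intro m hm
    obtain ⟨t, h1, h2, h3, h4⟩ := key m hm
    refine ⟨t, ?_, ?_, ?_, ?_⟩
    · have := st_mono (hf2 t) (hfq.pow m) h1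
      rwa [hst2, st_pow hfq, hsq] at this
    · have := st_mono (hfq.pow m) (hf2 (t + 1)) h2
      rwa [hst2, st_pow hfq, hsq] at this
    · have := st_mono ((Fi.nat m).mul hfx) (((Fi.nat t).add Fi.one).add (hmin m).1) h3
      rwa [st_mul (Fi.nat m) hfx, st_nat, st_add ((Fi.nat t).add Fi.one) (hmin m).1, (hmin m).2,
        add_zero, st_add (Fi.nat t) Fi.one, st_nat, st_one] at this
    · have := st_mono (Fi.nat t) ((((Fi.nat m).mul hfx).add Fi.one).add (hmin m).1) h4
      rwa [st_nat, st_add (((Fi.nat m).mul hfx).add Fi.one) (hmin m).1, (hmin m).2, add_zero,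
        st_add ((Fi.nat m).mul hfx) Fi.one, st_mul (Fi.nat m) hfx, st_nat, st_one] at this
  refine ⟨x, hfx, ?_⟩
  have h0 : st x - Real.logb 2 (st y) = 0 := by
    refine eq_zero_of_bdd (C := 2) fun m hm => ?_
    obtain ⟨t, h1, h2, h3, h4⟩ := key2 m hm
    have hp : 0 < st y ^ m := pow_pos hσ m
    have g1 : (t : ℝ) ≤ m * Real.logb 2 (st y) := by
      rw [← Real.logb_pow, Real.le_logb_iff_rpow_le one_lt_two hp, Real.rpow_natCast]
      exact h1
    have g2 : m * Real.logb 2 (st y) ≤ t + 1 := by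
      rw [← Real.logb_pow, Real.logb_le_iff_le_rpow one_lt_two hp]
      have : ((t : ℝ) + 1) = ((t + 1 : ℕ) : ℝ) := by push_cast; ring
      rw [this, Real.rpow_natCast]
      exact h2
    rw [abs_le]
    constructor <;> nlinarith
  rw [sub_eq_zero.1 h0, Real.rpow_logb two_pos (by norm_num) hσ]

theorem log_fin {y : R} (hy : 0 < y) (hs : st y ≠ 0) : ∃ x : R, Fi x ∧ (2 : ℝ) ^ st x = st y := by
  rcases le_total 1 y with h | h
  · exact log_ge_one hι hfl h (Fi.of_st hs)
  · have h1 : 1 ≤ y⁻¹ := (one_le_inv₀ hy).2 h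
    obtain ⟨x, h2, h3⟩ := log_ge_one hι hfl h1 (Fi.inv hs)
    refine ⟨-x, h2.neg, ?_⟩
    rw [st_neg, Real.rpow_neg two_pos.le, h3, st_inv, inv_inv]

/-- the isomorphism between the finite elements and the finite positive units -/
theorem exists_h [IsRealClosed R] [Countable R] : ∃ h : Vf R ≃+ Additive (Uf R), StrictMono h ∧
    val (h ⟨1, Fi.one⟩) = 2 := by
  have : Countable (Additive (Uf R)) := by
    have h1 : Function.Injective (fun w : Additive (Uf R) => val w) := fun a b h => val_inj h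
    exact h1.countable
  have : Countable (Vf R) := inferInstanceAs (Countable {x : R // x ∈ Vf R})
  have s2 : st (2 : R) = 2 := by
    have := st_nat (R := R) 2
    push_cast at this
    exact this
  have hS : ((⟨1, Fi.one⟩ : Vf R), uof (2 : R) two_pos (by rw [s2]; exact two_ne_zero)) ∈ Sst R := by
    rw [mem_Sst, val_uof, s2]
    change (2 : ℝ) ^ st (1 : R) = 2
    rw [st_one, Real.rpow_one]
  have p1 : (0 : Vf R) < ⟨1, Fi.one⟩ := by
    change (0 : R) < 1
    exact one_pos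
  have p2 : 0 < uof (2 : R) two_pos (by rw [s2]; exact two_ne_zero) := by
    rw [← val_lt, val_zero, val_uof]
    exact one_lt_two
  have h0 := PI.init hS p1.le p2.le (by simp only [p1, p2])
  have h1 : PI (Sst R) 0 0 (Submodule.span ℤ {((⟨1, Fi.one⟩ : Vf R),
      uof (2 : R) two_pos (by rw [s2]; exact two_ne_zero))}) :=
    ⟨h0.le, h0.fg, Submodule.zero_mem _, h0.pos⟩
  obtain ⟨f, g1, g2, g3⟩ := bfp
    (half_vw (exists_ifl hι) (fun x hx => exp_fin hι hfl hx))
    (half_wv (exists_ifl hι) (fun y hy hs => log_fin hι hfl hy hs)) h1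
  refine ⟨f, g1, ?_⟩
  rw [g3 _ (Submodule.mem_span_singleton_self _)]
  rfl

end

end Pool.Agent.W894.EIP
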