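import Pool.Agent.W894.EIP.Po

/-!
Consequences of overspill in models which are not polynomially bounded.
-/

set_option autoImplicit false
set_option linter.unusedSectionVars false
set_option linter.style.haveILetI false

namespace Pool.Agent.W894.EIP

/-- not polynomially bounded -/
class NPB (M : Type) [CommSemiring M] [LinearOrder M] : Prop where
  out : ∀ a : M, ∃ b : M, ∀ n : ℕ, a ^ n < b

section

variable {M : Type} [CommSemiring M] [LinearOrder M] [IsStrictOrderedRing M]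
  [CanonicallyOrderedAdd M] [IDel M] [NPB M]

theorem exists_inf : ∃ x : M, Inf x := by
  obtain ⟨b, hb⟩ := NPB.out (2 : M)
  refine ⟨b, fun k => lt_trans ?_ (hb k)⟩
  exact_mod_cast Nat.lt_two_pow_self

theorem exists_SP (Y : M) : ∃ X B, Y ≤ X ∧ SP X B := by
  obtain ⟨x, hx⟩ := exists_inf (M := M)
  obtain ⟨B, hB⟩ := NPB.out (Y + x)
  exact ⟨Y + x, B, le_self_add, hx.mono le_add_self, fun k => (hB k).le⟩

theorem Inf.one_lt {x : M} (h : Inf x) : 1 < x := by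
  have := h 1
  rwa [Nat.cast_one] at this

theorem Inf.nat_lt {x : M} (h : Inf x) {k : ℕ} : (k : M) < x := h k

theorem Inf.two_pow {x : M} (h : Inf x) (k : ℕ) : (2 : M) ^ k < x := by
  have := h (2 ^ k)
  exact_mod_cast this

theorem SP.inf {X B : M} (h : SP X B) : Inf B := by
  refine h.1.mono ?_
  have := h.2 1
  rwa [pow_one] at this

theorem SP.le {X B : M} (h : SP X B) : X ≤ B := by
  have := h.2 1
  rwa [pow_one] at this

theorem SP.pow_le {X B x : M} (h : SP X B) (hx : x ≤ X) (n : ℕ) : x ^ n ≤ B :=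
  (pow_le_pow_left' hx n).trans (h.2 n)

theorem le_pow_self {x : M} (hx : 0 < x) {n : ℕ} (hn : 0 < n) : x ≤ x ^ n :=
  le_self_pow₀ (Disc.out x hx) hn.ne'

theorem wtop (p : M) : ∃ q, Pw q ∧ ∀ k : ℕ, p ^ k < q := by
  obtain ⟨b, hb⟩ := NPB.out (2 * p + 2)
  have hb0 : 0 < b := lt_of_le_of_lt zero_le (hb 0)
  obtain ⟨q, hq1, hq2, hq3⟩ := Pw.exists_le hb0
  refine ⟨q, hq2, fun k => ?_⟩
  have h1 := (hb (k + 1)).trans hq3
  have h2 : 2 * p ^ k ≤ (2 * p + 2) ^ (k + 1) := by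
    rw [pow_succ, mul_comm]
    refine mul_le_mul' (pow_le_pow_left' ?_ k) le_add_self
    calc p ≤ p + p := le_self_add
      _ = 2 * p := by ring
      _ ≤ 2 * p + 2 := le_self_add
  exact lt_of_mul_lt_mul_left (h2.trans_lt h1) zero_le

theorem wmid {lo hi : M} (hlo : Pw lo) (hlo2 : 2 ≤ lo) (h : ∀ k : ℕ, lo ^ k < hi) :
    ∃ s, Pw s ∧ ∀ k : ℕ, lo ^ k ≤ s ∧ s ^ k ≤ hi := by
  obtain ⟨X, B, hX, hSP⟩ := exists_SP hi
  have hlo1 : 1 ≤ lo := one_le_two.trans hlo2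
  have hloh : lo ≤ hi := by
    have := (h 1).le
    rwa [pow_one] at this
  obtain ⟨c, hc, _, hall⟩ := spill (P := fun x => ∃ s, s ≤ hi ∧ (Pw s ∧ ∀ k, k ≤ x →
      ((∃ y, y ≤ B ∧ (Pow B lo k y ∧ y ≤ s)) ∧ (∃ y, y ≤ B ∧ (Pow B s k y ∧ y ≤ hi))))) (by
    refine DP.bexle (by fun_prop) (DP.and (DP.pw (by fun_prop)) (DP.balle (by fun_prop) (DP.and
      (DP.bexle (by fun_prop) (DP.and (DP.power (by fun_prop) (by fun_prop) (by fun_prop)
        (by fun_prop)) (DP.le (by fun_prop) (by fun_prop))))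
      (DP.bexle (by fun_prop) (DP.and (DP.power (by fun_prop) (by fun_prop) (by fun_prop)
        (by fun_prop)) (DP.le (by fun_prop) (by fun_prop))))))) ) (by
    intro n
    refine ⟨lo ^ n, (h n).le, hlo.pow n, fun k hk => ?_⟩
    obtain ⟨j, hj, rfl⟩ := eq_natCast_of_le hk
    refine ⟨⟨lo ^ j, hSP.pow_le (hloh.trans hX) j, Pow.mk hSP (hloh.trans hX) j,
      pow_le_pow_right₀ hlo1 hj⟩, ⟨(lo ^ n) ^ j, hSP.pow_le ((h n).le.trans hX) j,
      Pow.mk hSP ((h n).le.trans hX) j, ?_⟩⟩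
    rw [← pow_mul]
    exact (h _).le) hSP.inf
  obtain ⟨s, hs1, hs2, hs3⟩ := hall c le_rfl
  refine ⟨s, hs2, fun k => ?_⟩
  obtain ⟨⟨y, _, hy1, hy2⟩, ⟨z, _, hz1, hz2⟩⟩ := hs3 k (hc k).le
  rw [hy1.eq] at hy2
  rw [hz1.eq] at hz2
  exact ⟨hy2, hz2⟩

/-- decomposition of the root data for a divisor of the index -/
theorem split_root {s0 : M} {N k t : ℕ} (hk : 0 < k) (hkN : k ∣ N) :
    s0 ^ N * 2 ^ t = (s0 ^ (N / k) * 2 ^ (t / k)) ^ k * 2 ^ (t % k) := by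
  rw [mul_pow, ← pow_mul, ← pow_mul, Nat.div_mul_cancel hkN, mul_assoc, ← pow_add]
  congr 2
  have := Nat.div_add_mod t k
  rw [mul_comm] at this
  exact this.symm

theorem wres {p0 : M} (hp0 : Pw p0) (hinf : Inf p0) (m : M) :
    ∃ v, Pw v ∧ (∀ k : ℕ, v ^ k < p0) ∧ ∀ n : ℕ, 0 < n → ∃ s, Pw s ∧ ∃ i < n, ∃ q,
      m = n * q + i ∧ p0 * v = s ^ n * 2 ^ i := by
  obtain ⟨X, B, hX, hSP⟩ := exists_SP (p0 * p0)
  have hp0X : p0 ≤ X := (le_mul_of_one_le_right zero_le hinf.one_lt.le).trans hX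
  have h2X : (2 : M) ≤ X := by
    have := (hSP.1 2).le
    exact_mod_cast this
  obtain ⟨c, hc, _, hall⟩ := spill (P := fun x => ∃ v, v ≤ p0 ∧ (Pw v ∧ ((∀ k, k ≤ x →
      ∀ y, y ≤ B → (Pow B v k y → y < p0)) ∧ (∀ k, k ≤ x → (1 ≤ k → ∃ s, s ≤ B ∧ (Pw s ∧
        ∃ i, i < k ∧ ((∃ q, q ≤ m ∧ m = k * q + i) ∧ ∃ y, y ≤ B ∧ ∃ y', y' ≤ B ∧
          (Pow B s k y ∧ (Pow B 2 i y' ∧ p0 * v = y * y')))))))))  (by
    refine DP.bexle (by fun_prop) (DP.and (DP.pw (by fun_prop)) (DP.and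
      (DP.balle (by fun_prop) (DP.balle (by fun_prop) (DP.imp (DP.power (by fun_prop)
        (by fun_prop) (by fun_prop) (by fun_prop)) (DP.lt (by fun_prop) (by fun_prop)))))
      (DP.balle (by fun_prop) (DP.imp (DP.le (by fun_prop) (by fun_prop)) (DP.bexle (by fun_prop)
        (DP.and (DP.pw (by fun_prop)) (DP.bex (by fun_prop) (DP.and (DP.bexle (by fun_prop)
          (DP.eq (by fun_prop) (by fun_prop))) (DP.bexle (by fun_prop) (DP.bexle (by fun_prop)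
            (DP.and (DP.power (by fun_prop) (by fun_prop) (by fun_prop) (by fun_prop))
              (DP.and (DP.power (by fun_prop) (by fun_prop) (by fun_prop) (by fun_prop))
                (DP.eq (by fun_prop) (by fun_prop)))))))))))))) ) (by
    intro n
    obtain ⟨N, hN⟩ : ∃ N : ℕ, N = n.factorial := ⟨_, rfl⟩
    have hNpos : 0 < N := by rw [hN]; exact Nat.factorial_pos n
    obtain ⟨s0, hs0, t0, ht0, hp⟩ := hp0.root hNpos
    obtain ⟨Q, m0', _, hm0', hm⟩ := division m (N : M) (by exact_mod_cast hNpos)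
    obtain ⟨m0, hm0, rfl⟩ := eq_natCast_of_le hm0'.le
    have hm0N : m0 < N := by exact_mod_cast hm0'
    obtain ⟨t, ht⟩ : ∃ t : ℕ, t0 + t = m0 + N := ⟨m0 + N - t0, by omega⟩
    have hv : p0 * 2 ^ t = s0 ^ N * 2 ^ (m0 + N) := by
      rw [hp, mul_assoc, ← pow_add, ht]
    have hvle : (2 : M) ^ t ≤ p0 := (hinf.two_pow t).le
    refine ⟨2 ^ t, hvle, Pw.two.pow t, ?_, ?_⟩
    · intro k hk y _ hy
      obtain ⟨j, hj, rfl⟩ := eq_natCast_of_le hk
      rw [hy.eq, ← pow_mul]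
      exact hinf.two_pow _
    · intro k hk hk1
      obtain ⟨j, hj, rfl⟩ := eq_natCast_of_le hk
      have hj0 : 0 < j := by exact_mod_cast lt_of_lt_of_le one_pos hk1
      have hjN : j ∣ N := by rw [hN]; exact Nat.dvd_factorial hj0 hj
      obtain ⟨s, hs⟩ : ∃ s, s = s0 ^ (N / j) * 2 ^ ((m0 + N) / j) := ⟨_, rfl⟩
      have hsP : Pw s := by rw [hs]; exact (hs0.pow _).mul (Pw.two.pow _)
      have hdec : p0 * 2 ^ t = s ^ j * 2 ^ ((m0 + N) % j) := by
        rw [hv, hs]; exact split_root hj0 hjN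
      have hsX : s ≤ X := by
        refine le_trans ?_ hX
        calc s ≤ s ^ j := le_pow_self hsP.1 hj0
          _ ≤ s ^ j * 2 ^ ((m0 + N) % j) :=
              le_mul_of_one_le_right zero_le (one_le_pow₀ one_le_two)
          _ = p0 * 2 ^ t := hdec.symm
          _ ≤ p0 * p0 := mul_le_mul_right hvle _
      refine ⟨s, hsX.trans hSP.le, hsP, (((m0 + N) % j : ℕ) : M), ?_, ⟨(N / j : ℕ) * Q + (m0 / j : ℕ),
        ?_, ?_⟩, s ^ j, hSP.pow_le hsX j, 2 ^ ((m0 + N) % j), hSP.pow_le h2X _,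
        Pow.mk hSP hsX j, Pow.mk hSP h2X _, hdec⟩
      · exact_mod_cast Nat.mod_lt _ hj0
      · rw [hm]
        refine add_le_add ?_ ?_
        · refine mul_le_mul_left ?_ Q
          exact_mod_cast Nat.div_le_self N j
        · exact_mod_cast Nat.div_le_self m0 j
      · have e1 : (m0 + N) % j = m0 % j := by
          rw [Nat.add_mod, Nat.mod_eq_zero_of_dvd hjN, add_zero, Nat.mod_mod]
        rw [e1, hm]
        have e2 : (N : M) = (j : M) * (N / j : ℕ) := by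
          rw [← Nat.cast_mul, Nat.mul_div_cancel' hjN]
        have e3 : (m0 : M) = (j : M) * (m0 / j : ℕ) + (m0 % j : ℕ) := by
          rw [← Nat.cast_mul, ← Nat.cast_add, Nat.div_add_mod]
        rw [e2]
        nth_rewrite 1 [e3]
        ring) hSP.inf
  obtain ⟨v, hv1, hv2, hv3, hv4⟩ := hall c le_rfl
  refine ⟨v, hv2, fun k => ?_, fun n hn => ?_⟩
  · exact hv3 k (hc k).le _ (hSP.pow_le (hv1.trans hp0X) k) (Pow.mk hSP (hv1.trans hp0X) k)
  · obtain ⟨s, _, hs, i, hi, ⟨q, _, hq⟩, y, _, y', _, hy, hy', he⟩ := hv4 n (hc n).le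
      (by exact_mod_cast hn)
    obtain ⟨j, hj, rfl⟩ := eq_natCast_of_le hi.le
    refine ⟨s, hs, j, by exact_mod_cast hi, q, hq, ?_⟩
    rw [he, hy.eq, hy'.eq]

theorem zres {p : M} (hp : Pw p) {m0 : M} (hinf : Inf m0) :
    ∃ v, (∀ k : ℕ, (k : M) * v < m0) ∧ ∀ n : ℕ, 0 < n → ∃ s, Pw s ∧ ∃ i < n, ∃ q,
      m0 + v = n * q + i ∧ p = s ^ n * 2 ^ i := by
  obtain ⟨X, B, hX, hSP⟩ := exists_SP p
  have h2X : (2 : M) ≤ X := by
    have := (hSP.1 2).le
    exact_mod_cast this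
  obtain ⟨c, hc, _, hall⟩ := spill (P := fun x => ∃ v, v ≤ m0 ∧ ((∀ k, k ≤ x → k * v < m0) ∧
      (∀ k, k ≤ x → (1 ≤ k → ∃ s, s ≤ B ∧ (Pw s ∧
        ∃ i, i < k ∧ ((∃ q, q ≤ m0 + v ∧ m0 + v = k * q + i) ∧ ∃ y, y ≤ B ∧ ∃ y', y' ≤ B ∧
          (Pow B s k y ∧ (Pow B 2 i y' ∧ p = y * y'))))))))  (by
    refine DP.bexle (by fun_prop) (DP.and
      (DP.balle (by fun_prop) (DP.lt (by fun_prop) (by fun_prop)))
      (DP.balle (by fun_prop) (DP.imp (DP.le (by fun_prop) (by fun_prop)) (DP.bexle (by fun_prop)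
        (DP.and (DP.pw (by fun_prop)) (DP.bex (by fun_prop) (DP.and (DP.bexle (by fun_prop)
          (DP.eq (by fun_prop) (by fun_prop))) (DP.bexle (by fun_prop) (DP.bexle (by fun_prop)
            (DP.and (DP.power (by fun_prop) (by fun_prop) (by fun_prop) (by fun_prop))
              (DP.and (DP.power (by fun_prop) (by fun_prop) (by fun_prop) (by fun_prop))
                (DP.eq (by fun_prop) (by fun_prop))))))))))))) ) (by
    intro n
    obtain ⟨N, hN⟩ : ∃ N : ℕ, N = n.factorial := ⟨_, rfl⟩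
    have hNpos : 0 < N := by rw [hN]; exact Nat.factorial_pos n
    obtain ⟨s0, hs0, t0, ht0, hp'⟩ := hp.root hNpos
    obtain ⟨Q, m1', _, hm1', hm⟩ := division m0 (N : M) (by exact_mod_cast hNpos)
    obtain ⟨m1, hm1, rfl⟩ := eq_natCast_of_le hm1'.le
    have hm1N : m1 < N := by exact_mod_cast hm1'
    obtain ⟨t, ht⟩ : ∃ t : ℕ, m1 + t = t0 + N := ⟨t0 + N - m1, by omega⟩
    have hv : m0 + t = N * (Q + 1) + t0 := by
      rw [hm, add_assoc, ← Nat.cast_add, ht]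
      push_cast; ring
    refine ⟨t, (hinf t).le, ?_, ?_⟩
    · intro k hk
      obtain ⟨j, hj, rfl⟩ := eq_natCast_of_le hk
      rw [← Nat.cast_mul]
      exact hinf _
    · intro k hk hk1
      obtain ⟨j, hj, rfl⟩ := eq_natCast_of_le hk
      have hj0 : 0 < j := by exact_mod_cast lt_of_lt_of_le one_pos hk1
      have hjN : j ∣ N := by rw [hN]; exact Nat.dvd_factorial hj0 hj
      obtain ⟨s, hs⟩ : ∃ s, s = s0 ^ (N / j) * 2 ^ (t0 / j) := ⟨_, rfl⟩
      have hsP : Pw s := by rw [hs]; exact (hs0.pow _).mul (Pw.two.pow _)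
      have hdec : p = s ^ j * 2 ^ (t0 % j) := by
        rw [hp', hs]; exact split_root hj0 hjN
      have hsX : s ≤ X := by
        refine le_trans ?_ hX
        calc s ≤ s ^ j := le_pow_self hsP.1 hj0
          _ ≤ s ^ j * 2 ^ (t0 % j) :=
              le_mul_of_one_le_right zero_le (one_le_pow₀ one_le_two)
          _ = p := hdec.symm
      have e2 : (N : M) = (j : M) * (N / j : ℕ) := by
        rw [← Nat.cast_mul, Nat.mul_div_cancel' hjN]
      have e3 : (t0 : M) = (j : M) * (t0 / j : ℕ) + (t0 % j : ℕ) := by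
        rw [← Nat.cast_mul, ← Nat.cast_add, Nat.div_add_mod]
      have e4 : m0 + t = j * ((N / j : ℕ) * (Q + 1) + (t0 / j : ℕ)) + (t0 % j : ℕ) := by
        rw [hv, e2]
        nth_rewrite 1 [e3]
        ring
      refine ⟨s, hsX.trans hSP.le, hsP, ((t0 % j : ℕ) : M), ?_,
        ⟨(N / j : ℕ) * (Q + 1) + (t0 / j : ℕ), ?_, e4⟩, s ^ j, hSP.pow_le hsX j, 2 ^ (t0 % j),
        hSP.pow_le h2X _, Pow.mk hSP hsX j, Pow.mk hSP h2X _, hdec⟩
      · exact_mod_cast Nat.mod_lt _ hj0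
      · rw [e4]
        refine le_trans ?_ le_self_add
        refine le_mul_of_one_le_left zero_le ?_
        exact hk1) hSP.inf
  obtain ⟨v, hv1, hv3, hv4⟩ := hall c le_rfl
  refine ⟨v, fun k => hv3 k (hc k).le, fun n hn => ?_⟩
  obtain ⟨s, _, hs, i, hi, ⟨q, _, hq⟩, y, _, y', _, hy, hy', he⟩ := hv4 n (hc n).le
    (by exact_mod_cast hn)
  obtain ⟨j, hj, rfl⟩ := eq_natCast_of_le hi.le
  refine ⟨s, hs, j, by exact_mod_cast hi, q, hq, ?_⟩
  rw [he, hy.eq, hy'.eq]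

end

end Pool.Agent.W894.EIP
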