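import Pool.Agent.W894.EIP.ZM
import Pool.Agent.W894.EIP.Ar

/-!
Powers with standard exponents as a bounded relation.
-/

set_option autoImplicit false
set_option linter.unusedSectionVars false
set_option linter.style.haveILetI false

namespace Pool.Agent.W894.EIP

section

variable {M : Type} [CommSemiring M] [LinearOrder M] [IsStrictOrderedRing M]
  [CanonicallyOrderedAdd M] [IDel M] {α β γ δ : Type} [Cx M α] [Cx M β] [Cx M γ] [Cx M δ]

theorem rem_unique {m q r q' r' : M} (hr : r < m) (hr' : r' < m) (h : q * m + r = q' * m + r') :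
    r = r' := by
  rcases lt_trichotomy q q' with h1 | h1 | h1
  · exfalso
    have h2 : (q + 1) * m ≤ q' * m := mul_le_mul_left (add_one_le_iff'.2 h1) m
    have h3 : q * m + r < q' * m + r' := by
      calc q * m + r < q * m + m := by gcongr
        _ = (q + 1) * m := by ring
        _ ≤ q' * m := h2
        _ ≤ q' * m + r' := le_self_add
    exact absurd h h3.ne
  · rw [h1] at h
    exact add_left_cancel h
  · exfalso
    have h2 : (q' + 1) * m ≤ q * m := mul_le_mul_left (add_one_le_iff'.2 h1) m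
    have h3 : q' * m + r' < q * m + r := by
      calc q' * m + r' < q' * m + m := by gcongr
        _ = (q' + 1) * m := by ring
        _ ≤ q * m := h2
        _ ≤ q * m + r := le_self_add
    exact absurd h h3.ne'

/-- the remainder of `a` modulo `1 + (i + 1) c` is `r` -/
def Bt (a c i r : M) : Prop := r < 1 + (i + 1) * c ∧ ∃ q, q ≤ a ∧ a = q * (1 + (i + 1) * c) + r

theorem Bt.unique {a c i r r' : M} (h : Bt a c i r) (h' : Bt a c i r') : r = r' := by
  obtain ⟨h1, q, _, h2⟩ := h
  obtain ⟨h1', q', _, h2'⟩ := h'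
  exact rem_unique h1 h1' (h2.symm.trans h2')

theorem Bt.le {a c i r : M} (h : Bt a c i r) : r ≤ a := by
  obtain ⟨_, q, _, h2⟩ := h
  rw [h2]
  exact le_add_self

theorem Bt.of_eq {a c i r q : M} (h : r < 1 + (i + 1) * c) (h2 : a = q * (1 + (i + 1) * c) + r) :
    Bt a c i r := by
  refine ⟨h, q, ?_, h2⟩
  rw [h2]
  refine le_trans ?_ le_self_add
  exact le_mul_of_one_le_right zero_le le_self_add

theorem DP.bt {f g h k : α → M} (hf : DF M f) (hg : DF M g) (hh : DF M h) (hk : DF M k) :
    DP M (fun a => Bt (f a) (g a) (h a) (k a)) :=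
  DP.and (DP.lt (by fun_prop) (by fun_prop)) (DP.bexle (by fun_prop)
    (DP.eq (by fun_prop) (by fun_prop)))

theorem coprime_aux {R : Type*} [CommRing R] {i j : ℕ} (hij : i < j) {c : R}
    (hc : ((j - i : ℕ) : R) ∣ c) : IsCoprime (1 + (i + 1 : R) * c) (1 + (j + 1 : R) * c) := by
  obtain ⟨k, hk⟩ := hc
  obtain ⟨d, rfl⟩ := Nat.exists_eq_add_of_lt hij
  have hd : ((i + d + 1 - i : ℕ) : R) = (d : R) + 1 := by
    have : i + d + 1 - i = d + 1 := by omega
    rw [this]; push_cast; ring
  rw [hd] at hk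
  refine ⟨1 - (i + 1) * ((i + d + 1 : ℕ) + 1) * k, (i + 1) ^ 2 * k, ?_⟩
  rw [hk]
  push_cast
  ring

theorem exists_code (n : ℕ) (r : ℕ → M) (c : M)
    (hc : ∀ k : ℕ, 0 < k → k ≤ n → (k : M) ∣ c) (hr : ∀ i ≤ n, r i ≤ c) :
    ∃ a, a < (1 + (n + 1) * c) ^ (n + 1) ∧ ∀ i ≤ n, Bt a c i (r i) := by
  obtain ⟨m, hm⟩ : ∃ m : ℕ → M, m = fun i : ℕ => 1 + ((i : M) + 1) * c := ⟨_, rfl⟩
  have hmpos : ∀ i, 0 < m i := fun i => by
    rw [hm]
    exact lt_of_lt_of_le one_pos le_self_add
  have hco : ∀ i ∈ Finset.range (n + 1), ∀ j ∈ Finset.range (n + 1), i ≠ j →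
      IsCoprime (Ideal.span {toZ (m i)}) (Ideal.span {toZ (m j)}) := by
    have key : ∀ i j, i < j → j ≤ n → IsCoprime (toZ (m i)) (toZ (m j)) := by
      intro i j hij hj
      have h1 := coprime_aux (R := ZD M) hij (c := toZ c) (by
        have := map_dvd (toZ (M := M)) (hc (j - i) (by omega) (by omega))
        rwa [map_natCast] at this)
      rw [hm]
      simpa using h1
    intro i hi j hj hij
    rw [Finset.mem_range] at hi hj
    rw [Ideal.isCoprime_span_singleton_iff]
    rcases lt_or_gt_of_ne hij with h | h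
    · exact key i j h (by omega)
    · exact (key j i h (by omega)).symm
  obtain ⟨x, hx0⟩ := Ideal.exists_forall_sub_mem_ideal
    (I := fun i : Fin (n + 1) => Ideal.span {toZ (m i)})
    (fun i j hij => hco i (Finset.mem_range.2 i.2) j (Finset.mem_range.2 j.2)
      (fun h => hij (Fin.ext h))) (fun i => toZ (r i))
  have hx : ∀ i ∈ Finset.range (n + 1), x - toZ (r i) ∈ Ideal.span {toZ (m i)} :=
    fun i hi => hx0 ⟨i, Finset.mem_range.1 hi⟩
  obtain ⟨D, hD⟩ : ∃ D, D = ∏ i ∈ Finset.range (n + 1), m i := ⟨_, rfl⟩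
  have hDpos : 0 < D := by rw [hD]; exact Finset.prod_pos fun i _ => hmpos i
  have hmD : ∀ i ∈ Finset.range (n + 1), m i ∣ D := fun i hi => by
    rw [hD]; exact Finset.dvd_prod_of_mem _ hi
  -- a nonnegative representative
  obtain ⟨x', hx'⟩ : ∃ x' : M, ∀ i ∈ Finset.range (n + 1), toZ (m i) ∣ toZ x' - toZ (r i) := by
    obtain ⟨a1, rfl | rfl⟩ := ZD_cases x
    · exact ⟨a1, fun i hi => Ideal.mem_span_singleton.1 (hx i hi)⟩
    · rcases zero_or_succ D with h0 | ⟨D', hD'⟩
      · exact absurd h0 hDpos.ne'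
      · refine ⟨D' * a1, fun i hi => ?_⟩
        have h1 : toZ (m i) ∣ -toZ a1 - toZ (r i) := Ideal.mem_span_singleton.1 (hx i hi)
        have h2 : toZ (m i) ∣ toZ D * toZ a1 := (map_dvd toZ (hmD i hi)).mul_right _
        have h3 := dvd_add h1 h2
        have e : -toZ a1 - toZ (r i) + toZ D * toZ a1 = toZ (D' * a1) - toZ (r i) := by
          rw [hD', map_add, map_mul, map_one]; ring
        rwa [e] at h3
  obtain ⟨q, a, _, ha, hqa⟩ := division x' D hDpos
  refine ⟨a, ?_, ?_⟩
  · refine lt_of_lt_of_le ha ?_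
    rw [hD, ← Finset.card_range (n + 1), ← Finset.prod_const, Finset.card_range]
    refine Finset.prod_le_prod' fun i hi => ?_
    rw [Finset.mem_range] at hi
    rw [hm]
    have : (i : M) ≤ n := by exact_mod_cast (by omega : i ≤ n)
    simp only
    gcongr
  · intro i hi
    have hi' : i ∈ Finset.range (n + 1) := Finset.mem_range.2 (by omega)
    obtain ⟨q2, s, _, hs, hqs⟩ := division a (m i) (hmpos i)
    have h1 : toZ (m i) ∣ toZ s - toZ (r i) := by
      have h2 := hx' i hi'
      have h3 : toZ (m i) ∣ toZ (D * q) := map_dvd toZ ((hmD i hi').mul_right _)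
      have h4 : toZ (m i) ∣ toZ (m i * q2) := map_dvd toZ (dvd_mul_right _ _)
      have e : toZ s - toZ (r i) = (toZ x' - toZ (r i)) - toZ (D * q) - toZ (m i * q2) := by
        rw [hqa, hqs]
        simp only [map_add]
        ring
      rw [e]
      exact dvd_sub (dvd_sub h2 h3) h4
    have hrm : r i < m i := by
      refine lt_of_le_of_lt (hr i hi) ?_
      rw [hm]
      simp only
      calc c < 1 + c := lt_one_add c
        _ ≤ 1 + ((i : M) * c + c) := by gcongr; exact le_add_self
        _ = 1 + ((i : M) + 1) * c := by ring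
    have hsr : s = r i := by
      obtain ⟨z, hz⟩ := h1
      obtain ⟨t, rfl | rfl⟩ := ZD_cases z
      · have h2 : s = m i * t + r i := by
          apply toZ_inj
          rw [map_add, map_mul]
          linear_combination hz
        exact rem_unique (q := 0) (q' := t) hs hrm (by rw [h2]; ring)
      · have h2 : r i = m i * t + s := by
          apply toZ_inj
          rw [map_add, map_mul]
          linear_combination -hz
        exact (rem_unique (q := 0) (q' := t) hrm hs (by rw [h2]; ring)).symm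
    rw [← hsr]
    have hs' : s < 1 + ((i : M) + 1) * c := by
      have := hs
      rw [hm] at this
      exact this
    refine Bt.of_eq (q := q2) hs' ?_
    rw [hqs, hm]
    ring

/-- `y = x ^ n`, as a bounded relation -/
def Pow (B x n y : M) : Prop :=
  ∃ a, a ≤ B ∧ ∃ c, c ≤ B ∧ Bt a c 0 1 ∧ Bt a c n y ∧
    ∀ i, i < n → ∃ r, r ≤ a ∧ Bt a c i r ∧ Bt a c (i + 1) (x * r)

theorem DP.power {f g h k : α → M} (hf : DF M f) (hg : DF M g) (hh : DF M h) (hk : DF M k) :
    DP M (fun a => Pow (f a) (g a) (h a) (k a)) :=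
  DP.bexle (by fun_prop) (DP.bexle (by fun_prop) (DP.and
    (DP.bt (by fun_prop) (by fun_prop) (by fun_prop) (by fun_prop))
    (DP.and (DP.bt (by fun_prop) (by fun_prop) (by fun_prop) (by fun_prop))
      (DP.ball (by fun_prop) (DP.bexle (by fun_prop) (DP.and
        (DP.bt (by fun_prop) (by fun_prop) (by fun_prop) (by fun_prop))
        (DP.bt (by fun_prop) (by fun_prop) (by fun_prop) (by fun_prop))))))))

theorem Pow.eq {B x y : M} {n : ℕ} (h : Pow B x n y) : y = x ^ n := by
  obtain ⟨a, _, c, _, h1, h2, h3⟩ := h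
  have key : ∀ i : ℕ, i ≤ n → Bt a c (i : M) (x ^ i) := by
    intro i
    induction i with
    | zero => intro _; rw [pow_zero, Nat.cast_zero]; exact h1
    | succ i ih =>
      intro hi
      obtain ⟨r, _, h4, h5⟩ := h3 i (by exact_mod_cast (by omega : i < n))
      rw [h4.unique (ih (by omega))] at h5
      rw [pow_succ, mul_comm, Nat.cast_succ]
      exact h5
  exact h2.unique (key n le_rfl)

/-- `B` is above all powers of `X`, and `X` is nonstandard -/
def SP (X B : M) : Prop := Inf X ∧ ∀ k : ℕ, X ^ k ≤ B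

theorem Pow.mk {X B x : M} (hXB : SP X B) (hx : x ≤ X) (n : ℕ) : Pow B x n (x ^ n) := by
  obtain ⟨hX, hB⟩ := hXB
  have hX1 : 1 ≤ X := by
    have := (hX 1).le
    rwa [Nat.cast_one] at this
  obtain ⟨c, hc⟩ : ∃ c : M, c = (n.factorial : M) * X ^ n := ⟨_, rfl⟩
  have hfac : (1 : M) ≤ (n.factorial : M) := by exact_mod_cast Nat.factorial_pos n
  have hxi : ∀ i ≤ n, x ^ i ≤ c := by
    intro i hi
    rw [hc]
    calc x ^ i ≤ X ^ i := pow_le_pow_left' hx i
      _ ≤ X ^ n := pow_le_pow_right₀ hX1 hi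
      _ ≤ (n.factorial : M) * X ^ n := le_mul_of_one_le_left zero_le hfac
  obtain ⟨a, ha, hbt⟩ := exists_code n (fun i => x ^ i) c (by
    intro k hk hkn
    rw [hc]
    refine Dvd.dvd.mul_right ?_ _
    exact map_dvd (Nat.castRingHom M) (Nat.dvd_factorial hk hkn)) hxi
  have hcX : c ≤ X ^ (n + 1) := by
    rw [hc, pow_succ, mul_comm]
    exact mul_le_mul_right (hX _).le _
  have haB : a ≤ B := by
    refine ha.le.trans ?_
    have h1 : 1 + ((n : M) + 1) * c ≤ X ^ (n + 3) := by
      have h2 : ((n : M) + 1) ≤ X := by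
        have := (hX (n + 1)).le
        rwa [Nat.cast_succ] at this
      have h3 : (2 : M) ≤ X := by
        have := (hX 2).le
        exact_mod_cast this
      have h4 : (1 : M) ≤ X ^ (n + 2) := one_le_pow₀ hX1
      calc 1 + ((n : M) + 1) * c ≤ X ^ (n + 2) + X * X ^ (n + 1) :=
            add_le_add h4 (mul_le_mul' h2 hcX)
        _ = 2 * X ^ (n + 2) := by ring
        _ ≤ X * X ^ (n + 2) := mul_le_mul_left h3 _
        _ = X ^ (n + 3) := by ring
    refine (pow_le_pow_left' h1 _).trans ?_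
    rw [← pow_mul]
    exact hB _
  refine ⟨a, haB, c, hcX.trans (hB _), ?_, hbt n le_rfl, ?_⟩
  · have := hbt 0 (Nat.zero_le _)
    rwa [pow_zero, Nat.cast_zero] at this
  · intro i hi
    obtain ⟨j, hj, rfl⟩ := eq_natCast_of_le hi.le
    have hj' : j < n := by exact_mod_cast hi
    refine ⟨x ^ j, (hbt j hj).le, hbt j hj, ?_⟩
    have := hbt (j + 1) hj'
    rwa [pow_succ, mul_comm, Nat.cast_succ] at this

end

end Pool.Agent.W894.EIP
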