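import Mathlib

/-!
Real closures: a maximal ordered subfield of an algebraically closed field has the intermediate
value property for polynomials.
-/

set_option autoImplicit false
set_option linter.unusedSectionVars false
set_option linter.style.haveILetI false
set_option linter.unusedTactic false
set_option warn.classDefReducibility false

namespace Pool.Agent.W894.EIP

open Polynomial

/-- positive sets in a field -/
structure Pos {Ω : Type*} [Field Ω] (T : Set Ω) : Prop where
  zero : (0 : Ω) ∈ T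
  one : (1 : Ω) ∈ T
  add : ∀ x ∈ T, ∀ y ∈ T, x + y ∈ T
  mul : ∀ x ∈ T, ∀ y ∈ T, x * y ∈ T
  neg1 : (-1 : Ω) ∉ T
  sq : ∀ x ∈ T, ∀ y ∈ T, (x - y) ^ 2 ∈ T
  inv : ∀ x ∈ T, x⁻¹ ∈ T

section Zorn

variable {Ω : Type*} [Field Ω]

theorem exists_max {T0 : Set Ω} (h0 : Pos T0) :
    ∃ T, T0 ⊆ T ∧ Pos T ∧ ∀ T', Pos T' → T ⊆ T' → T' ⊆ T := by
  obtain ⟨T, h1, h2⟩ := zorn_subset_nonempty {T : Set Ω | Pos T} (by
    intro c hc hch hne
    refine ⟨⋃₀ c, ?_, fun s hs => Set.subset_sUnion_of_mem hs⟩
    have two : ∀ x ∈ ⋃₀ c, ∀ y ∈ ⋃₀ c, ∃ T ∈ c, x ∈ T ∧ y ∈ T := by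
      rintro x ⟨T1, h1, hx⟩ y ⟨T2, h2, hy⟩
      rcases hch.total h1 h2 with h | h
      · exact ⟨T2, h2, h hx, hy⟩
      · exact ⟨T1, h1, hx, h hy⟩
    obtain ⟨T1, hT1⟩ := hne
    constructor
    · exact ⟨T1, hT1, (hc hT1).zero⟩
    · exact ⟨T1, hT1, (hc hT1).one⟩
    · intro x hx y hy
      obtain ⟨T, h1, h2, h3⟩ := two x hx y hy
      exact ⟨T, h1, (hc h1).add x h2 y h3⟩
    · intro x hx y hy
      obtain ⟨T, h1, h2, h3⟩ := two x hx y hy
      exact ⟨T, h1, (hc h1).mul x h2 y h3⟩
    · rintro ⟨T, h1, h2⟩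
      exact (hc h1).neg1 h2
    · intro x hx y hy
      obtain ⟨T, h1, h2, h3⟩ := two x hx y hy
      exact ⟨T, h1, (hc h1).sq x h2 y h3⟩
    · rintro x ⟨T, h1, h2⟩
      exact ⟨T, h1, (hc h1).inv x h2⟩) T0 h0
  exact ⟨T, h1, h2.prop, fun T' h3 h4 => h2.le_of_ge h3 h4⟩

variable {T : Set Ω}

/-- the field of differences -/
def KT (hT : Pos T) : Subfield Ω where
  carrier := {z | ∃ x ∈ T, ∃ y ∈ T, z = x - y}
  mul_mem' := by
    rintro _ _ ⟨x, hx, y, hy, rfl⟩ ⟨x', hx', y', hy', rfl⟩
    exact ⟨x * x' + y * y', hT.add _ (hT.mul _ hx _ hx') _ (hT.mul _ hy _ hy'),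
      x * y' + y * x', hT.add _ (hT.mul _ hx _ hy') _ (hT.mul _ hy _ hx'), by ring⟩
  one_mem' := ⟨1, hT.one, 0, hT.zero, by simp⟩
  add_mem' := by
    rintro _ _ ⟨x, hx, y, hy, rfl⟩ ⟨x', hx', y', hy', rfl⟩
    exact ⟨x + x', hT.add _ hx _ hx', y + y', hT.add _ hy _ hy', by ring⟩
  zero_mem' := ⟨0, hT.zero, 0, hT.zero, by simp⟩
  neg_mem' := by
    rintro _ ⟨x, hx, y, hy, rfl⟩
    exact ⟨y, hy, x, hx, by ring⟩
  inv_mem' := by
    rintro _ ⟨x, hx, y, hy, rfl⟩
    have h1 : ((x - y) ^ 2)⁻¹ ∈ T := hT.inv _ (hT.sq x hx y hy)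
    refine ⟨x * ((x - y) ^ 2)⁻¹, hT.mul _ hx _ h1, y * ((x - y) ^ 2)⁻¹, hT.mul _ hy _ h1, ?_⟩
    by_cases h : x - y = 0
    · rw [h]; simp
    · field_simp

theorem mem_KT (hT : Pos T) {z : Ω} : z ∈ KT hT ↔ ∃ x ∈ T, ∃ y ∈ T, z = x - y := Iff.rfl

theorem sub_KT (hT : Pos T) {z : Ω} (h : z ∈ T) : z ∈ KT hT := ⟨z, h, 0, hT.zero, by simp⟩

theorem sq_KT (hT : Pos T) {z : Ω} (h : z ∈ KT hT) : z ^ 2 ∈ T := by
  obtain ⟨x, hx, y, hy, rfl⟩ := h
  exact hT.sq x hx y hy

theorem Pos.anti (hT : Pos T) {x : Ω} (h : x ∈ T) (h' : -x ∈ T) : x = 0 := by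
  by_contra hx
  apply hT.neg1
  have := hT.mul _ h' _ (hT.inv _ h)
  rwa [neg_mul, mul_inv_cancel₀ hx] at this

theorem Pos.total (hT : Pos T) (hmax : ∀ T', Pos T' → T ⊆ T' → T' ⊆ T) {u : Ω}
    (hu : u ∈ KT hT) : u ∈ T ∨ -u ∈ T := by
  by_contra hcon
  push Not at hcon
  obtain ⟨h1, h2⟩ := hcon
  apply h2
  obtain ⟨T', hT'⟩ : ∃ T' : Set Ω, T' = {z | ∃ s ∈ T, ∃ t ∈ T, z = s - u * t} := ⟨_, rfl⟩
  have hsub : T ⊆ T' := by
    intro z hz
    rw [hT']
    exact ⟨z, hz, 0, hT.zero, by simp⟩
  have hK : ∀ z ∈ T', z ∈ KT hT := by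
    intro z hz
    rw [hT'] at hz
    obtain ⟨s, hs, t, ht, rfl⟩ := hz
    exact (KT hT).sub_mem (sub_KT hT hs) ((KT hT).mul_mem hu (sub_KT hT ht))
  have hadd : ∀ x ∈ T', ∀ y ∈ T', x + y ∈ T' := by
    intro x hx y hy
    rw [hT'] at hx hy ⊢
    obtain ⟨s, hs, t, ht, rfl⟩ := hx
    obtain ⟨s', hs', t', ht', rfl⟩ := hy
    exact ⟨s + s', hT.add _ hs _ hs', t + t', hT.add _ ht _ ht', by ring⟩
  have hmul : ∀ x ∈ T', ∀ y ∈ T', x * y ∈ T' := by
    intro x hx y hy
    rw [hT'] at hx hy ⊢
    obtain ⟨s, hs, t, ht, rfl⟩ := hx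
    obtain ⟨s', hs', t', ht', rfl⟩ := hy
    exact ⟨s * s' + u ^ 2 * (t * t'), hT.add _ (hT.mul _ hs _ hs') _
      (hT.mul _ (sq_KT hT hu) _ (hT.mul _ ht _ ht')), s * t' + s' * t,
      hT.add _ (hT.mul _ hs _ ht') _ (hT.mul _ hs' _ ht), by ring⟩
  have hP : Pos T' := by
    constructor
    · exact hsub hT.zero
    · exact hsub hT.one
    · exact hadd
    · exact hmul
    · intro h3
      rw [hT'] at h3
      obtain ⟨s, hs, t, ht, h4⟩ := h3
      apply h1
      have h5 : u * t = 1 + s := by linear_combination h4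
      have h6 : t ≠ 0 := by
        rintro rfl
        apply hT.neg1
        have : (-1 : Ω) = s := by
          rw [mul_zero] at h5
          linear_combination h5
        rw [this]
        exact hs
      have h7 : u = (1 + s) * t⁻¹ := by
        rw [← h5]; field_simp
      rw [h7]
      exact hT.mul _ (hT.add _ hT.one _ hs) _ (hT.inv _ ht)
    · intro x hx y hy
      exact hsub (sq_KT hT ((KT hT).sub_mem (hK x hx) (hK y hy)))
    · intro x hx
      by_cases h3 : x = 0
      · rw [h3, inv_zero]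
        exact hsub hT.zero
      · have h4 : x⁻¹ = x * (x⁻¹) ^ 2 := by field_simp
        rw [h4]
        exact hmul _ hx _ (hsub (sq_KT hT ((KT hT).inv_mem (hK x hx))))
  refine hmax T' hP hsub ?_
  rw [hT']
  exact ⟨0, hT.zero, 1, hT.one, by simp⟩

end Zorn

section Rel

variable {K : Type*} [Field K] [LinearOrder K] [IsStrictOrderedRing K]

/-- sums of squares of polynomials with nonnegative coefficients -/
noncomputable def SQ (K : Type*) [Field K] [LinearOrder K] : AddSubmonoid K[X] :=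
  AddSubmonoid.closure {p | ∃ (c : K) (g : K[X]), 0 ≤ c ∧ p = C c * g ^ 2}

theorem SQ.mk {c : K} (hc : 0 ≤ c) (g : K[X]) : C c * g ^ 2 ∈ SQ K :=
  AddSubmonoid.subset_closure ⟨c, g, hc, rfl⟩

theorem SQ.mul {s t : K[X]} (hs : s ∈ SQ K) (ht : t ∈ SQ K) : s * t ∈ SQ K := by
  induction hs using AddSubmonoid.closure_induction with
  | mem x hx =>
    obtain ⟨c, g, hc, rfl⟩ := hx
    induction ht using AddSubmonoid.closure_induction with
    | mem y hy =>
      obtain ⟨c', g', hc', rfl⟩ := hy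
      have : C c * g ^ 2 * (C c' * g' ^ 2) = C (c * c') * (g * g') ^ 2 := by
        rw [C_mul]; ring
      rw [this]
      exact SQ.mk (mul_nonneg hc hc') _
    | zero => rw [mul_zero]; exact (SQ K).zero_mem
    | add y z _ _ h1 h2 => rw [mul_add]; exact (SQ K).add_mem h1 h2
  | zero => rw [zero_mul]; exact (SQ K).zero_mem
  | add y z _ _ h1 h2 => rw [add_mul]; exact (SQ K).add_mem h1 h2

theorem SQ.eval_nonneg {s : K[X]} (hs : s ∈ SQ K) (a : K) : 0 ≤ s.eval a := by
  induction hs using AddSubmonoid.closure_induction with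
  | mem x hx =>
    obtain ⟨c, g, hc, rfl⟩ := hx
    simp only [eval_mul, eval_C, eval_pow]
    positivity
  | zero => simp
  | add y z _ _ h1 h2 => rw [eval_add]; exact add_nonneg h1 h2

theorem SQ.reduce {f : K[X]} (hf : 0 < f.natDegree) {s : K[X]} (hs : s ∈ SQ K) :
    ∃ s' ∈ SQ K, f ∣ s - s' ∧ s'.natDegree ≤ 2 * (f.natDegree - 1) := by
  induction hs using AddSubmonoid.closure_induction with
  | mem x hx =>
    obtain ⟨c, g, hc, rfl⟩ := hx
    refine ⟨C c * (g % f) ^ 2, SQ.mk hc _, ?_, ?_⟩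
    · have h1 : g = f * (g / f) + g % f := (EuclideanDomain.div_add_mod g f).symm
      refine ⟨C c * (g / f) * (g + g % f), ?_⟩
      have h2 : C c * g ^ 2 - C c * (g % f) ^ 2 = C c * (g - g % f) * (g + g % f) := by ring
      have h3 : g - g % f = f * (g / f) := by
        nth_rewrite 1 [h1]; ring
      rw [h2, h3]; ring
    · have h1 : (g % f).natDegree < f.natDegree := natDegree_mod_lt g hf.ne'
      refine (natDegree_C_mul_le _ _).trans ?_
      refine natDegree_pow_le.trans ?_
      omega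
  | zero => exact ⟨0, (SQ K).zero_mem, by simp, by simp⟩
  | add y z _ _ h1 h2 =>
    obtain ⟨s1, g1, g2, g3⟩ := h1
    obtain ⟨s2, g4, g5, g6⟩ := h2
    refine ⟨s1 + s2, (SQ K).add_mem g1 g4, ?_, (natDegree_add_le _ _).trans (max_le g3 g6)⟩
    have : y + z - (s1 + s2) = (y - s1) + (z - s2) := by ring
    rw [this]
    exact dvd_add g2 g5

theorem natDegree_pos_of_sign {f : K[X]} {a b : K} (h : f.eval a * f.eval b < 0) :
    0 < f.natDegree := by
  by_contra hc
  have h1 : f.natDegree = 0 := by omega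
  rw [eq_C_of_natDegree_eq_zero h1] at h
  simp only [eval_C] at h
  nlinarith [mul_self_nonneg (f.coeff 0)]

theorem no_rel : ∀ (n : ℕ) (f : K[X]), f.natDegree = n → ∀ a b : K, f.eval a * f.eval b < 0 →
    ∀ s ∈ SQ K, ¬ f ∣ 1 + s := by
  intro n
  induction n using Nat.strong_induction_on with
  | _ n ih =>
    intro f hfn a b hab s hs hdvd
    have hpos := natDegree_pos_of_sign hab
    obtain ⟨s', hs', h1, h2⟩ := SQ.reduce hpos hs
    have h3 : f ∣ 1 + s' := by
      have : 1 + s' = (1 + s) - (s - s') := by ring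
      rw [this]
      exact dvd_sub hdvd h1
    obtain ⟨h, hh⟩ := h3
    have hev : ∀ x : K, 1 ≤ f.eval x * h.eval x := by
      intro x
      rw [← eval_mul, ← hh, eval_add, eval_one]
      have := SQ.eval_nonneg hs' x
      linarith
    have hf0 : f ≠ 0 := by
      rintro rfl
      simp at hpos
    have hh0 : h ≠ 0 := by
      rintro rfl
      have := hev 0
      simp at this
      exact absurd this (not_le.2 one_pos)
    have hdeg : f.natDegree + h.natDegree ≤ 2 * (f.natDegree - 1) := by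
      rw [← natDegree_mul hf0 hh0, ← hh]
      refine (natDegree_add_le _ _).trans (max_le ?_ h2)
      rw [natDegree_one]
      exact Nat.zero_le _
    refine ih h.natDegree (by omega) h rfl a b ?_ s' hs' ⟨f, by rw [hh, mul_comm]⟩
    have e1 := hev a
    have e2 := hev b
    by_contra hc
    rw [not_lt] at hc
    have h5 : 0 < (f.eval a * h.eval a) * (f.eval b * h.eval b) := by positivity
    have h6 : (f.eval a * h.eval a) * (f.eval b * h.eval b) =
      (f.eval a * f.eval b) * (h.eval a * h.eval b) := by ring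
    rw [h6] at h5
    nlinarith

end Rel

section Ord

variable {Ω : Type*} [Field Ω] {T : Set Ω}

/-- the order of the field of differences of a maximal positive set -/
noncomputable def ordKT (hT : Pos T) (hmax : ∀ T', Pos T' → T ⊆ T' → T' ⊆ T) :
    LinearOrder (KT hT) where
  le x y := (y : Ω) - x ∈ T
  le_refl x := by
    change (x : Ω) - x ∈ T
    rw [sub_self]
    exact hT.zero
  le_trans x y z h h' := by
    change (z : Ω) - x ∈ T
    have : (z : Ω) - x = (y - x) + (z - y) := by ring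
    rw [this]
    exact hT.add _ h _ h'
  le_antisymm x y h h' := by
    have h1 := hT.anti (x := (y : Ω) - x) h (by rw [neg_sub]; exact h')
    exact Subtype.ext (sub_eq_zero.1 h1).symm
  le_total x y := by
    have := hT.total hmax ((y - x : KT hT)).2
    rcases this with h | h
    · exact Or.inl h
    · refine Or.inr ?_
      change (x : Ω) - y ∈ T
      have e : (x : Ω) - y = -((y - x : KT hT) : Ω) := by push_cast; ring
      rw [e]
      exact h
  toDecidableLE := Classical.decRel _

theorem ordKT_strict (hT : Pos T) (hmax : ∀ T', Pos T' → T ⊆ T' → T' ⊆ T) :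
    @IsStrictOrderedRing (KT hT) _ (ordKT hT hmax).toPartialOrder := by
  letI := ordKT hT hmax
  have key : ∀ x y : KT hT, x ≤ y → ∀ z : KT hT, x + z ≤ y + z := fun x y h z => by
    change ((y + z : KT hT) : Ω) - ((x + z : KT hT) : Ω) ∈ T
    have h' : (y : Ω) - x ∈ T := h
    have e : ((y + z : KT hT) : Ω) - ((x + z : KT hT) : Ω) = y - x := by push_cast; ring
    rw [e]
    exact h'
  haveI : IsOrderedAddMonoid (KT hT) := by
    refine ⟨fun x y h z => ?_, fun x y h z => ?_⟩
    · first
        | exact key x y h z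
        | (rw [add_comm z x, add_comm z y]; exact key x y h z)
    · first
        | exact key x y h z
        | (rw [add_comm z x, add_comm z y]; exact key x y h z)
  have hz : (0 : KT hT) ≤ 1 := by
    change ((1 : KT hT) : Ω) - ((0 : KT hT) : Ω) ∈ T
    have e : ((1 : KT hT) : Ω) - ((0 : KT hT) : Ω) = 1 := by push_cast; ring
    rw [e]
    exact hT.one
  haveI : ZeroLEOneClass (KT hT) := ⟨hz⟩
  refine IsStrictOrderedRing.of_mul_pos ?_
  intro a b ha hb
  refine lt_of_le_of_ne ?_ (mul_ne_zero ha.ne' hb.ne').symm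
  change ((a * b : KT hT) : Ω) - ((0 : KT hT) : Ω) ∈ T
  have h1 : (a : Ω) - ((0 : KT hT) : Ω) ∈ T := ha.le
  have h2 : (b : Ω) - ((0 : KT hT) : Ω) ∈ T := hb.le
  have e : ((a * b : KT hT) : Ω) - ((0 : KT hT) : Ω) =
    (a - ((0 : KT hT) : Ω)) * (b - ((0 : KT hT) : Ω)) := by push_cast; ring
  rw [e]
  exact hT.mul _ h1 _ h2

end Ord

/-- the intermediate value property for polynomials -/
def IVP (K : Type*) [Field K] [LinearOrder K] : Prop :=
  ∀ (f : K[X]) (a b : K), a < b → f.eval a * f.eval b < 0 → ∃ c, a < c ∧ c < b ∧ f.eval c = 0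

section Adj

variable {Ω : Type*} [Field Ω] [CharZero Ω] {T : Set Ω}

theorem adj (hT : Pos T) (hmax : ∀ T', Pos T' → T ⊆ T' → T' ⊆ T) (f : (KT hT)[X])
    (hirr : Irreducible f) (α : Ω) (hα : aeval α f = 0)
    (hrel : letI := ordKT hT hmax; ∀ s ∈ SQ (KT hT), ¬ f ∣ 1 + s) : α ∈ KT hT := by
  letI := ordKT hT hmax
  haveI := ordKT_strict hT hmax
  obtain ⟨T', hT'⟩ : ∃ T' : Set Ω, T' = {z | ∃ s ∈ SQ (KT hT), z = aeval α s} := ⟨_, rfl⟩
  have hker : ∀ g : (KT hT)[X], aeval α g = 0 → f ∣ g := by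
    intro g hg
    have hm : minpoly (KT hT) α ∣ g := minpoly.dvd _ _ hg
    have he := minpoly.eq_of_irreducible hirr hα
    rw [← he] at hm
    exact (dvd_mul_right f _).trans hm
  have hsub : T ⊆ T' := by
    intro z hz
    rw [hT']
    have h0 : (0 : KT hT) ≤ ⟨z, sub_KT hT hz⟩ := by
      change z - ((0 : KT hT) : Ω) ∈ T
      have e : z - ((0 : KT hT) : Ω) = z := by push_cast; ring
      rw [e]
      exact hz
    refine ⟨_, SQ.mk h0 1, ?_⟩
    simp only [one_pow, mul_one, aeval_C]
    rfl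
  have hmul : ∀ x ∈ T', ∀ y ∈ T', x * y ∈ T' := by
    intro x hx y hy
    rw [hT'] at hx hy ⊢
    obtain ⟨s, hs, rfl⟩ := hx
    obtain ⟨t, ht, rfl⟩ := hy
    exact ⟨s * t, SQ.mul hs ht, by rw [map_mul]⟩
  have hsqT : ∀ g : (KT hT)[X], (aeval α g) ^ 2 ∈ T' := by
    intro g
    rw [hT']
    refine ⟨C 1 * g ^ 2, SQ.mk zero_le_one g, by simp⟩
  have hP : Pos T' := by
    constructor
    · exact hsub hT.zero
    · exact hsub hT.one
    · intro x hx y hy
      rw [hT'] at hx hy ⊢
      obtain ⟨s, hs, rfl⟩ := hx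
      obtain ⟨t, ht, rfl⟩ := hy
      exact ⟨s + t, (SQ _).add_mem hs ht, by rw [map_add]⟩
    · exact hmul
    · intro h1
      rw [hT'] at h1
      obtain ⟨s, hs, h2⟩ := h1
      refine hrel s hs (hker _ ?_)
      rw [map_add, ← h2, map_one]
      ring
    · intro x hx y hy
      rw [hT'] at hx hy
      obtain ⟨s, hs, rfl⟩ := hx
      obtain ⟨t, ht, rfl⟩ := hy
      rw [← map_sub]
      exact hsqT _
    · intro x hx
      by_cases h0 : x = 0
      · rw [h0, inv_zero]
        exact hsub hT.zero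
      · have hx' := hx
        rw [hT'] at hx'
        obtain ⟨s, hs, rfl⟩ := hx'
        have h1 : ¬ f ∣ s := by
          rintro ⟨q, rfl⟩
          apply h0
          rw [map_mul, hα, zero_mul]
        have h2 : IsCoprime f s := (hirr.coprime_iff_not_dvd).2 h1
        obtain ⟨p, q, hpq⟩ := h2
        have h3 : aeval α q * aeval α s = 1 := by
          have := congrArg (aeval α) hpq
          simpa [hα] using this
        have h4 : (aeval α s)⁻¹ = aeval α s * (aeval α q) ^ 2 := by
          have h5 : aeval α q = (aeval α s)⁻¹ := eq_inv_of_mul_eq_one_left h3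
          rw [h5]
          field_simp
        rw [h4]
        exact hmul _ hx _ (hsqT q)
  have hle := hmax T' hP hsub
  refine ⟨((α + 1) / 2) ^ 2, ?_, ((α - 1) / 2) ^ 2, ?_, by ring⟩
  · apply hle
    have := hsqT (C (1 / 2) * (X + 1))
    simp only [map_mul, map_add, aeval_C, aeval_X, map_one] at this
    have e : ((algebraMap (KT hT) Ω) (1 / 2)) * (α + 1) = (α + 1) / 2 := by
      rw [map_div₀, map_one, map_ofNat]; ring
    rwa [e] at this
  · apply hle
    have := hsqT (C (1 / 2) * (X - 1))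
    simp only [map_mul, map_sub, aeval_C, aeval_X, map_one] at this
    have e : ((algebraMap (KT hT) Ω) (1 / 2)) * (α - 1) = (α - 1) / 2 := by
      rw [map_div₀, map_one, map_ofNat]; ring
    rwa [e] at this

theorem ivp_KT [IsAlgClosed Ω] (hT : Pos T) (hmax : ∀ T', Pos T' → T ⊆ T' → T' ⊆ T) :
    @IVP (KT hT) _ (ordKT hT hmax) := by
  letI := ordKT hT hmax
  haveI := ordKT_strict hT hmax
  intro f a b hab hsign
  induction hn : f.natDegree using Nat.strong_induction_on generalizing f with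
  | _ n ih =>
    by_cases hirr : Irreducible f
    · have hdeg : (f.map (algebraMap (KT hT) Ω)).degree ≠ 0 := by
        rw [degree_map]
        have := natDegree_pos_of_sign hsign
        intro h
        have := natDegree_eq_of_degree_eq_some (n := 0) h
        omega
      obtain ⟨α, hα⟩ := IsAlgClosed.exists_root _ hdeg
      have hα' : aeval α f = 0 := by
        rw [aeval_def, ← eval_map]
        exact hα
      have hmem := adj hT hmax f hirr α hα' (fun s hs => no_rel _ f rfl a b hsign s hs)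
      obtain ⟨c, hc⟩ : ∃ c : KT hT, c = ⟨α, hmem⟩ := ⟨_, rfl⟩
      have hroot : f.eval c = 0 := by
        have h1 : algebraMap (KT hT) Ω (f.eval c) = 0 := by
          rw [← aeval_algebraMap_apply_eq_algebraMap_eval]
          rw [hc]
          exact hα'
        exact (map_eq_zero _).1 h1
      obtain ⟨q, hq⟩ := dvd_iff_isRoot.2 hroot
      have hqu : IsUnit q := by
        rcases hirr.isUnit_or_isUnit hq with h | h
        · exact absurd h (not_isUnit_X_sub_C c)
        · exact h
      obtain ⟨k, hk, rfl⟩ := Polynomial.isUnit_iff.1 hqu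
      have e : ∀ x, f.eval x = (x - c) * k := by
        intro x
        rw [hq]; simp
      rw [e, e] at hsign
      have h5 : (a - c) * (b - c) < 0 := by
        have h6 : (a - c) * k * ((b - c) * k) = (a - c) * (b - c) * (k * k) := by ring
        rw [h6] at hsign
        have h7 : 0 < k * k := mul_self_pos.2 hk.ne_zero
        exact (mul_neg_iff.1 hsign).resolve_left (fun h8 => absurd h8.2 (not_lt.2 h7.le)) |>.1
      refine ⟨c, ?_, ?_, hroot⟩
      · rcases mul_neg_iff.1 h5 with h6 | h6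
        · exfalso
          have := h6.1.trans (sub_lt_sub_right hab c)
          exact absurd this (not_lt.2 h6.2.le)
        · exact sub_neg.1 h6.1
      · rcases mul_neg_iff.1 h5 with h6 | h6
        · exfalso
          have := h6.1.trans (sub_lt_sub_right hab c)
          exact absurd this (not_lt.2 h6.2.le)
        · exact sub_pos.1 h6.2
    · have hpos := natDegree_pos_of_sign hsign
      have hnu : ¬ IsUnit f := by
        intro h
        have := natDegree_eq_zero_of_isUnit h
        omega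
      have hf0 : f ≠ 0 := by
        rintro rfl
        simp at hpos
      rw [irreducible_iff] at hirr
      push Not at hirr
      obtain ⟨g, h, hgh, hg, hh⟩ := hirr hnu
      have hg0 : g ≠ 0 := by
        rintro rfl
        exact hf0 (by rw [hgh, zero_mul])
      have hh0 : h ≠ 0 := by
        rintro rfl
        exact hf0 (by rw [hgh, mul_zero])
      have hgd : 0 < g.natDegree := by
        by_contra hc
        have h1 : g.natDegree = 0 := by omega
        rw [eq_C_of_natDegree_eq_zero h1] at hg hg0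
        apply hg
        rw [isUnit_C]
        exact isUnit_iff_ne_zero.2 (fun h2 => hg0 (by rw [h2, C_0]))
      have hhd : 0 < h.natDegree := by
        by_contra hc
        have h1 : h.natDegree = 0 := by omega
        rw [eq_C_of_natDegree_eq_zero h1] at hh hh0
        apply hh
        rw [isUnit_C]
        exact isUnit_iff_ne_zero.2 (fun h2 => hh0 (by rw [h2, C_0]))
      have hdeg : f.natDegree = g.natDegree + h.natDegree := by rw [hgh, natDegree_mul hg0 hh0]
      have hev : ∀ x, f.eval x = g.eval x * h.eval x := by intro x; rw [hgh, eval_mul]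
      have hor : g.eval a * g.eval b < 0 ∨ h.eval a * h.eval b < 0 := by
        by_contra hc
        push Not at hc
        rw [hev, hev] at hsign
        have : 0 ≤ (g.eval a * g.eval b) * (h.eval a * h.eval b) := mul_nonneg hc.1 hc.2
        have e : g.eval a * h.eval a * (g.eval b * h.eval b) =
          (g.eval a * g.eval b) * (h.eval a * h.eval b) := by ring
        rw [e] at hsign
        exact absurd this (not_le.2 hsign)
      rcases hor with h1 | h1
      · obtain ⟨c, h2, h3, h4⟩ := ih g.natDegree (by omega) g h1 rfl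
        exact ⟨c, h2, h3, by rw [hev, h4, zero_mul]⟩
      · obtain ⟨c, h2, h3, h4⟩ := ih h.natDegree (by omega) h h1 rfl
        exact ⟨c, h2, h3, by rw [hev, h4, mul_zero]⟩

end Adj

end Pool.Agent.W894.EIP
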