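import Pool.Agent.W894.EIP.GP2

/-!
Finite elements, infinitesimals and standard parts.
-/

set_option autoImplicit false
set_option linter.unusedSectionVars false
set_option linter.unusedVariables false

namespace Pool.Agent.W894.EIP

section

variable {R : Type} [Field R] [LinearOrder R] [IsStrictOrderedRing R]

/-- finite elements -/
def Fi (x : R) : Prop := 0 ≤ ArchimedeanClass.mk x

/-- the standard part -/
noncomputable def st (x : R) : ℝ := ArchimedeanClass.stdPart x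

theorem fi_iff {x : R} : Fi x ↔ ∃ n : ℕ, |x| ≤ n := by
  unfold Fi
  rw [← ArchimedeanClass.mk_one, ArchimedeanClass.mk_le_mk]
  simp

theorem Fi.of_le {x : R} {n : ℕ} (h : |x| ≤ n) : Fi x := fi_iff.2 ⟨n, h⟩

theorem Fi.add {x y : R} (hx : Fi x) (hy : Fi y) : Fi (x + y) := by
  obtain ⟨n, hn⟩ := fi_iff.1 hx
  obtain ⟨m, hm⟩ := fi_iff.1 hy
  refine fi_iff.2 ⟨n + m, (abs_add_le x y).trans ?_⟩
  push_cast
  exact add_le_add hn hm

theorem Fi.neg {x : R} (hx : Fi x) : Fi (-x) := by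
  obtain ⟨n, hn⟩ := fi_iff.1 hx
  exact fi_iff.2 ⟨n, by rwa [abs_neg]⟩

theorem Fi.sub {x y : R} (hx : Fi x) (hy : Fi y) : Fi (x - y) := by
  rw [sub_eq_add_neg]; exact hx.add hy.neg

theorem Fi.mul {x y : R} (hx : Fi x) (hy : Fi y) : Fi (x * y) := by
  obtain ⟨n, hn⟩ := fi_iff.1 hx
  obtain ⟨m, hm⟩ := fi_iff.1 hy
  refine fi_iff.2 ⟨n * m, ?_⟩
  rw [abs_mul]
  push_cast
  exact mul_le_mul hn hm (abs_nonneg _) (Nat.cast_nonneg _)

theorem Fi.nat (n : ℕ) : Fi (n : R) := fi_iff.2 ⟨n, by rw [abs_of_nonneg (Nat.cast_nonneg n)]⟩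

theorem Fi.zero : Fi (0 : R) := by simpa using Fi.nat (R := R) 0

theorem Fi.one : Fi (1 : R) := by simpa using Fi.nat (R := R) 1

theorem Fi.pow {x : R} (hx : Fi x) (n : ℕ) : Fi (x ^ n) := by
  induction n with
  | zero => rw [pow_zero]; exact Fi.one
  | succ n ih => rw [pow_succ]; exact ih.mul hx

theorem Fi.mono {x y : R} (hy : Fi y) (h : |x| ≤ |y|) : Fi x := by
  obtain ⟨n, hn⟩ := fi_iff.1 hy
  exact fi_iff.2 ⟨n, h.trans hn⟩

theorem st_add {x y : R} (hx : Fi x) (hy : Fi y) : st (x + y) = st x + st y :=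
  ArchimedeanClass.stdPart_add hx hy

theorem st_mul {x y : R} (hx : Fi x) (hy : Fi y) : st (x * y) = st x * st y :=
  ArchimedeanClass.stdPart_mul hx hy

theorem st_neg (x : R) : st (-x) = -st x := ArchimedeanClass.stdPart_neg x

theorem st_sub {x y : R} (hx : Fi x) (hy : Fi y) : st (x - y) = st x - st y :=
  ArchimedeanClass.stdPart_sub hx hy

theorem st_inv (x : R) : st x⁻¹ = (st x)⁻¹ := ArchimedeanClass.stdPart_inv x

theorem st_nat (n : ℕ) : st (n : R) = n := ArchimedeanClass.stdPart_natCast n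

theorem st_zero : st (0 : R) = 0 := ArchimedeanClass.stdPart_zero

theorem st_one : st (1 : R) = 1 := ArchimedeanClass.stdPart_one

theorem st_pow {x : R} (hx : Fi x) (n : ℕ) : st (x ^ n) = st x ^ n := by
  induction n with
  | zero => rw [pow_zero, pow_zero, st_one]
  | succ n ih => rw [pow_succ, pow_succ, st_mul (hx.pow n) hx, ih]

theorem st_mono {x y : R} (hx : Fi x) (hy : Fi y) (h : x ≤ y) : st x ≤ st y :=
  ArchimedeanClass.stdPart_monotoneOn hx hy h

theorem lt_of_st {x y : R} (hx : Fi x) (hy : Fi y) (h : st x < st y) : x < y := by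
  by_contra hc
  exact absurd (st_mono hy hx (not_lt.1 hc)) (not_le.2 h)

theorem st_nonneg {x : R} (hx : 0 ≤ x) : 0 ≤ st x := ArchimedeanClass.stdPart_nonneg hx

/-- infinitesimals -/
def Ifl (x : R) : Prop := Fi x ∧ st x = 0

theorem Ifl.zero : Ifl (0 : R) := ⟨Fi.zero, st_zero⟩

theorem Ifl.add {x y : R} (hx : Ifl x) (hy : Ifl y) : Ifl (x + y) :=
  ⟨hx.1.add hy.1, by rw [st_add hx.1 hy.1, hx.2, hy.2, add_zero]⟩

theorem Ifl.neg {x : R} (hx : Ifl x) : Ifl (-x) := ⟨hx.1.neg, by rw [st_neg, hx.2, neg_zero]⟩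

theorem Ifl.mul {x y : R} (hx : Ifl x) (hy : Fi y) : Ifl (x * y) :=
  ⟨hx.1.mul hy, by rw [st_mul hx.1 hy, hx.2, zero_mul]⟩

theorem Ifl.mul' {x y : R} (hx : Fi x) (hy : Ifl y) : Ifl (x * y) := by
  rw [mul_comm]; exact hy.mul hx

theorem Ifl.lt {x : R} (hx : Ifl x) {y : R} (hy : Fi y) (h : 0 < st y) : |x| < y := by
  rw [abs_lt]
  refine ⟨lt_of_st hy.neg hx.1 (by rw [hx.2, st_neg]; linarith), lt_of_st hx.1 hy (by rw [hx.2]; exact h)⟩

theorem ifl_iff {x : R} : Ifl x ↔ ∀ n : ℕ, (n : R) * |x| < 1 := by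
  constructor
  · intro hx n
    have h1 : Ifl ((n : R) * x) := Ifl.mul' (Fi.nat n) hx
    have h2 := h1.lt Fi.one (by rw [st_one]; exact one_pos)
    rwa [abs_mul, abs_of_nonneg (Nat.cast_nonneg n)] at h2
  · intro h
    have hf : Fi x := fi_iff.2 ⟨1, by
      have := (h 1).le
      simpa using this⟩
    refine ⟨hf, ?_⟩
    by_contra h0
    obtain ⟨n, hn⟩ := exists_nat_gt (1 / |st x|)
    have hpos : 0 < |st x| := abs_pos.2 h0
    rw [div_lt_iff₀ hpos] at hn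
    have h1 := h n
    have habs : st |x| = |st x| := by
      rcases le_total 0 x with h2 | h2
      · rw [abs_of_nonneg h2, abs_of_nonneg (st_nonneg h2)]
      · rw [abs_of_nonpos h2, st_neg, abs_of_nonpos]
        have := st_nonneg (neg_nonneg.2 h2)
        rw [st_neg] at this
        linarith
    have hfa : Fi |x| := hf.mono (by rw [abs_abs])
    have h2 := st_mono ((Fi.nat n).mul hfa) Fi.one h1.le
    rw [st_mul (Fi.nat n) hfa, st_nat, st_one, habs] at h2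
    linarith

theorem Ifl.mono {x y : R} (hy : Ifl y) (h : |x| ≤ |y|) : Ifl x := by
  rw [ifl_iff] at hy ⊢
  intro n
  exact lt_of_le_of_lt (mul_le_mul_of_nonneg_left h (Nat.cast_nonneg n)) (hy n)

theorem Ifl.abs {x : R} (hx : Ifl x) : Ifl |x| := hx.mono (by rw [abs_abs])

theorem Ifl.lt_one {x : R} (hx : Ifl x) : |x| < 1 := hx.lt Fi.one (by rw [st_one]; exact one_pos)

theorem Ifl.one_add_pos {x : R} (hx : Ifl x) : 0 < 1 + x := by
  have := (abs_lt.1 hx.lt_one).1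
  linarith

theorem st_one_add {x : R} (hx : Ifl x) : st (1 + x) = 1 := by
  rw [st_add Fi.one hx.1, st_one, hx.2, add_zero]

theorem Ifl.of_st_one {x : R} (hf : Fi x) (h : st x = 1) : Ifl (x - 1) :=
  ⟨hf.sub Fi.one, by rw [st_sub hf Fi.one, h, st_one, sub_self]⟩

theorem Fi.inv {x : R} (h : st x ≠ 0) : Fi x⁻¹ := by
  by_contra hc
  apply h
  have h1 : st x⁻¹ = 0 := ArchimedeanClass.stdPart_of_mk_ne_zero (fun h2 => hc h2.ge)
  rw [st_inv] at h1
  exact inv_eq_zero.1 h1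

theorem Fi.of_st {x : R} (h : st x ≠ 0) : Fi x := by
  by_contra hc
  exact h (ArchimedeanClass.stdPart_of_mk_ne_zero (fun h2 => hc h2.ge))

/-- powers of `1 + δ` -/
theorem pow_ifl {δ : R} (hδ : Ifl δ) (n : ℕ) :
    ∃ ε, Ifl ε ∧ (1 + δ) ^ n = 1 + n * δ * (1 + ε) := by
  induction n with
  | zero => exact ⟨0, Ifl.zero, by simp⟩
  | succ n ih =>
    obtain ⟨ε, hε, h⟩ := ih
    have hn : ((n : R) + 1) ≠ 0 := by positivity
    refine ⟨(n * ε + n * (δ * (1 + ε))) * ((n + 1 : ℕ) : R)⁻¹, ?_, ?_⟩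
    · refine Ifl.mul ?_ (Fi.inv ?_)
      · exact (Ifl.mul' (Fi.nat n) hε).add
          (Ifl.mul' (Fi.nat n) (hδ.mul (Fi.one.add hε.1)))
      · rw [st_nat]
        positivity
    · rw [pow_succ, h]
      push_cast
      field_simp
      ring

theorem inv_ifl {δ : R} (hδ : Ifl δ) : ∃ ε, Ifl ε ∧ (1 + δ)⁻¹ = 1 + -δ * (1 + ε) := by
  have h1 : st (1 + δ) ≠ 0 := by rw [st_one_add hδ]; exact one_ne_zero
  have h2 : 1 + δ ≠ 0 := hδ.one_add_pos.ne'
  refine ⟨-δ * (1 + δ)⁻¹, hδ.neg.mul (Fi.inv h1), ?_⟩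
  field_simp
  ring

theorem eq_zero_of_bdd {x C : ℝ} (h : ∀ m : ℕ, 0 < m → |m * x| ≤ C) : x = 0 := by
  by_contra hx
  have hpos : 0 < |x| := abs_pos.2 hx
  obtain ⟨m, hm⟩ := exists_nat_gt (C / |x|)
  rw [div_lt_iff₀ hpos] at hm
  have h1 := h 1 one_pos
  have hC : 0 ≤ C := le_trans (abs_nonneg _) h1
  have hm0 : 0 < m := by
    rcases Nat.eq_zero_or_pos m with h0 | h0
    · rw [h0] at hm
      simp at hm
      linarith
    · exact h0
  have h2 := h m hm0
  rw [abs_mul, abs_of_nonneg (Nat.cast_nonneg m)] at h2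
  linarith

end

end Pool.Agent.W894.EIP
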