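import Pool.Agent.W894.EIP.BF2

/-!
Residue classes in ordered groups, approximations of ratios.
-/

set_option autoImplicit false
set_option linter.unusedSectionVars false
set_option linter.unusedVariables false

namespace Pool.Agent.W894.EIP

section

variable {V W : Type*} [AddCommGroup V] [LinearOrder V] [IsOrderedAddMonoid V]
  [AddCommGroup W] [LinearOrder W] [IsOrderedAddMonoid W]

theorem ratio_of_approx {Q P : V} (hP : 0 < P) {ρ : ℝ} (C : ℕ)
    (h : ∀ n : ℕ, 0 < n → ∃ u : ℤ, |(u : ℝ) - n * ρ| ≤ C ∧ (u - C) • P ≤ n • Q ∧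
      n • Q ≤ (u + C) • P) : Ratio Q P ρ := by
  intro u0 n0 hn0
  constructor
  · intro h1
    obtain ⟨t, ht⟩ := exists_nat_gt (2 * C / (n0 * ρ - u0))
    have h2 : 0 < n0 * ρ - u0 := by linarith
    rw [div_lt_iff₀ h2] at ht
    have ht0 : 0 < t := by
      rcases Nat.eq_zero_or_pos t with h0 | h0
      · rw [h0] at ht
        have : (0 : ℝ) ≤ C := Nat.cast_nonneg C
        norm_num at ht
        linarith
      · exact h0
    obtain ⟨u, hu1, hu2, hu3⟩ := h (n0 * t) (Nat.mul_pos hn0 ht0)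
    have h3 := (abs_le.1 hu1).1
    push_cast at h3
    have h4 : (t : ℝ) * u0 < u - C := by linarith
    have h5 : (t : ℤ) * u0 < u - C := by exact_mod_cast h4
    apply lt_of_nsmul (n := t)
    calc t • (u0 • P) = ((t : ℤ) * u0) • P := by rw [← natCast_zsmul, smul_smul]
      _ < (u - C) • P := zsmul_lt_zsmul_left hP h5
      _ ≤ (n0 * t) • Q := hu2
      _ = t • (n0 • Q) := by rw [mul_comm, mul_smul]
  · intro h1
    obtain ⟨t, ht⟩ := exists_nat_gt (2 * C / (u0 - n0 * ρ))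
    have h2 : 0 < u0 - n0 * ρ := by linarith
    rw [div_lt_iff₀ h2] at ht
    have ht0 : 0 < t := by
      rcases Nat.eq_zero_or_pos t with h0 | h0
      · rw [h0] at ht
        have : (0 : ℝ) ≤ C := Nat.cast_nonneg C
        norm_num at ht
        linarith
      · exact h0
    obtain ⟨u, hu1, hu2, hu3⟩ := h (n0 * t) (Nat.mul_pos hn0 ht0)
    have h3 := (abs_le.1 hu1).2
    push_cast at h3
    have h4 : (u : ℝ) + C < t * u0 := by linarith
    have h5 : u + C < (t : ℤ) * u0 := by exact_mod_cast h4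
    apply lt_of_nsmul (n := t)
    calc t • (n0 • Q) = (n0 * t) • Q := by rw [mul_comm, mul_smul]
      _ ≤ (u + C) • P := hu3
      _ < ((t : ℤ) * u0) • P := zsmul_lt_zsmul_left hP h5
      _ = t • (u0 • P) := by rw [← natCast_zsmul, smul_smul]

/-- equal residues -/
def Srel (u : V) (v : W) : Submodule ℤ (V × W) where
  carrier := {p | ∀ n : ℕ, 0 < n → ∃ i : ℤ, (∃ z1 : V, p.1 = n • z1 + i • u) ∧
    ∃ w1 : W, p.2 = n • w1 + i • v}
  add_mem' := by
    intro p q hp hq n hn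
    obtain ⟨i, ⟨z1, h1⟩, w1, h2⟩ := hp n hn
    obtain ⟨j, ⟨z2, h3⟩, w2, h4⟩ := hq n hn
    refine ⟨i + j, ⟨z1 + z2, ?_⟩, w1 + w2, ?_⟩
    · rw [Prod.fst_add, h1, h3, smul_add, add_smul]; abel
    · rw [Prod.snd_add, h2, h4, smul_add, add_smul]; abel
  zero_mem' := by
    intro n hn
    exact ⟨0, ⟨0, by simp⟩, 0, by simp⟩
  smul_mem' := by
    intro c p hp n hn
    obtain ⟨i, ⟨z1, h1⟩, w1, h2⟩ := hp n hn
    refine ⟨c * i, ⟨c • z1, ?_⟩, c • w1, ?_⟩
    · rw [Prod.smul_fst, h1, smul_add, smul_comm, mul_smul]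
    · rw [Prod.smul_snd, h2, smul_add, smul_comm, mul_smul]

theorem mem_Srel {u : V} {v : W} {x : V} {y : W} : (x, y) ∈ Srel u v ↔
    ∀ n : ℕ, 0 < n → ∃ i : ℤ, (∃ z1 : V, x = n • z1 + i • u) ∧ ∃ w1 : W, y = n • w1 + i • v :=
  Iff.rfl

theorem sw_Srel (u : V) (v : W) : sw (Srel u v) = Srel v u := by
  ext ⟨y, x⟩
  rw [mem_sw, mem_Srel, mem_Srel]
  refine forall_congr' fun n => forall_congr' fun hn => exists_congr fun i => and_comm

theorem base_mem_Srel (u : V) (v : W) : (u, v) ∈ Srel u v := fun n hn =>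
  ⟨1, ⟨0, by simp⟩, 0, by simp⟩

theorem smul_inj' {u : V} (hu : 0 < u) {i j : ℤ} (h : i • u = j • u) : i = j := by
  rcases lt_trichotomy i j with h1 | h1 | h1
  · exact absurd h (zsmul_lt_zsmul_left hu h1).ne
  · exact h1
  · exact absurd h (zsmul_lt_zsmul_left hu h1).ne'

theorem nsmul_cancel {x y : V} {n : ℕ} (hn : 0 < n) (h : n • x = n • y) : x = y := by
  rcases lt_trichotomy x y with h1 | h1 | h1
  · exact absurd h (nsmul_lt_nsmul_right hn.ne' h1).ne
  · exact h1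
  · exact absurd h (nsmul_lt_nsmul_right hn.ne' h1).ne'

theorem dvd_of_base {u : V} (hu : 0 < u) (hbase : ∀ x : V, BO x u → ∃ k : ℤ, x = k • u)
    {n : ℕ} (hn : 0 < n) {x z : V} {i : ℤ} (h : n • x = n • z + i • u) :
    ∃ k : ℤ, i = n * k ∧ x = z + k • u := by
  have h1 : n • (x - z) = i • u := by rw [smul_sub, h]; abel
  have h2 : BO (x - z) u := by
    apply BO.of_nsmul hn
    rw [h1]
    exact (BO.refl u).zsmul i
  obtain ⟨k, hk⟩ := hbase _ h2
  refine ⟨k, ?_, by rw [← hk]; abel⟩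
  apply smul_inj' hu
  rw [← h1, hk, mul_smul, natCast_zsmul]

theorem div_gen {u : V} {v : W} (hu : 0 < u) (hbase : ∀ x : V, BO x u → ∃ k : ℤ, x = k • u)
    (n : ℕ) (hn : 0 < n) (x : V) (y' : W) (h : (n • x, y') ∈ Srel u v) :
    ∃ y, n • y = y' ∧ (x, y) ∈ Srel u v := by
  obtain ⟨i, ⟨z1, h1⟩, w1, h2⟩ := h n hn
  obtain ⟨k, hk, hx⟩ := dvd_of_base hu hbase hn h1
  have hy : y' = n • (w1 + k • v) := by
    have h2' : y' = n • w1 + i • v := h2
    rw [h2', hk, mul_smul, natCast_zsmul, smul_add]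
  refine ⟨w1 + k • v, hy.symm, ?_⟩
  rw [mem_Srel]
  intro m hm
  obtain ⟨j, ⟨z2, h3⟩, w2, h4⟩ := h (n * m) (Nat.mul_pos hn hm)
  have h3' : n • x = n • (m • z2) + j • u := by
    have : n • x = (n * m) • z2 + j • u := h3
    rw [this, mul_smul]
  obtain ⟨k2, hk2, hx2⟩ := dvd_of_base hu hbase hn h3'
  refine ⟨k2, ⟨z2, hx2⟩, w2, ?_⟩
  apply nsmul_cancel hn
  rw [← hy]
  have h4' : y' = (n * m) • w2 + j • v := h4
  rw [h4', hk2, mul_smul, mul_smul, natCast_zsmul, smul_add]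

/-- adjustment of the residues, from nonnegative elements to all elements -/
theorem res_all {u : V} {v : W} (hu : 0 < u)
    (h1 : ∀ z : V, 0 ≤ z → ∀ w0 : W, 0 < w0 → ¬ BO w0 v →
      ∃ w, (z, w) ∈ Srel u v ∧ ¬ BO w0 (w - w0))
    (h2 : ∀ w : W, 0 ≤ w → ∀ z0 : V, 0 < z0 → ¬ BO z0 u →
      ∃ z, (z, w) ∈ Srel u v ∧ ¬ BO z0 (z - z0))
    (hV : ∃ z0 : V, 0 < z0 ∧ ¬ BO z0 u) (z : V) (w0 : W) (hw0 : 0 < w0) (hw1 : ¬ BO w0 v) :
    ∃ w, (z, w) ∈ Srel u v ∧ ¬ BO w0 (w - w0) := by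
  rcases le_or_gt 0 z with hz | hz
  · exact h1 z hz w0 hw0 hw1
  · obtain ⟨x0, hx0, hx1⟩ := hV
    have hnz : 0 < -z := neg_pos.2 hz
    obtain ⟨z0, hz0⟩ : ∃ z0, z0 = -z + -z + x0 := ⟨_, rfl⟩
    have hz0p : 0 < z0 := by rw [hz0]; exact add_pos (add_pos hnz hnz) hx0
    have hx0z0 : x0 ≤ z0 := by
      rw [hz0]
      exact le_add_of_nonneg_left (add_pos hnz hnz).le
    have hz0u : ¬ BO z0 u := by
      intro h
      apply hx1
      refine (BO.of_abs_le ?_).trans h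
      rwa [abs_of_pos hx0, abs_of_pos hz0p]
    obtain ⟨z1, hz1, hz1'⟩ := h2 0 le_rfl z0 hz0p hz0u
    have h3 := not_BO.1 hz1' 2
    rw [abs_of_pos hz0p, two_smul] at h3
    have h4 : 0 ≤ z + z1 := by
      have h5 : -|z1 - z0| ≤ z1 - z0 := neg_abs_le _
      by_contra hc
      rw [not_le] at hc
      -- `z1 < -z`, `z0 - |z1 - z0| ≤ z1`
      have h6 : z1 < -z := lt_neg_iff_add_neg'.2 hc
      have h7 : z0 - |z1 - z0| ≤ z1 := by
        have := add_le_add_left h5 z0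
        rw [add_comm, sub_add_cancel] at this
        rwa [sub_eq_add_neg]
      have h8 : z0 + z0 - (|z1 - z0| + |z1 - z0|) < -z + -z := by
        have e : z0 + z0 - (|z1 - z0| + |z1 - z0|) = (z0 - |z1 - z0|) + (z0 - |z1 - z0|) := by abel
        rw [e]
        exact add_lt_add (h7.trans_lt h6) (h7.trans_lt h6)
      have h9 : z0 < z0 + z0 - (|z1 - z0| + |z1 - z0|) := by
        rw [lt_sub_iff_add_lt]
        exact add_lt_add_of_le_of_lt le_rfl h3
      have h10 : -z + -z ≤ z0 := by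
        rw [hz0]
        exact le_add_of_nonneg_right hx0.le
      exact absurd (h9.trans h8) (not_lt.2 h10)
    obtain ⟨w, hw, hw'⟩ := h1 (z + z1) h4 w0 hw0 hw1
    refine ⟨w, ?_, hw'⟩
    have := (Srel u v).sub_mem hw hz1
    rwa [Prod.mk_sub_mk, add_sub_cancel_right, sub_zero] at this

end

end Pool.Agent.W894.EIP
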