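import Mathlib

/-!
The ring of differences of an ordered semiring and an algebraically closed field containing it.
-/

set_option autoImplicit false
set_option linter.unusedSectionVars false
set_option linter.style.haveILetI false

namespace Pool.Agent.W894.EIP

section

variable (M : Type) [CommSemiring M] [LinearOrder M] [IsStrictOrderedRing M]
  [CanonicallyOrderedAdd M]

/-- equality of differences -/
def ZRel : Setoid (M × M) where
  r a b := a.1 + b.2 = b.1 + a.2
  iseqv := by
    refine ⟨fun a => rfl, fun h => h.symm, ?_⟩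
    rintro ⟨a, b⟩ ⟨c, d⟩ ⟨e, f⟩ h1 h2
    change a + d = c + b at h1
    change c + f = e + d at h2
    change a + f = e + b
    apply add_right_cancel (b := d)
    calc a + f + d = (a + d) + f := by ring
      _ = (c + f) + b := by rw [h1]; ring
      _ = e + b + d := by rw [h2]; ring

/-- the ring of differences -/
def ZD : Type := Quotient (ZRel M)

variable {M}

/-- the difference `a - b` -/
def df (a b : M) : ZD M := Quotient.mk (ZRel M) (a, b)

theorem df_eq {a b c d : M} : df a b = df c d ↔ a + d = c + b :=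
  Quotient.eq (r := ZRel M) (x := (a, b)) (y := (c, d))

theorem exists_df (z : ZD M) : ∃ a b, z = df a b := by
  induction z using Quotient.inductionOn with
  | _ p => exact ⟨p.1, p.2, rfl⟩

/-- addition -/
def zadd : ZD M → ZD M → ZD M := Quotient.map₂ (fun p q => (p.1 + q.1, p.2 + q.2)) (by
  rintro ⟨a, b⟩ ⟨a', b'⟩ h1 ⟨c, d⟩ ⟨c', d'⟩ h2
  change a + b' = a' + b at h1
  change c + d' = c' + d at h2
  change a + c + (b' + d') = a' + c' + (b + d)
  calc a + c + (b' + d') = (a + b') + (c + d') := by ring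
    _ = a' + c' + (b + d) := by rw [h1, h2]; ring)

/-- multiplication -/
def zmul : ZD M → ZD M → ZD M := Quotient.map₂ (fun p q => (p.1 * q.1 + p.2 * q.2,
  p.1 * q.2 + p.2 * q.1)) (by
  rintro ⟨a, b⟩ ⟨a', b'⟩ h1 ⟨c, d⟩ ⟨c', d'⟩ h2
  change a + b' = a' + b at h1
  change c + d' = c' + d at h2
  change a * c + b * d + (a' * d' + b' * c') = a' * c' + b' * d' + (a * d + b * c)
  have e1 : a * c + b * d + (a' * d + b' * c) = a' * c + b' * d + (a * d + b * c) := by
    calc a * c + b * d + (a' * d + b' * c) = (a + b') * c + (a' + b) * d := by ring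
      _ = (a' + b) * c + (a + b') * d := by rw [h1]
      _ = a' * c + b' * d + (a * d + b * c) := by ring
  have e2 : a' * c + b' * d + (a' * d' + b' * c') = a' * c' + b' * d' + (a' * d + b' * c) := by
    calc a' * c + b' * d + (a' * d' + b' * c') = a' * (c + d') + b' * (c' + d) := by ring
      _ = a' * (c' + d) + b' * (c + d') := by rw [h2]
      _ = a' * c' + b' * d' + (a' * d + b' * c) := by ring
  apply add_right_cancel (b := a' * c + b' * d + (a' * d + b' * c))
  calc a * c + b * d + (a' * d' + b' * c') + (a' * c + b' * d + (a' * d + b' * c))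
      = (a * c + b * d + (a' * d + b' * c)) + (a' * c + b' * d + (a' * d' + b' * c')) := by ring
    _ = (a' * c + b' * d + (a * d + b * c)) + (a' * c' + b' * d' + (a' * d + b' * c)) := by
        rw [e1, e2]
    _ = a' * c' + b' * d' + (a * d + b * c) + (a' * c + b' * d + (a' * d + b' * c)) := by ring)

/-- negation -/
def zneg : ZD M → ZD M := Quotient.map (fun p => (p.2, p.1)) (by
  rintro ⟨a, b⟩ ⟨a', b'⟩ h1
  change a + b' = a' + b at h1
  change b + a' = b' + a
  rw [add_comm b, ← h1, add_comm])

instance : Zero (ZD M) := ⟨df 0 0⟩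
instance : One (ZD M) := ⟨df 1 0⟩
instance : Add (ZD M) := ⟨zadd⟩
instance : Mul (ZD M) := ⟨zmul⟩
instance : Neg (ZD M) := ⟨zneg⟩

theorem df_add (a b c d : M) : df a b + df c d = df (a + c) (b + d) := rfl
theorem df_mul (a b c d : M) : df a b * df c d = df (a * c + b * d) (a * d + b * c) := rfl
theorem df_neg (a b : M) : -df a b = df b a := rfl
theorem df_zero : (0 : ZD M) = df 0 0 := rfl
theorem df_one : (1 : ZD M) = df 1 0 := rfl

instance : CommRing (ZD M) where
  add_assoc x y z := by
    obtain ⟨a, b, rfl⟩ := exists_df x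
    obtain ⟨c, d, rfl⟩ := exists_df y
    obtain ⟨e, f, rfl⟩ := exists_df z
    simp only [df_add, df_eq]; ring
  zero_add x := by
    obtain ⟨a, b, rfl⟩ := exists_df x
    simp only [df_zero, df_add, df_eq]; ring
  add_zero x := by
    obtain ⟨a, b, rfl⟩ := exists_df x
    simp only [df_zero, df_add, df_eq]; ring
  add_comm x y := by
    obtain ⟨a, b, rfl⟩ := exists_df x
    obtain ⟨c, d, rfl⟩ := exists_df y
    simp only [df_add, df_eq]; ring
  left_distrib x y z := by
    obtain ⟨a, b, rfl⟩ := exists_df x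
    obtain ⟨c, d, rfl⟩ := exists_df y
    obtain ⟨e, f, rfl⟩ := exists_df z
    simp only [df_add, df_mul, df_eq]; ring
  right_distrib x y z := by
    obtain ⟨a, b, rfl⟩ := exists_df x
    obtain ⟨c, d, rfl⟩ := exists_df y
    obtain ⟨e, f, rfl⟩ := exists_df z
    simp only [df_add, df_mul, df_eq]; ring
  zero_mul x := by
    obtain ⟨a, b, rfl⟩ := exists_df x
    simp only [df_zero, df_mul, df_eq]; ring
  mul_zero x := by
    obtain ⟨a, b, rfl⟩ := exists_df x
    simp only [df_zero, df_mul, df_eq]; ring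
  mul_assoc x y z := by
    obtain ⟨a, b, rfl⟩ := exists_df x
    obtain ⟨c, d, rfl⟩ := exists_df y
    obtain ⟨e, f, rfl⟩ := exists_df z
    simp only [df_mul, df_eq]; ring
  one_mul x := by
    obtain ⟨a, b, rfl⟩ := exists_df x
    simp only [df_one, df_mul, df_eq]; ring
  mul_one x := by
    obtain ⟨a, b, rfl⟩ := exists_df x
    simp only [df_one, df_mul, df_eq]; ring
  mul_comm x y := by
    obtain ⟨a, b, rfl⟩ := exists_df x
    obtain ⟨c, d, rfl⟩ := exists_df y
    simp only [df_mul, df_eq]; ring
  neg_add_cancel x := by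
    obtain ⟨a, b, rfl⟩ := exists_df x
    simp only [df_neg, df_zero, df_add, df_eq]; ring
  nsmul := nsmulRec
  zsmul := zsmulRec

/-- the embedding -/
def toZ : M →+* ZD M where
  toFun a := df a 0
  map_zero' := rfl
  map_one' := rfl
  map_add' a b := by rw [df_add, add_zero]
  map_mul' a b := by rw [df_mul, df_eq]; ring

theorem toZ_inj : Function.Injective (toZ (M := M)) := by
  intro a b h
  have h1 : df a 0 = df b 0 := h
  rw [df_eq, add_zero, add_zero] at h1
  exact h1

theorem ZD_cases (z : ZD M) : ∃ a : M, z = toZ a ∨ z = -toZ a := by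
  obtain ⟨a, b, rfl⟩ := exists_df z
  rcases le_total b a with h | h
  · obtain ⟨c, rfl⟩ := le_iff_exists_add.1 h
    refine ⟨c, Or.inl ?_⟩
    change _ = df c 0
    rw [df_eq]; ring
  · obtain ⟨c, rfl⟩ := le_iff_exists_add.1 h
    refine ⟨c, Or.inr ?_⟩
    change _ = -df c 0
    rw [df_neg, df_eq]; ring

theorem ZD_sub (z : ZD M) : ∃ a b : M, z = toZ a - toZ b := by
  obtain ⟨a, b, rfl⟩ := exists_df z
  refine ⟨a, b, ?_⟩
  rw [sub_eq_add_neg]
  change _ = df a 0 + -df b 0
  rw [df_neg, df_add, df_eq]; ring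

instance : Nontrivial (ZD M) := ⟨0, 1, by
  intro h
  have h1 : toZ (0 : M) = toZ 1 := by rw [map_zero, map_one]; exact h
  exact zero_ne_one (toZ_inj h1)⟩

instance : IsDomain (ZD M) := by
  have : NoZeroDivisors (ZD M) := by
    refine ⟨fun {x y} h => ?_⟩
    obtain ⟨a, ha⟩ := ZD_cases x
    obtain ⟨b, hb⟩ := ZD_cases y
    have h1 : toZ (a * b) = 0 := by
      rw [map_mul]
      rcases ha with rfl | rfl <;> rcases hb with rfl | rfl <;> simpa using h
    have h2 : a * b = 0 := toZ_inj (by rw [h1, map_zero])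
    rcases mul_eq_zero.1 h2 with h3 | h3
    · left
      rcases ha with rfl | rfl <;> simp [h3]
    · right
      rcases hb with rfl | rfl <;> simp [h3]
  exact NoZeroDivisors.to_isDomain _

end

open Polynomial

theorem exists_field (M : Type) [CommSemiring M] [LinearOrder M] [IsStrictOrderedRing M]
    [CanonicallyOrderedAdd M] [Countable M] :
    ∃ (Ω : Type) (_ : Field Ω) (_ : IsAlgClosed Ω) (_ : CharZero Ω) (_ : Countable Ω)
      (ι : M →+* Ω), Function.Injective ι ∧ ∀ r : Ω, ∃ f : Polynomial Ω, f ≠ 0 ∧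
        (∀ i, ∃ a b : M, f.coeff i = ι a - ι b) ∧ f.eval r = 0 := by
  let F := FractionRing (ZD M)
  let Ω := AlgebraicClosure F
  have hinj : Function.Injective (algebraMap (ZD M) Ω) := by
    rw [IsScalarTower.algebraMap_eq (ZD M) F Ω]
    exact (algebraMap F Ω).injective.comp (IsFractionRing.injective (ZD M) F)
  obtain ⟨ι, hι⟩ : ∃ ι : M →+* Ω, ι = (algebraMap (ZD M) Ω).comp toZ := ⟨_, rfl⟩
  have hιinj : Function.Injective ι := by
    rw [hι]
    exact hinj.comp toZ_inj
  haveI : CharZero Ω := by
    refine ⟨fun a b h => ?_⟩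
    have h1 : ι (a : M) = ι (b : M) := by rw [map_natCast, map_natCast]; exact h
    exact_mod_cast hιinj h1
  haveI c1 : Countable (ZD M) := by unfold ZD; infer_instance
  haveI c2 : Countable F := by
    have : Function.Surjective (fun p : ZD M × nonZeroDivisors (ZD M) =>
        IsLocalization.mk' F p.1 p.2) := by
      intro x
      obtain ⟨a, b, h⟩ := IsLocalization.exists_mk'_eq (nonZeroDivisors (ZD M)) x
      exact ⟨(a, b), h⟩
    exact this.countable
  haveI c3 : Countable Ω := by
    have := Algebra.IsAlgebraic.cardinalMk_le_max F Ω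
    rw [← Cardinal.mk_le_aleph0_iff]
    refine this.trans (max_le ?_ le_rfl)
    exact Cardinal.mk_le_aleph0
  refine ⟨Ω, inferInstance, inferInstance, inferInstance, c3, ι, hιinj, ?_⟩
  intro r
  haveI : Algebra.IsAlgebraic (ZD M) Ω := by
    have := (IsFractionRing.comap_isAlgebraic_iff (A := ZD M) (K := F) (C := Ω)).2 inferInstance
    exact this
  obtain ⟨p, hp0, hp⟩ := Algebra.IsAlgebraic.isAlgebraic (R := ZD M) r
  refine ⟨p.map (algebraMap (ZD M) Ω), ?_, ?_, ?_⟩
  · intro h
    exact hp0 ((Polynomial.map_eq_zero_iff hinj).1 h)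
  · intro i
    obtain ⟨a, b, hab⟩ := ZD_sub (p.coeff i)
    refine ⟨a, b, ?_⟩
    rw [coeff_map, hab, hι]; simp
  · rw [eval_map, ← aeval_def]
    exact hp

end Pool.Agent.W894.EIP
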